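import Pool.Agent.Y408.OC.Factor

set_option autoImplicit false

/-!
Oriented cycle double covers of Cayley graphs.
-/

namespace Q116.CayO

open Finset
open Pool.Agent.TH505.OCDC

variable {V : Type}

/-- a list of directed cycles of `G` which traverses exactly the arcs in `R`, each once -/
def Cov (G : SimpleGraph V) (R : V → V → Prop) : Prop :=
  ∃ C : List (Σ v : V, G.Walk v v), (∀ c ∈ C, c.2.IsCycle) ∧ ∀ u v, tot C u v = ind (R u v)

lemma ind_congr {p q : Prop} (h : p ↔ q) : ind p = ind q := by rw [propext h]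

lemma Cov.union {G : SimpleGraph V} {R S T : V → V → Prop} (hR : Cov G R) (hS : Cov G S)
    (h : ∀ u v, ind (T u v) = ind (R u v) + ind (S u v)) : Cov G T := by
  obtain ⟨C, hC1, hC2⟩ := hR
  obtain ⟨D, hD1, hD2⟩ := hS
  refine ⟨C ++ D, ?_, ?_⟩
  · intro c hc
    rw [List.mem_append] at hc
    rcases hc with hc | hc
    · exact hC1 c hc
    · exact hD1 c hc
  · intro u v
    rw [tot_append, hC2, hD2, h]

lemma Cov.congr {G : SimpleGraph V} {R S : V → V → Prop} (hR : Cov G R)
    (h : ∀ u v, S u v ↔ R u v) : Cov G S := by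
  obtain ⟨C, hC1, hC2⟩ := hR
  exact ⟨C, hC1, fun u v => by rw [hC2, ind_congr (h u v)]⟩

lemma cov_classes [Fintype V] {G : SimpleGraph V} {ι : Type} (R : V → V → Prop) (cls : V → V → ι)
    (hadj : ∀ u v, R u v → G.Adj u v)
    (hne : ∀ u v, R u v → R v u → cls u v ≠ cls v u)
    (hbal : ∀ i u, ∑ w, ind (R u w ∧ cls u w = i) = ∑ w, ind (R w u ∧ cls w u = i)) :
    Cov G R := by
  classical
  have key : ∀ s : Finset ι, Cov G (fun u v => R u v ∧ cls u v ∈ s) := by
    intro s
    induction s using Finset.induction_on with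
    | empty => exact ⟨[], by simp, fun u v => by rw [tot_nil, ind_neg (by simp)]⟩
    | insert i s hi ih =>
      have h1 : Cov G (fun u v => R u v ∧ cls u v = i) := by
        obtain ⟨C, hC1, hC2⟩ := directed_decomp (G := G) _ (fun u v => R u v ∧ cls u v = i) rfl
          (fun u v h => hadj u v h.1) (fun u v h h' => hne u v h.1 h'.1 (h.2.trans h'.2.symm))
          (fun v => hbal i v)
        exact ⟨C, hC1, hC2⟩
      refine h1.union ih ?_
      intro u v
      by_cases hr : R u v
      · by_cases hc : cls u v = i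
        · rw [ind_pos ⟨hr, by rw [hc]; exact mem_insert_self _ _⟩, ind_pos ⟨hr, hc⟩, ind_neg]
          rintro ⟨_, h⟩
          rw [hc] at h
          exact hi h
        · rw [ind_neg (p := R u v ∧ cls u v = i) (fun h => hc h.2), zero_add]
          apply ind_congr
          rw [mem_insert]
          constructor
          · rintro ⟨h1, h2 | h2⟩
            · exact absurd h2 hc
            · exact ⟨h1, h2⟩
          · rintro ⟨h1, h2⟩
            exact ⟨h1, Or.inr h2⟩
      · rw [ind_neg (fun h => hr h.1), ind_neg (fun h => hr h.1), ind_neg (fun h => hr h.1)]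
  refine (key (univ.image (fun p : V × V => cls p.1 p.2))).congr ?_
  intro u v
  refine ⟨fun h => ⟨h, mem_image.2 ⟨(u, v), mem_univ _, rfl⟩⟩, fun h => h.1⟩

lemma cov_even [Fintype V] {G : SimpleGraph V} (R : V → V → Prop)
    (hadj : ∀ u v, R u v → G.Adj u v)
    (hsym : ∀ u v, R u v → R v u) (heven : ∀ v, Even (∑ w, ind (R v w))) : Cov G R := by
  obtain ⟨g, g1, g2, g3, g4⟩ := orient G _ R rfl hadj hsym heven
  have hv : ∀ u v, g u v = 0 ∨ g u v = 1 ∨ g u v = -1 := by
    intro u v
    by_cases h : R u v
    · exact Or.inr (g2 u v h)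
    · exact Or.inl (g3 u v h)
  have hs : ∀ u v, g u v ≠ 0 → G.Adj u v := by
    intro u v h
    by_contra h'
    exact h (g3 u v (fun hr => h' (hadj u v hr)))
  have h1 : Cov G (fun u v => g u v = 1) := flow_decomp g g1 hv hs g4
  have h2 : Cov G (fun u v => - g u v = 1) := by
    refine flow_decomp (fun u v => - g u v) ?_ ?_ ?_ ?_
    · intro u v
      rw [g1 u v]
    · intro u v
      rcases hv u v with h | h | h <;> rw [h] <;> norm_num
    · intro u v h
      exact hs u v (by intro h'; rw [h'] at h; exact h (by norm_num))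
    · intro u
      rw [Finset.sum_neg_distrib, g4, neg_zero]
  refine h1.union h2 ?_
  intro u v
  by_cases h : R u v
  · rw [ind_pos h]
    rcases g2 u v h with h' | h'
    · rw [ind_pos h', ind_neg (by rw [h']; norm_num)]
    · rw [ind_neg (by rw [h']; norm_num), ind_pos (by rw [h']; norm_num)]
  · rw [ind_neg h, ind_neg (by rw [g3 u v h]; norm_num), ind_neg (by rw [g3 u v h]; norm_num)]

lemma dc_map {W : Type} {G : SimpleGraph V} {H : SimpleGraph W} (f : G →g H)
    (hf : Function.Injective f) {x y : V} (p : G.Walk x y) (u v : V) :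
    dc (p.map f) (f u) (f v) = dc p u v := by
  classical
  induction p with
  | nil => simp [dc_nil]
  | cons h p ih =>
    rw [SimpleGraph.Walk.map_cons, dc_cons, dc_cons, ih]
    congr 1
    simp only [hf.eq_iff]

lemma list_map {W : Type} {G : SimpleGraph V} {H : SimpleGraph W} (f : G →g H)
    (hf : Function.Injective f) (C : List (Σ v : V, G.Walk v v)) (hC : ∀ c ∈ C, c.2.IsCycle) :
    ∃ D : List (Σ v : W, H.Walk v v), (∀ c ∈ D, c.2.IsCycle) ∧
      ∀ u v, tot D (f u) (f v) = tot C u v := by
  refine ⟨C.map (fun c => ⟨f c.1, c.2.map f⟩), ?_, ?_⟩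
  · intro c hc
    obtain ⟨d, hd, rfl⟩ := List.mem_map.1 hc
    exact (SimpleGraph.Walk.map_isCycle_iff_of_injective hf).2 (hC d hd)
  · intro u v
    unfold tot
    rw [List.map_map]
    congr 1
    apply List.map_congr_left
    intro c _
    exact dc_map f hf c.2 u v

lemma cov_of_le {G H : SimpleGraph V} (h : G ≤ H) {R : V → V → Prop} (hR : Cov G R) : Cov H R := by
  obtain ⟨C, hC1, hC2⟩ := hR
  obtain ⟨D, hD1, hD2⟩ := list_map (SimpleGraph.Hom.ofLE h) Function.injective_id C hC1
  exact ⟨D, hD1, fun u v => by rw [← hC2 u v]; exact hD2 u v⟩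

/-- cubic graphs whose edges are coloured with three colours -/
lemma cov_color [Fintype V] {G : SimpleGraph V} (α β γ : V → V) (hα : ∀ u, α (α u) = u)
    (hβ : ∀ u, β (β u) = u) (hγ : ∀ u, γ (γ u) = u) (h1 : ∀ u, G.Adj u (α u))
    (h2 : ∀ u, G.Adj u (β u)) (h3 : ∀ u, G.Adj u (γ u)) (h12 : ∀ u, α u ≠ β u)
    (h13 : ∀ u, α u ≠ γ u) (h23 : ∀ u, β u ≠ γ u) :
    Cov G (fun u v => v = α u ∨ v = β u ∨ v = γ u) := by
  classical
  let H : SimpleGraph V :=
    { Adj := fun u v => v = α u ∨ v = β u ∨ v = γ u
      symm := by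
        constructor
        rintro u v (h | h | h)
        · left; rw [h, hα]
        · right; left; rw [h, hβ]
        · right; right; rw [h, hγ]
      loopless := by
        constructor
        rintro u (h | h | h)
        · exact (h1 u).ne h
        · exact (h2 u).ne h
        · exact (h3 u).ne h }
  have hH : ∀ u v, H.Adj u v ↔ v = α u ∨ v = β u ∨ v = γ u := fun u v => Iff.rfl
  have hle : H ≤ G := by
    intro u v h
    rcases (hH u v).1 h with h | h | h
    · rw [h]; exact h1 u
    · rw [h]; exact h2 u
    · rw [h]; exact h3 u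
  refine cov_of_le hle ?_
  let φ : Sym2 V → ZMod 2 × ZMod 2 := fun e =>
    if ∃ u, e = s(u, α u) then (1, 1) else if ∃ u, e = s(u, β u) then (1, 0) else (0, 1)
  have f1 : ∀ u, φ s(u, α u) = (1, 1) := by
    intro u
    simp only [φ]
    rw [if_pos ⟨u, rfl⟩]
  have n12 : ∀ u w, s(u, β u) ≠ s(w, α w) := by
    intro u w h
    rcases Sym2.eq_iff.1 h with ⟨h1, h2⟩ | ⟨h1, h2⟩
    · subst h1; exact h12 u h2.symm
    · have : α u = w := by rw [h1, hα]
      exact h12 u (this.trans h2.symm)
  have n13 : ∀ u w, s(u, γ u) ≠ s(w, α w) := by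
    intro u w h
    rcases Sym2.eq_iff.1 h with ⟨h1, h2⟩ | ⟨h1, h2⟩
    · subst h1; exact h13 u h2.symm
    · have : α u = w := by rw [h1, hα]
      exact h13 u (this.trans h2.symm)
  have n23 : ∀ u w, s(u, γ u) ≠ s(w, β w) := by
    intro u w h
    rcases Sym2.eq_iff.1 h with ⟨h1, h2⟩ | ⟨h1, h2⟩
    · subst h1; exact h23 u h2.symm
    · have : β u = w := by rw [h1, hβ]
      exact h23 u (this.trans h2.symm)
  have f2 : ∀ u, φ s(u, β u) = (1, 0) := by
    intro u
    simp only [φ]
    rw [if_neg (fun h => by obtain ⟨w, hw⟩ := h; exact n12 u w hw), if_pos ⟨u, rfl⟩]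
  have f3 : ∀ u, φ s(u, γ u) = (0, 1) := by
    intro u
    simp only [φ]
    rw [if_neg (fun h => by obtain ⟨w, hw⟩ := h; exact n13 u w hw),
      if_neg (fun h => by obtain ⟨w, hw⟩ := h; exact n23 u w hw)]
  have hdeg : ∀ v, (H.neighborSet v).ncard = 3 := by
    intro v
    have : H.neighborSet v = {α v, β v, γ v} := by
      ext w
      rw [SimpleGraph.mem_neighborSet, hH]
      simp
    rw [this]
    rw [Set.ncard_eq_three]
    exact ⟨_, _, _, h12 v, h13 v, h23 v, rfl⟩
  obtain ⟨C, hC1, -, hC3⟩ := Pool.Agent.Y408.OC.many_short_circuits H hdeg 0 Fin.elim0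
    (fun i => i.elim0) (fun i => i.elim0) (fun i => i.elim0) (fun i => i.elim0)
    (Or.inl ⟨φ, by
      intro v
      refine (Finset.sum_congr rfl (g := fun w => (if w = α v then φ s(v, w) else 0) +
          (if w = β v then φ s(v, w) else 0) +
          (if w = γ v then φ s(v, w) else 0)) (fun w _ => ?_)).trans ?_
      · by_cases c1 : w = α v
        · subst c1
          rw [if_pos (Or.inl rfl), if_pos rfl, if_neg (h12 v), if_neg (h13 v)]
          simp
        · by_cases c2 : w = β v
          · subst c2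
            rw [if_pos (Or.inr (Or.inl rfl)), if_pos rfl, if_neg c1, if_neg (h23 v)]
            simp
          · by_cases c3 : w = γ v
            · subst c3
              rw [if_pos (Or.inr (Or.inr rfl)), if_pos rfl, if_neg c1, if_neg c2]
              simp
            · rw [if_neg (fun h => by
                rcases h with h | h | h
                · exact c1 h
                · exact c2 h
                · exact c3 h), if_neg c1, if_neg c2, if_neg c3]
              simp
      rw [Finset.sum_add_distrib,
        Finset.sum_add_distrib, Finset.sum_ite_eq' univ, Finset.sum_ite_eq' univ,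
        Finset.sum_ite_eq' univ]
      simp only [mem_univ, if_true, f1, f2, f3]
      decide, by
      intro u v h _
      rcases (hH u v).1 h with h | h | h
      · rw [h, f1]; decide
      · rw [h, f2]; decide
      · rw [h, f3]; decide⟩)
  refine ⟨(List.ofFn C).flatten, ?_, ?_⟩
  · intro c hc
    obtain ⟨l, hl, hcl⟩ := List.mem_flatten.1 hc
    obtain ⟨i, rfl⟩ := List.mem_ofFn.1 hl
    exact hC1 i c hcl
  · intro u v
    have hflat : ∀ L : List (List (Σ v : V, H.Walk v v)), tot L.flatten u v =
        (L.map (fun l => tot l u v)).sum := by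
      intro L
      induction L with
      | nil => simp [tot]
      | cons a L ih => rw [List.flatten_cons, tot_append, ih, List.map_cons, List.sum_cons]
    rw [hflat, List.map_ofFn, List.sum_ofFn]
    by_cases h : H.Adj u v
    · rw [ind_pos h, ← hC3 u v h]
      rfl
    · rw [ind_neg h]
      apply Finset.sum_eq_zero
      intro i _
      show tot (C i) u v = 0
      unfold tot
      apply List.sum_eq_zero
      intro x hx
      obtain ⟨c, hc, rfl⟩ := List.mem_map.1 hx
      by_contra h'
      exact h (dc_adj c.2 (Nat.pos_of_ne_zero h'))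

end Q116.CayO
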