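import Pool.Agent.Q116.CayO

set_option autoImplicit false

/-!
Oriented cycle double covers of Cayley graphs: the Cayley graphs with three generators.
-/

namespace Q116.CayO

open Finset
open Pool.Agent.TH505.OCDC

variable {Γ : Type} [Group Γ]

lemma sum_out [Fintype Γ] (T : Finset Γ) (u : Γ) (P : Γ → Prop) :
    ∑ w, ind (u⁻¹ * w ∈ T ∧ P w) = ∑ t ∈ T, ind (P (u * t)) := by
  classical
  rw [← Equiv.sum_comp (Equiv.mulLeft u)]
  have : ∀ t, ind (u⁻¹ * (Equiv.mulLeft u t) ∈ T ∧ P (Equiv.mulLeft u t)) =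
      if t ∈ T then ind (P (u * t)) else 0 := by
    intro t
    rw [Equiv.coe_mulLeft, inv_mul_cancel_left]
    by_cases h : t ∈ T
    · rw [if_pos h]
      exact ind_congr ⟨fun h' => h'.2, fun h' => ⟨h, h'⟩⟩
    · rw [if_neg h]
      exact ind_neg (fun h' => h h'.1)
  rw [Finset.sum_congr rfl (fun t _ => this t), Finset.sum_ite_mem, univ_inter]

lemma sum_in [Fintype Γ] (T : Finset Γ) (u : Γ) (P : Γ → Prop) :
    ∑ w, ind (w⁻¹ * u ∈ T ∧ P w) = ∑ t ∈ T, ind (P (u * t⁻¹)) := by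
  classical
  rw [← Equiv.sum_comp ((Equiv.inv Γ).trans (Equiv.mulLeft u))]
  have : ∀ t, ind ((((Equiv.inv Γ).trans (Equiv.mulLeft u)) t)⁻¹ * u ∈ T ∧
      P (((Equiv.inv Γ).trans (Equiv.mulLeft u)) t)) =
      if t ∈ T then ind (P (u * t⁻¹)) else 0 := by
    intro t
    have h0 : ((Equiv.inv Γ).trans (Equiv.mulLeft u)) t = u * t⁻¹ := rfl
    rw [h0, show (u * t⁻¹)⁻¹ * u = t by group]
    by_cases h : t ∈ T
    · rw [if_pos h]
      exact ind_congr ⟨fun h' => h'.2, fun h' => ⟨h, h'⟩⟩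
    · rw [if_neg h]
      exact ind_neg (fun h' => h h'.1)
  rw [Finset.sum_congr rfl (fun t _ => this t), Finset.sum_ite_mem, univ_inter]

/-- classes of arcs of a Cayley graph; `c u t` is the class of the arc from `u` to `u * t` -/
lemma cov_cay [Fintype Γ] {ι : Type} {G : SimpleGraph Γ} (T : Finset Γ) (c : Γ → Γ → ι)
    (hadj : ∀ u, ∀ t ∈ T, G.Adj u (u * t)) (hne : ∀ u, ∀ t ∈ T, c u t ≠ c (u * t) t⁻¹)
    (hbal : ∀ i u, ∑ t ∈ T, ind (c u t = i) = ∑ t ∈ T, ind (c (u * t⁻¹) t = i)) :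
    Cov G (fun u v => u⁻¹ * v ∈ T) := by
  refine cov_classes _ (fun u v => c u (u⁻¹ * v)) ?_ ?_ ?_
  · intro u v h
    have := hadj u _ h
    rwa [mul_inv_cancel_left] at this
  · intro u v h _
    have := hne u _ h
    rwa [mul_inv_cancel_left, show (u⁻¹ * v)⁻¹ = v⁻¹ * u by group] at this
  · intro i u
    rw [sum_out T u (fun w => c u (u⁻¹ * w) = i), sum_in T u (fun w => c w (w⁻¹ * u) = i)]
    have e1 : ∀ t, u⁻¹ * (u * t) = t := fun t => by group
    have e2 : ∀ t, (u * t⁻¹)⁻¹ * u = t := fun t => by group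
    simp only [e1, e2]
    exact hbal i u

lemma sum3 {M : Type} [AddCommMonoid M] [DecidableEq Γ] {x y z : Γ} (h1 : x ≠ y) (h2 : x ≠ z)
    (h3 : y ≠ z) (f : Γ → M) : ∑ t ∈ ({x, y, z} : Finset Γ), f t = f x + f y + f z := by
  rw [Finset.sum_insert (by simp [h1, h2]), Finset.sum_pair h3, add_assoc]

section three

variable [Fintype Γ] [DecidableEq Γ] {G : SimpleGraph Γ} {a s : Γ}

lemma cov_one (ha : a⁻¹ = a) (hs : s⁻¹ ≠ s) (h : a ∉ Subgroup.zpowers (a * s))
    (hadj : ∀ u, ∀ t ∈ ({a, s, s⁻¹} : Finset Γ), G.Adj u (u * t)) :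
    Cov G (fun u v => u⁻¹ * v ∈ ({a, s, s⁻¹} : Finset Γ)) := by
  classical
  have d1 : a ≠ s := by rintro rfl; exact hs ha
  have d2 : a ≠ s⁻¹ := by
    intro h'
    apply hs
    rw [← h', ← ha, h', inv_inv]
  have d3 : s ≠ s⁻¹ := fun h' => hs h'.symm
  let K := Subgroup.zpowers (a * s)
  let c : Γ → Γ → Option (Γ ⧸ K) := fun u t =>
    if t = a then some (QuotientGroup.mk u) else
      if t = s then some (QuotientGroup.mk (u * a)) else none
  have ca : ∀ u, c u a = some (QuotientGroup.mk u) := fun u => if_pos rfl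
  have cs : ∀ u, c u s = some (QuotientGroup.mk (u * a)) := fun u =>
    (if_neg (fun h => d1 h.symm)).trans (if_pos rfl)
  have ci : ∀ u, c u s⁻¹ = none := fun u =>
    (if_neg (fun h => d2 h.symm)).trans (if_neg (fun h => d3 h.symm))
  have haa : a * a = 1 := by
    rw [← mul_inv_cancel a]; rw [ha]
  have hm : ∀ u : Γ, (QuotientGroup.mk (u * s⁻¹ * a) : Γ ⧸ K) = QuotientGroup.mk u := by
    intro u
    rw [QuotientGroup.eq]
    have : (u * s⁻¹ * a)⁻¹ * u = a * s := by
      have : (u * s⁻¹ * a)⁻¹ * u = a⁻¹ * s := by group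
      rw [this, ha]
    rw [this]
    exact Subgroup.mem_zpowers _
  have hna : ∀ u : Γ, (QuotientGroup.mk (u * a) : Γ ⧸ K) ≠ QuotientGroup.mk u := by
    intro u h'
    rw [QuotientGroup.eq] at h'
    apply h
    have : (u * a)⁻¹ * u = a := by
      have : (u * a)⁻¹ * u = a⁻¹ := by group
      rw [this, ha]
    rwa [this] at h'
  refine cov_cay _ c hadj ?_ ?_
  · intro u t ht
    simp only [mem_insert, mem_singleton] at ht
    rcases ht with rfl | rfl | rfl
    · rw [ha, ca, ca]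
      intro h'
      exact hna u (Option.some_injective _ h').symm
    · rw [cs, ci]
      exact Option.some_ne_none _
    · rw [ci, inv_inv, cs]
      exact (Option.some_ne_none _).symm
  · intro i u
    rw [sum3 d1 d2 d3, sum3 d1 d2 d3, ca, cs, ci, ca, cs, ci, ha, hm]
    ring

lemma exists_side (hc : Commute a s) (ha : a⁻¹ = a) (h : a ∉ Subgroup.zpowers s) :
    ∃ χ : Γ → Prop, (∀ u, χ (u * s) ↔ χ u) ∧ (∀ u, χ (u * a) ↔ ¬ χ u) := by
  classical
  let K := Subgroup.zpowers s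
  let f : Γ → ℕ := fun u => (Fintype.equivFin (Γ ⧸ K) (QuotientGroup.mk u)).1
  have hf : ∀ u v, f u = f v ↔ u⁻¹ * v ∈ K := by
    intro u v
    simp only [f]
    rw [← Fin.ext_iff, (Fintype.equivFin (Γ ⧸ K)).injective.eq_iff, QuotientGroup.eq]
  have haa : a * a = 1 := by
    rw [← mul_inv_cancel a]; rw [ha]
  have hs : ∀ u, f (u * s) = f u := by
    intro u
    rw [hf]
    have : (u * s)⁻¹ * u = s⁻¹ := by group
    rw [this]
    exact inv_mem (Subgroup.mem_zpowers _)
  refine ⟨fun u => f u < f (u * a), ?_, ?_⟩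
  · intro u
    show f (u * s) < f (u * s * a) ↔ f u < f (u * a)
    rw [hs, mul_assoc, ← hc.eq, ← mul_assoc, hs]
  · intro u
    show f (u * a) < f (u * a * a) ↔ ¬ f u < f (u * a)
    rw [mul_assoc, haa, mul_one]
    have : f u ≠ f (u * a) := by
      intro h'
      rw [hf, inv_mul_cancel_left] at h'
      exact h h'
    omega

lemma cov_two (hc : Commute a s) (ha : a⁻¹ = a) (hs : s⁻¹ ≠ s) (h : a ∉ Subgroup.zpowers s)
    (hadj : ∀ u, ∀ t ∈ ({a, s, s⁻¹} : Finset Γ), G.Adj u (u * t)) :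
    Cov G (fun u v => u⁻¹ * v ∈ ({a, s, s⁻¹} : Finset Γ)) := by
  classical
  obtain ⟨χ, χs, χa⟩ := exists_side hc ha h
  have d1 : a ≠ s := by rintro rfl; exact hs ha
  have d2 : a ≠ s⁻¹ := by
    intro h'
    apply hs
    rw [← h', ← ha, h', inv_inv]
  have d3 : s ≠ s⁻¹ := fun h' => hs h'.symm
  have haa : a * a = 1 := by
    rw [← mul_inv_cancel a]; rw [ha]
  have s1 : s ≠ 1 := by rintro rfl; exact hs inv_one
  have χi : ∀ u, χ (u * s⁻¹) ↔ χ u := by
    intro u
    rw [← χs (u * s⁻¹), inv_mul_cancel_right]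
  let c : Γ → Γ → Option Γ := fun u t =>
    if t = s then (if χ u then some u else none) else
      if t = s⁻¹ then (if χ u then none else some (u * s⁻¹ * a)) else
        (if χ u then some (u * s⁻¹) else some (u * a))
  have cs : ∀ u, c u s = if χ u then some u else none := fun u => if_pos rfl
  have ci : ∀ u, c u s⁻¹ = if χ u then none else some (u * s⁻¹ * a) := fun u =>
    (if_neg (fun h => d3 h.symm)).trans (if_pos rfl)
  have ca : ∀ u, c u a = if χ u then some (u * s⁻¹) else some (u * a) := fun u =>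
    (if_neg d1).trans (if_neg d2)
  have hsa : s⁻¹ * a = a * s⁻¹ := (hc.inv_right.eq).symm
  refine cov_cay _ c hadj ?_ ?_
  · intro u t ht
    simp only [mem_insert, mem_singleton] at ht
    rcases ht with rfl | rfl | rfl
    · rw [ha, ca, ca]
      by_cases hu : χ u
      · rw [if_pos hu, if_neg (by rw [χa]; exact not_not.2 hu), mul_assoc, haa, mul_one]
        intro h'
        have := Option.some_injective _ h'
        rw [mul_eq_left, inv_eq_one] at this
        exact s1 this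
      · rw [if_neg hu, if_pos (by rw [χa]; exact hu)]
        intro h'
        have := Option.some_injective _ h'
        rw [left_eq_mul, inv_eq_one] at this
        exact s1 this
    · rw [cs, ci]
      by_cases hu : χ u
      · rw [if_pos hu, if_pos ((χs u).2 hu)]
        exact Option.some_ne_none _
      · rw [if_neg hu, if_neg (fun h' => hu ((χs u).1 h'))]
        exact (Option.some_ne_none _).symm
    · rw [inv_inv, ci, cs]
      by_cases hu : χ u
      · rw [if_pos hu, if_pos ((χi u).2 hu)]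
        exact (Option.some_ne_none _).symm
      · rw [if_neg hu, if_neg (fun h' => hu ((χi u).1 h'))]
        exact Option.some_ne_none _
  · intro i u
    rw [sum3 d1 d2 d3, sum3 d1 d2 d3, ha, inv_inv]
    rw [ca, cs, ci, ca, cs, ci]
    by_cases hu : χ u
    · rw [if_pos hu, if_pos hu, if_pos hu, if_neg (by rw [χa]; exact not_not.2 hu),
        if_pos ((χi u).2 hu), if_pos ((χs u).2 hu), mul_assoc u a a, haa, mul_one]
      ring
    · rw [if_neg hu, if_neg hu, if_neg hu, if_pos (by rw [χa]; exact hu),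
        if_neg (fun h' => hu ((χi u).1 h')), if_neg (fun h' => hu ((χs u).1 h')),
        mul_inv_cancel_right, mul_assoc u s⁻¹ a, hsa, mul_assoc u a s⁻¹]
      ring

lemma exists_par (he : Even (orderOf s)) :
    ∃ p : Γ → Prop, ∀ u, p (u * s) ↔ ¬ p u := by
  classical
  let K := Subgroup.zpowers s
  have hk : ∀ u : Γ, ∃ k : ℤ, (Quotient.out (QuotientGroup.mk u : Γ ⧸ K)) * s ^ k = u := by
    intro u
    have h1 : (QuotientGroup.mk (Quotient.out (QuotientGroup.mk u : Γ ⧸ K)) : Γ ⧸ K) =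
        QuotientGroup.mk u := QuotientGroup.out_eq' _
    rw [QuotientGroup.eq] at h1
    obtain ⟨k, hk⟩ := Subgroup.mem_zpowers_iff.1 h1
    exact ⟨k, by rw [hk, mul_inv_cancel_left]⟩
  choose k hk using hk
  refine ⟨fun u => Even (k u), ?_⟩
  intro u
  have h0 : (QuotientGroup.mk (u * s) : Γ ⧸ K) = QuotientGroup.mk u := by
    rw [QuotientGroup.eq]
    have : (u * s)⁻¹ * u = s⁻¹ := by group
    rw [this]
    exact inv_mem (Subgroup.mem_zpowers _)
  have h1 := hk (u * s)
  have h2 := hk u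
  rw [h0] at h1
  have h3 : s ^ (k (u * s)) = s ^ (k u + 1) := by
    have : (Quotient.out (QuotientGroup.mk u : Γ ⧸ K)) * s ^ (k (u * s)) =
        (Quotient.out (QuotientGroup.mk u : Γ ⧸ K)) * s ^ (k u + 1) := by
      rw [h1, zpow_add_one, ← mul_assoc, h2]
    exact mul_left_cancel this
  rw [zpow_eq_zpow_iff_modEq] at h3
  have h4 : (2 : ℤ) ∣ (k u + 1) - k (u * s) := by
    obtain ⟨m, hm⟩ := he
    refine dvd_trans ?_ h3.dvd
    exact ⟨m, by rw [hm]; push_cast; ring⟩
  show Even (k (u * s)) ↔ ¬ Even (k u)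
  obtain ⟨m, hm⟩ := h4
  rw [Int.not_even_iff_odd]
  constructor
  · rintro ⟨x, hx⟩
    exact ⟨x + m - 1, by omega⟩
  · rintro ⟨x, hx⟩
    exact ⟨x + 1 - m, by omega⟩

lemma cov_three (ha : a⁻¹ = a) (ha1 : a ≠ 1) (hs : s⁻¹ ≠ s) (h : a ∈ Subgroup.zpowers s)
    (hadj : ∀ u, ∀ t ∈ ({a, s, s⁻¹} : Finset Γ), G.Adj u (u * t)) :
    Cov G (fun u v => u⁻¹ * v ∈ ({a, s, s⁻¹} : Finset Γ)) := by
  classical
  have haa : a * a = 1 := by
    rw [← mul_inv_cancel a]; rw [ha]
  have he : Even (orderOf s) := by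
    have h2 : orderOf a = 2 := by
      rw [orderOf_eq_prime_iff]
      exact ⟨by rw [pow_two, haa], ha1⟩
    have h3 : orderOf a ∣ Nat.card (Subgroup.zpowers s) := by
      have := orderOf_dvd_natCard (⟨a, h⟩ : Subgroup.zpowers s)
      rwa [← Subgroup.orderOf_coe] at this
    rw [Nat.card_zpowers, h2] at h3
    exact even_iff_two_dvd.2 h3
  obtain ⟨p, hp⟩ := exists_par he
  have hpi : ∀ u, p (u * s⁻¹) ↔ ¬ p u := by
    intro u
    have := hp (u * s⁻¹)
    rw [inv_mul_cancel_right] at this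
    tauto
  have d1 : a ≠ s := by rintro rfl; exact hs ha
  have d2 : a ≠ s⁻¹ := by
    intro h'
    apply hs
    rw [← h', ← ha, h', inv_inv]
  have d3 : s ≠ s⁻¹ := fun h' => hs h'.symm
  let β : Γ → Γ := fun u => if p u then u * s else u * s⁻¹
  let γ : Γ → Γ := fun u => if p u then u * s⁻¹ else u * s
  have hβ1 : ∀ u, p u → β u = u * s := fun u h => if_pos h
  have hβ2 : ∀ u, ¬ p u → β u = u * s⁻¹ := fun u h => if_neg h
  have hγ1 : ∀ u, p u → γ u = u * s⁻¹ := fun u h => if_pos h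
  have hγ2 : ∀ u, ¬ p u → γ u = u * s := fun u h => if_neg h
  refine (cov_color (G := G) (fun u => u * a) β γ ?_ ?_ ?_ ?_ ?_ ?_ ?_ ?_ ?_).congr ?_
  · intro u
    show u * a * a = u
    rw [mul_assoc, haa, mul_one]
  · intro u
    by_cases hu : p u
    · rw [hβ1 u hu, hβ2 _ (by rw [hp]; exact not_not.2 hu), mul_inv_cancel_right]
    · rw [hβ2 u hu, hβ1 _ (by rw [hpi]; exact hu), inv_mul_cancel_right]
  · intro u
    by_cases hu : p u
    · rw [hγ1 u hu, hγ2 _ (by rw [hpi]; exact not_not.2 hu), inv_mul_cancel_right]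
    · rw [hγ2 u hu, hγ1 _ (by rw [hp]; exact hu), mul_inv_cancel_right]
  · intro u
    exact hadj u a (by simp)
  · intro u
    by_cases hu : p u
    · rw [hβ1 u hu]; exact hadj u s (by simp)
    · rw [hβ2 u hu]; exact hadj u s⁻¹ (by simp)
  · intro u
    by_cases hu : p u
    · rw [hγ1 u hu]; exact hadj u s⁻¹ (by simp)
    · rw [hγ2 u hu]; exact hadj u s (by simp)
  · intro u
    show u * a ≠ β u
    by_cases hu : p u
    · rw [hβ1 u hu]; exact fun h => d1 (mul_left_cancel h)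
    · rw [hβ2 u hu]; exact fun h => d2 (mul_left_cancel h)
  · intro u
    show u * a ≠ γ u
    by_cases hu : p u
    · rw [hγ1 u hu]; exact fun h => d2 (mul_left_cancel h)
    · rw [hγ2 u hu]; exact fun h => d1 (mul_left_cancel h)
  · intro u
    by_cases hu : p u
    · rw [hβ1 u hu, hγ1 u hu]; exact fun h => d3 (mul_left_cancel h)
    · rw [hβ2 u hu, hγ2 u hu]; exact fun h => d3 (mul_left_cancel h).symm
  · intro u v
    simp only [mem_insert, mem_singleton]
    rw [inv_mul_eq_iff_eq_mul, inv_mul_eq_iff_eq_mul, inv_mul_eq_iff_eq_mul]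
    by_cases hu : p u
    · rw [hβ1 u hu, hγ1 u hu]
    · rw [hβ2 u hu, hγ2 u hu]
      tauto

/-- an involution and an element of order at least three -/
lemma cov_mix (ha : a⁻¹ = a) (ha1 : a ≠ 1) (hs : s⁻¹ ≠ s)
    (hadj : ∀ u, ∀ t ∈ ({a, s, s⁻¹} : Finset Γ), G.Adj u (u * t)) :
    Cov G (fun u v => u⁻¹ * v ∈ ({a, s, s⁻¹} : Finset Γ)) := by
  by_cases h1 : a ∈ Subgroup.zpowers (a * s)
  · have hc : Commute a s := by
      obtain ⟨k, hk⟩ := Subgroup.mem_zpowers_iff.1 h1
      have h2 : Commute ((a * s) ^ k) (a * s) := Commute.zpow_self (a * s) k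
      rw [hk] at h2
      have h3 := h2.eq
      rw [mul_assoc a s a] at h3
      exact mul_left_cancel h3
    by_cases h2 : a ∈ Subgroup.zpowers s
    · exact cov_three ha ha1 hs h2 hadj
    · exact cov_two hc ha hs h2 hadj
  · exact cov_one ha hs h1 hadj

end three

end Q116.CayO
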