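import Pool.Agent.Q116.CayP

set_option autoImplicit false

/-!
Oriented cycle double covers of Cayley graphs: the general case.
-/

namespace Q116.CayO

open Finset
open Pool.Agent.TH505.OCDC

section main

variable {Γ : Type} [Group Γ] [Fintype Γ] [DecidableEq Γ] {G : SimpleGraph Γ}

lemma cov_even_set {T : Finset Γ} (hT : ∀ t ∈ T, t⁻¹ ∈ T) (hc : Even T.card)
    (hadj : ∀ u, ∀ t ∈ T, G.Adj u (u * t)) : Cov G (fun u v => u⁻¹ * v ∈ T) := by
  refine cov_even _ ?_ ?_ ?_
  · intro u v h
    have := hadj u _ h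
    rwa [mul_inv_cancel_left] at this
  · intro u v h
    have := hT _ h
    rwa [show (u⁻¹ * v)⁻¹ = v⁻¹ * u by group] at this
  · intro v
    have h1 := sum_out T v (fun _ => True)
    have h2 : ∀ w, ind (v⁻¹ * w ∈ T ∧ True) = ind (v⁻¹ * w ∈ T) := fun w =>
      ind_congr (and_iff_left trivial)
    simp only [h2, ind_pos trivial] at h1
    rw [h1, Finset.sum_const, smul_eq_mul, mul_one]
    exact hc

lemma cov_all {T : Finset Γ} (hT : ∀ t ∈ T, t⁻¹ = t) {a b c : Γ} (ha : a ∈ T) (hb : b ∈ T)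
    (hc : c ∈ T) (hab : a ≠ b) (hac : a ≠ c) (hbc : b ≠ c)
    (hadj : ∀ u, ∀ t ∈ T, G.Adj u (u * t)) :
    Cov G (fun u v => u⁻¹ * v ∈ ({a, b, c} : Finset Γ)) := by
  have key : ∀ t ∈ T, ∀ u : Γ, u * t * t = u := by
    intro t ht u
    have : t * t = 1 := by
      nth_rewrite 1 [← hT t ht]
      exact inv_mul_cancel t
    rw [mul_assoc, this, mul_one]
  refine (cov_color (G := G) (fun u => u * a) (fun u => u * b) (fun u => u * c) (key a ha)
    (key b hb) (key c hc) (fun u => hadj u a ha) (fun u => hadj u b hb) (fun u => hadj u c hc)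
    (fun u h => hab (mul_left_cancel h)) (fun u h => hac (mul_left_cancel h))
    (fun u h => hbc (mul_left_cancel h))).congr ?_
  intro u v
  simp only [mem_insert, mem_singleton]
  rw [inv_mul_eq_iff_eq_mul, inv_mul_eq_iff_eq_mul, inv_mul_eq_iff_eq_mul]

lemma exists_inv {S : Finset Γ} (hS : ∀ t ∈ S, t⁻¹ ∈ S) (hodd : ¬ Even S.card) :
    ∃ a ∈ S, a⁻¹ = a := by
  by_contra hne
  push Not at hne
  apply hodd
  have h : ∑ x ∈ S, (1 : ZMod 2) = 0 := by
    refine Finset.sum_involution (fun x _ => x⁻¹) ?_ ?_ ?_ ?_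
    · intro x _
      decide
    · intro x hx _
      exact hne x hx
    · intro x hx
      exact hS x hx
    · intro x hx
      exact inv_inv x
  rw [Finset.sum_const, nsmul_eq_mul, mul_one] at h
  exact (ZMod.natCast_eq_zero_iff_even).1 h

theorem cov_cayley (S : Finset Γ) (hG : ∀ u v, G.Adj u v ↔ u⁻¹ * v ∈ S) (hc : S.card ≠ 1) :
    Cov G G.Adj := by
  have h1 : (1 : Γ) ∉ S := by
    intro h
    exact (G.loopless.irrefl 1) ((hG 1 1).2 (by simpa using h))
  have hinv : ∀ t ∈ S, t⁻¹ ∈ S := by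
    intro t ht
    have : G.Adj 1 t := (hG 1 t).2 (by simpa using ht)
    simpa using (hG t 1).1 this.symm
  have hadj : ∀ u, ∀ t ∈ S, G.Adj u (u * t) := by
    intro u t ht
    rw [hG, inv_mul_cancel_left]
    exact ht
  by_cases he : Even S.card
  · exact (cov_even_set hinv he hadj).congr hG
  obtain ⟨a, haS, ha⟩ := exists_inv hinv he
  have ha1 : a ≠ 1 := fun h => h1 (h ▸ haS)
  have glue : ∀ T : Finset Γ, T ⊆ S → T.card = 3 → (∀ t ∈ T, t⁻¹ ∈ T) →
      Cov G (fun u v => u⁻¹ * v ∈ T) → Cov G G.Adj := by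
    intro T hTS hT3 hTinv hcov
    have h2 : Cov G (fun u v => u⁻¹ * v ∈ S \ T) := by
      refine cov_even_set ?_ ?_ ?_
      · intro t ht
        rw [mem_sdiff] at ht ⊢
        refine ⟨hinv t ht.1, fun h => ht.2 ?_⟩
        have := hTinv _ h
        rwa [inv_inv] at this
      · rw [card_sdiff_of_subset hTS, hT3]
        have h3 : 3 ≤ S.card := hT3 ▸ card_le_card hTS
        rw [Nat.not_even_iff_odd] at he
        obtain ⟨k, hk⟩ := he
        exact ⟨k - 1, by omega⟩
      · intro u t ht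
        exact hadj u t (mem_sdiff.1 ht).1
    refine hcov.union h2 ?_
    intro u v
    by_cases hu : u⁻¹ * v ∈ S
    · rw [ind_pos ((hG u v).2 hu)]
      by_cases hv : u⁻¹ * v ∈ T
      · rw [ind_pos hv, ind_neg (fun h => (mem_sdiff.1 h).2 hv)]
      · rw [ind_neg hv, ind_pos (mem_sdiff.2 ⟨hu, hv⟩)]
    · rw [ind_neg (fun h => hu ((hG u v).1 h)), ind_neg (fun h => hu (hTS h)),
        ind_neg (fun h => hu (mem_sdiff.1 h).1)]
  by_cases hs : ∃ s ∈ S, s⁻¹ ≠ s
  · obtain ⟨s, hsS, hs⟩ := hs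
    have d1 : a ≠ s := by rintro rfl; exact hs ha
    have d2 : a ≠ s⁻¹ := by
      intro h'
      apply hs
      rw [← h', ← ha, h', inv_inv]
    have d3 : s ≠ s⁻¹ := fun h' => hs h'.symm
    have hsub : ({a, s, s⁻¹} : Finset Γ) ⊆ S := by
      intro x hx
      simp only [mem_insert, mem_singleton] at hx
      rcases hx with rfl | rfl | rfl
      · exact haS
      · exact hsS
      · exact hinv _ hsS
    refine glue {a, s, s⁻¹} hsub ?_ ?_ (cov_mix ha ha1 hs (fun u t ht => hadj u t (hsub ht)))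
    · rw [card_eq_three]
      exact ⟨_, _, _, d1, d2, d3, rfl⟩
    · intro t ht
      simp only [mem_insert, mem_singleton] at ht ⊢
      rcases ht with rfl | rfl | rfl
      · left; exact ha
      · right; right; rfl
      · right; left; exact inv_inv _
  · push Not at hs
    have h3 : 2 < S.card := by
      rw [Nat.not_even_iff_odd] at he
      obtain ⟨k, hk⟩ := he
      omega
    obtain ⟨x, hx, y, hy, z, hz, hxy, hxz, hyz⟩ := two_lt_card.1 h3
    have hsub : ({x, y, z} : Finset Γ) ⊆ S := by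
      intro t ht
      simp only [mem_insert, mem_singleton] at ht
      rcases ht with rfl | rfl | rfl
      · exact hx
      · exact hy
      · exact hz
    refine glue {x, y, z} hsub ?_ ?_ (cov_all hs hx hy hz hxy hxz hyz hadj)
    · rw [card_eq_three]
      exact ⟨_, _, _, hxy, hxz, hyz, rfl⟩
    · intro t ht
      rw [hs t (hsub ht)]
      exact ht

end main

/-- Graphs with a group of automorphisms which acts simply transitively on the vertices. -/
theorem main (V : Type) [Fintype V] (G : SimpleGraph V) (Γ : Type) [Group Γ] [MulAction Γ V]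
    (haut : ∀ (g : Γ) (u v : V), G.Adj u v → G.Adj (g • u) (g • v))
    (hreg : ∀ u v : V, ∃! g : Γ, g • u = v) (hdeg : ∀ v : V, (G.neighborSet v).ncard ≠ 1) :
    ∃ C : List (Σ v : V, G.Walk v v), (∀ c ∈ C, c.2.IsCycle) ∧
      ∀ u v : V, G.Adj u v → tot C u v = 1 := by
  classical
  rcases isEmpty_or_nonempty V with hV | ⟨⟨x⟩⟩
  · exact ⟨[], by simp, fun u => (hV.false u).elim⟩
  have hinj : Function.Injective (fun g : Γ => g • x) := by
    intro g h hgh
    obtain ⟨k, -, hk2⟩ := hreg x (g • x)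
    rw [hk2 g rfl, hk2 h hgh.symm]
  have hsur : Function.Surjective (fun g : Γ => g • x) := by
    intro v
    obtain ⟨k, hk, -⟩ := hreg x v
    exact ⟨k, hk⟩
  haveI : Fintype Γ := Fintype.ofInjective _ hinj
  let H : SimpleGraph Γ := G.comap (fun g : Γ => g • x)
  have hH : ∀ g h, H.Adj g h ↔ G.Adj (g • x) (h • x) := fun g h => Iff.rfl
  let S : Finset Γ := univ.filter (fun g => G.Adj x (g • x))
  have hS : ∀ g, g ∈ S ↔ G.Adj x (g • x) := fun g => by simp [S]
  have hHS : ∀ g h, H.Adj g h ↔ g⁻¹ * h ∈ S := by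
    intro g h
    rw [hH, hS, mul_smul]
    constructor
    · intro hh
      have := haut g⁻¹ _ _ hh
      rwa [inv_smul_smul] at this
    · intro hh
      have := haut g _ _ hh
      rwa [smul_inv_smul] at this
  have hcard : S.card ≠ 1 := by
    intro h
    apply hdeg x
    have : G.neighborSet x = (fun g : Γ => g • x) '' (S : Set Γ) := by
      ext v
      rw [SimpleGraph.mem_neighborSet, Set.mem_image]
      constructor
      · intro hv
        obtain ⟨g, hg⟩ := hsur v
        refine ⟨g, ?_, hg⟩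
        rw [mem_coe, hS]
        have hg' : g • x = v := hg
        rw [hg']
        exact hv
      · rintro ⟨g, hg, rfl⟩
        rw [mem_coe, hS] at hg
        exact hg
    rw [this, Set.ncard_image_of_injective _ hinj, Set.ncard_coe_finset, h]
  obtain ⟨C, hC1, hC2⟩ := cov_cayley S hHS hcard
  let f : H →g G := ⟨fun g => g • x, fun {a b} h => h⟩
  obtain ⟨D, hD1, hD2⟩ := list_map f hinj C hC1
  refine ⟨D, hD1, ?_⟩
  intro u v huv
  obtain ⟨g, rfl⟩ := hsur u
  obtain ⟨h, rfl⟩ := hsur v
  have := hD2 g h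
  rw [hC2, ind_pos ((hH g h).2 huv)] at this
  exact this

end Q116.CayO
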