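import Pool.Agent.Q116.CayQ

set_option autoImplicit false

/-!
Oriented cycle double covers of graphs with a group of automorphisms which acts freely on the arcs
and in which every vertex is fixed by an element of order `p`; lifting along covers.
-/

namespace Q116.CayO

open Finset
open Pool.Agent.TH505.OCDC

section free

variable {V : Type} [Fintype V] {G : SimpleGraph V} {Γ : Type} [Group Γ] [Fintype Γ]
  [MulAction Γ V]

lemma ind_or {p q : Prop} (h : ¬ (p ∧ q)) : ind (p ∨ q) = ind p + ind q := by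
  by_cases hp : p
  · have hq : ¬ q := fun hq => h ⟨hp, hq⟩
    rw [ind_pos (Or.inl hp), ind_pos hp, ind_neg hq]
  · by_cases hq : q
    · rw [ind_pos (Or.inr hq), ind_neg hp, ind_pos hq]
    · rw [ind_neg (fun h => h.elim hp hq), ind_neg hp, ind_neg hq]

lemma sum_fiber (T : Γ → Prop) (h : Γ → V) (hinj : ∀ g g', T g → T g' → h g = h g' → g = g') :
    ∑ u, ind (∃ g, T g ∧ h g = u) = ∑ g, ind (T g) := by
  classical
  have e1 : ∀ u, ind (∃ g, T g ∧ h g = u) = if u ∈ (univ.filter T).image h then 1 else 0 := by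
    intro u
    by_cases hu : ∃ g, T g ∧ h g = u
    · rw [ind_pos hu, if_pos]
      obtain ⟨g, hg, hu⟩ := hu
      exact mem_image.2 ⟨g, by simpa using hg, hu⟩
    · rw [ind_neg hu, if_neg]
      intro h'
      obtain ⟨g, hg, h'⟩ := mem_image.1 h'
      exact hu ⟨g, by simpa using hg, h'⟩
  have e2 : ∀ g, ind (T g) = if g ∈ univ.filter T then 1 else 0 := by
    intro g
    by_cases hu : T g
    · rw [ind_pos hu, if_pos (by simpa using hu)]
    · rw [ind_neg hu, if_neg (by simpa using hu)]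
  simp only [e1, e2, Finset.sum_ite_mem, univ_inter, Finset.sum_const, smul_eq_mul, mul_one]
  apply card_image_of_injOn
  intro g hg g' hg' hh
  exact hinj g g' (by simpa using hg) (by simpa using hg') hh

/-- the arcs of the orbit of `(v, w)` given by group elements with the property `P` -/
def Orb (v w : V) (P : Γ → Prop) (u u' : V) : Prop := ∃ g : Γ, (g • v = u ∧ P g) ∧ g • w = u'

lemma eq_of_smul {v w : V} (hfree : ∀ g : Γ, g • v = v → g • w = w → g = 1) {g g' : Γ}
    (h1 : g • v = g' • v) (h2 : g • w = g' • w) : g = g' := by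
  have := hfree (g'⁻¹ * g) (by rw [mul_smul, h1, inv_smul_smul]) (by rw [mul_smul, h2, inv_smul_smul])
  rw [inv_mul_eq_one] at this
  exact this.symm

lemma sum_Orb_out {v w : V} (hfree : ∀ g : Γ, g • v = v → g • w = w → g = 1) (P : Γ → Prop)
    (u : V) : ∑ u', ind (Orb v w P u u') = ∑ g : Γ, ind (g • v = u ∧ P g) := by
  refine sum_fiber (fun g : Γ => g • v = u ∧ P g) (fun g => g • w) ?_
  intro g g' hg hg' h
  exact eq_of_smul hfree (hg.1.trans hg'.1.symm) h

lemma sum_Orb_in {v w : V} (hfree : ∀ g : Γ, g • v = v → g • w = w → g = 1) (P : Γ → Prop)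
    (u : V) : ∑ u', ind (Orb v w P u' u) = ∑ g : Γ, ind (g • w = u ∧ P g) := by
  rw [← sum_fiber (fun g : Γ => g • w = u ∧ P g) (fun g => g • v)]
  · apply Finset.sum_congr rfl
    intro u' _
    apply ind_congr
    constructor
    · rintro ⟨g, ⟨h1, h2⟩, h3⟩
      exact ⟨g, ⟨h3, h2⟩, h1⟩
    · rintro ⟨g, ⟨h1, h2⟩, h3⟩
      exact ⟨g, ⟨h3, h2⟩, h1⟩
  · intro g g' hg hg' h
    exact eq_of_smul hfree h (hg.1.trans hg'.1.symm)

/-- an orbit of arcs which contains the reversed arcs -/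
lemma cov_orbit_self {v w : V} (hfree : ∀ g : Γ, g • v = v → g • w = w → g = 1)
    (haut : ∀ (g : Γ) (u u' : V), G.Adj u u' → G.Adj (g • u) (g • u')) (hvw : G.Adj v w)
    {r x : Γ} (hr1 : r • v = w) (hr2 : r • w = v) (hx : x • v = v) (hx1 : x ≠ 1) :
    Cov G (Orb v w (fun _ : Γ => True)) := by
  classical
  let K := Subgroup.zpowers (r * x)
  have hrK : r ∉ K := by
    intro h
    apply hx1
    have hc : Commute r x := by
      obtain ⟨k, hk⟩ := Subgroup.mem_zpowers_iff.1 h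
      have h2 : Commute ((r * x) ^ k) (r * x) := Commute.zpow_self (r * x) k
      rw [hk] at h2
      have h3 := h2.eq
      rw [mul_assoc r x r] at h3
      exact mul_left_cancel h3
    refine hfree x hx ?_
    rw [← hr1, smul_smul, ← hc.eq, mul_smul, hx]
  have hex : ∀ u u', Orb v w (fun _ : Γ => True) u u' → ∃ g : Γ, g • v = u ∧ g • w = u' := by
    rintro u u' ⟨g, h1, h2⟩
    exact ⟨g, h1.1, h2⟩
  let γ : V → V → Γ := fun u u' => if h : ∃ g : Γ, g • v = u ∧ g • w = u' then h.choose else 1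
  have hγ : ∀ g : Γ, γ (g • v) (g • w) = g := by
    intro g
    have h : ∃ g' : Γ, g' • v = g • v ∧ g' • w = g • w := ⟨g, rfl, rfl⟩
    have e : γ (g • v) (g • w) = h.choose := dif_pos h
    rw [e]
    exact eq_of_smul hfree h.choose_spec.1 h.choose_spec.2
  refine cov_classes _ (fun u u' => (QuotientGroup.mk (γ u u') : Γ ⧸ K)) ?_ ?_ ?_
  · rintro u u' h
    obtain ⟨g, rfl, rfl⟩ := hex u u' h
    exact haut g v w hvw
  · intro u u' h _
    obtain ⟨g, rfl, rfl⟩ := hex u u' h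
    have e1 : γ (g • w) (g • v) = g * r := by
      have := hγ (g * r)
      rwa [mul_smul, mul_smul, hr1, hr2] at this
    rw [hγ, e1]
    intro h'
    rw [QuotientGroup.eq, inv_mul_cancel_left] at h'
    exact hrK h'
  · intro i u
    have hiff : ∀ a b, (Orb v w (fun _ : Γ => True) a b ∧ (QuotientGroup.mk (γ a b) : Γ ⧸ K) = i) ↔
        Orb v w (fun g : Γ => (QuotientGroup.mk g : Γ ⧸ K) = i) a b := by
      intro a b
      constructor
      · rintro ⟨h1, h2⟩
        obtain ⟨g, rfl, rfl⟩ := hex a b h1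
        rw [hγ] at h2
        exact ⟨g, ⟨rfl, h2⟩, rfl⟩
      · rintro ⟨g, ⟨rfl, h2⟩, rfl⟩
        refine ⟨⟨g, ⟨rfl, trivial⟩, rfl⟩, ?_⟩
        rw [hγ]; exact h2
    simp only [ind_congr (hiff _ _)]
    rw [sum_Orb_out hfree, sum_Orb_in hfree, ← Equiv.sum_comp (Equiv.mulRight (r * x))]
    apply Finset.sum_congr rfl
    intro g _
    apply ind_congr
    have e1 : (Equiv.mulRight (r * x) g) • v = g • w := by
      rw [Equiv.coe_mulRight, mul_smul, mul_smul, hx, hr1]
    have e2 : (QuotientGroup.mk (Equiv.mulRight (r * x) g) : Γ ⧸ K) = QuotientGroup.mk g := by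
      rw [Equiv.coe_mulRight]
      exact QuotientGroup.mk_mul_of_mem g (Subgroup.mem_zpowers _)
    rw [e1, e2]

/-- an orbit of arcs together with the reversed arcs -/
lemma cov_orbit_pair {v w : V} (hfree : ∀ g : Γ, g • v = v → g • w = w → g = 1)
    (haut : ∀ (g : Γ) (u u' : V), G.Adj u u' → G.Adj (g • u) (g • u')) (hvw : G.Adj v w)
    (hno : ¬ ∃ r : Γ, r • v = w ∧ r • w = v) {x y : Γ} (hx : x • v = v) (hy : y • w = w)
    (hyK : y ∉ Subgroup.zpowers (y * x)) :
    Cov G (fun u u' => Orb v w (fun _ : Γ => True) u u' ∨ Orb v w (fun _ : Γ => True) u' u) := by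
  classical
  let K := Subgroup.zpowers (y * x)
  have hex : ∀ u u', Orb v w (fun _ : Γ => True) u u' → ∃ g : Γ, g • v = u ∧ g • w = u' := by
    rintro u u' ⟨g, h1, h2⟩
    exact ⟨g, h1.1, h2⟩
  have hexcl : ∀ g h : Γ, ¬ (h • v = g • w ∧ h • w = g • v) := by
    rintro g h ⟨h1, h2⟩
    exact hno ⟨g⁻¹ * h, by rw [mul_smul, h1, inv_smul_smul], by rw [mul_smul, h2, inv_smul_smul]⟩
  let γ : V → V → Γ := fun u u' => if h : ∃ g : Γ, g • v = u ∧ g • w = u' then h.choose else 1
  have hγ : ∀ g : Γ, γ (g • v) (g • w) = g := by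
    intro g
    have h : ∃ g' : Γ, g' • v = g • v ∧ g' • w = g • w := ⟨g, rfl, rfl⟩
    have e : γ (g • v) (g • w) = h.choose := dif_pos h
    rw [e]
    exact eq_of_smul hfree h.choose_spec.1 h.choose_spec.2
  let cls : V → V → Γ ⧸ K := fun u u' =>
    if ∃ g : Γ, g • v = u ∧ g • w = u' then QuotientGroup.mk (γ u u') else
      QuotientGroup.mk (γ u' u * y⁻¹)
  have c1 : ∀ g : Γ, cls (g • v) (g • w) = QuotientGroup.mk g := by
    intro g
    have : cls (g • v) (g • w) = QuotientGroup.mk (γ (g • v) (g • w)) := if_pos ⟨g, rfl, rfl⟩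
    rw [this, hγ]
  have c2 : ∀ g : Γ, cls (g • w) (g • v) = QuotientGroup.mk (g * y⁻¹) := by
    intro g
    have : cls (g • w) (g • v) = QuotientGroup.mk (γ (g • v) (g • w) * y⁻¹) := if_neg (by
      rintro ⟨h, h1, h2⟩
      exact hexcl g h ⟨h1, h2⟩)
    rw [this, hγ]
  have hne : ∀ g : Γ, (QuotientGroup.mk g : Γ ⧸ K) ≠ QuotientGroup.mk (g * y⁻¹) := by
    intro g h'
    rw [QuotientGroup.eq, inv_mul_cancel_left] at h'
    exact hyK (inv_mem_iff.1 h')
  refine cov_classes _ cls ?_ ?_ ?_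
  · rintro u u' (h | h)
    · obtain ⟨g, rfl, rfl⟩ := hex u u' h
      exact haut g v w hvw
    · obtain ⟨g, rfl, rfl⟩ := hex u' u h
      exact (haut g v w hvw).symm
  · rintro u u' (h | h) _
    · obtain ⟨g, rfl, rfl⟩ := hex u u' h
      rw [c1, c2]
      exact hne g
    · obtain ⟨g, rfl, rfl⟩ := hex u' u h
      rw [c1, c2]
      exact (hne g).symm
  · intro i u
    have hiff : ∀ a b, ((Orb v w (fun _ : Γ => True) a b ∨ Orb v w (fun _ : Γ => True) b a) ∧
        cls a b = i) ↔ (Orb v w (fun g : Γ => (QuotientGroup.mk g : Γ ⧸ K) = i) a b ∨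
        Orb v w (fun g : Γ => (QuotientGroup.mk (g * y⁻¹) : Γ ⧸ K) = i) b a) := by
      intro a b
      constructor
      · rintro ⟨h1 | h1, h2⟩
        · obtain ⟨g, rfl, rfl⟩ := hex a b h1
          rw [c1] at h2
          exact Or.inl ⟨g, ⟨rfl, h2⟩, rfl⟩
        · obtain ⟨g, rfl, rfl⟩ := hex b a h1
          rw [c2] at h2
          exact Or.inr ⟨g, ⟨rfl, h2⟩, rfl⟩
      · rintro (⟨g, ⟨rfl, h2⟩, rfl⟩ | ⟨g, ⟨rfl, h2⟩, rfl⟩)
        · exact ⟨Or.inl ⟨g, ⟨rfl, trivial⟩, rfl⟩, by rw [c1]; exact h2⟩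
        · exact ⟨Or.inr ⟨g, ⟨rfl, trivial⟩, rfl⟩, by rw [c2]; exact h2⟩
    have hind : ∀ a b, ind ((Orb v w (fun _ : Γ => True) a b ∨ Orb v w (fun _ : Γ => True) b a) ∧
        cls a b = i) = ind (Orb v w (fun g : Γ => (QuotientGroup.mk g : Γ ⧸ K) = i) a b) +
        ind (Orb v w (fun g : Γ => (QuotientGroup.mk (g * y⁻¹) : Γ ⧸ K) = i) b a) := by
      intro a b
      rw [ind_congr (hiff a b), ind_or]
      rintro ⟨⟨g, ⟨h1, -⟩, h2⟩, ⟨h, ⟨h3, -⟩, h4⟩⟩
      exact hexcl g h ⟨h3.trans h2.symm, h4.trans h1.symm⟩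
    simp only [hind]
    rw [Finset.sum_add_distrib, Finset.sum_add_distrib, sum_Orb_out hfree, sum_Orb_in hfree,
      sum_Orb_in hfree, sum_Orb_out hfree, add_comm]
    congr 1
    · rw [← Equiv.sum_comp (Equiv.mulRight y)]
      apply Finset.sum_congr rfl
      intro g _
      apply ind_congr
      rw [Equiv.coe_mulRight, mul_smul, hy, mul_inv_cancel_right]
    · rw [← Equiv.sum_comp (Equiv.mulRight (y * x)), ← Equiv.sum_comp (Equiv.mulRight y)
        (fun g => ind (g • v = u ∧ (QuotientGroup.mk (g * y⁻¹) : Γ ⧸ K) = i))]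
      apply Finset.sum_congr rfl
      intro g _
      apply ind_congr
      have e2 : (QuotientGroup.mk (g * (y * x)) : Γ ⧸ K) = QuotientGroup.mk g :=
        QuotientGroup.mk_mul_of_mem g (Subgroup.mem_zpowers _)
      rw [Equiv.coe_mulRight, Equiv.coe_mulRight, e2, mul_inv_cancel_right, mul_smul, mul_smul,
        hx, mul_smul]

end free

end Q116.CayO
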