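import Pool.Agent.Q116.CayR

set_option autoImplicit false

/-!
Oriented cycle double covers: groups acting freely on arcs, covers.
-/

namespace Q116.CayO

open Finset
open Pool.Agent.TH505.OCDC

/-- In a cyclic group two elements of the same prime order generate the same subgroup. -/
lemma mem_zpowers_of_cyclic {Γ : Type} [Group Γ] [Finite Γ] {p : ℕ} (hp : p.Prime) {x y z : Γ}
    (hx : orderOf x = p) (hy : orderOf y = p) (hxz : x ∈ Subgroup.zpowers z)
    (hyz : y ∈ Subgroup.zpowers z) : x ∈ Subgroup.zpowers y := by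
  classical
  let K := Subgroup.zpowers z
  haveI : Fintype K := Fintype.ofFinite K
  have hK : IsCyclic K := inferInstance
  let x' : K := ⟨x, hxz⟩
  let y' : K := ⟨y, hyz⟩
  have hx' : orderOf x' = p := by rw [← hx, ← Subgroup.orderOf_coe]
  have hy' : orderOf y' = p := by rw [← hy, ← Subgroup.orderOf_coe]
  have h1 : ((Subgroup.zpowers y' : Set K).toFinset) ⊆ univ.filter (fun a : K => a ^ p = 1) := by
    intro a ha
    rw [Set.mem_toFinset] at ha
    obtain ⟨k, rfl⟩ := Subgroup.mem_zpowers_iff.1 ha
    rw [mem_filter]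
    refine ⟨mem_univ _, ?_⟩
    rw [← zpow_natCast, ← zpow_mul, mul_comm, zpow_mul, zpow_natCast, ← hy', pow_orderOf_eq_one,
      one_zpow]
  have h2 : (univ.filter (fun a : K => a ^ p = 1)).card ≤ p := IsCyclic.card_pow_eq_one_le hp.pos
  have h3 : ((Subgroup.zpowers y' : Set K).toFinset).card = p := by
    rw [Set.toFinset_card, ← Nat.card_eq_fintype_card]
    have := Nat.card_zpowers y'
    rw [hy'] at this
    exact this
  have h4 := Finset.eq_of_subset_of_card_le h1 (by rw [h3]; exact h2)
  have h5 : x' ∈ univ.filter (fun a : K => a ^ p = 1) := by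
    rw [mem_filter]
    exact ⟨mem_univ _, by rw [← hx', pow_orderOf_eq_one]⟩
  rw [← h4, Set.mem_toFinset] at h5
  obtain ⟨k, hk⟩ := Subgroup.mem_zpowers_iff.1 h5
  refine Subgroup.mem_zpowers_iff.2 ⟨k, ?_⟩
  have := congrArg (fun a : K => (a : Γ)) hk
  simpa using this

section free

variable {V : Type} [Fintype V] {G : SimpleGraph V} {Γ : Type} [Group Γ] [Fintype Γ]
  [MulAction Γ V]

/-- all arcs of an invariant set -/
lemma cov_invariant {p : ℕ} (hp : p.Prime)
    (hfree : ∀ (g : Γ) (v w : V), G.Adj v w → g • v = v → g • w = w → g = 1)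
    (haut : ∀ (g : Γ) (u u' : V), G.Adj u u' → G.Adj (g • u) (g • u'))
    (hfix : ∀ v : V, ∃ x : Γ, orderOf x = p ∧ x • v = v) : ∀ (n : ℕ) (R : V → V → Prop),
    ∑ u, ∑ v, ind (R u v) = n → (∀ u v, R u v → G.Adj u v) → (∀ u v, R u v → R v u) →
    (∀ (g : Γ) u v, R u v → R (g • u) (g • v)) → Cov G R := by
  classical
  intro n
  induction n using Nat.strong_induction_on with
  | _ n ih =>
    intro R hcard hadj hsymm hinv
    by_cases hne : ∃ u v, R u v
    · obtain ⟨v, w, hvw⟩ := hne
      let O : V → V → Prop := fun u u' => Orb v w (fun _ : Γ => True) u u' ∨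
        Orb v w (fun _ : Γ => True) u' u
      have hO1 : O v w := Or.inl ⟨1, ⟨one_smul _ _, trivial⟩, one_smul _ _⟩
      have hOR : ∀ a b, O a b → R a b := by
        rintro a b (⟨g, ⟨rfl, -⟩, rfl⟩ | ⟨g, ⟨rfl, -⟩, rfl⟩)
        · exact hinv g _ _ hvw
        · exact hsymm _ _ (hinv g _ _ hvw)
      have hOs : ∀ a b, O a b → O b a := fun a b h => h.symm
      have hOi : ∀ (g : Γ) a b, O a b → O (g • a) (g • b) := by
        rintro g a b (⟨h, ⟨rfl, -⟩, rfl⟩ | ⟨h, ⟨rfl, -⟩, rfl⟩)
        · exact Or.inl ⟨g * h, ⟨mul_smul _ _ _, trivial⟩, mul_smul _ _ _⟩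
        · exact Or.inr ⟨g * h, ⟨mul_smul _ _ _, trivial⟩, mul_smul _ _ _⟩
      have hOc : Cov G O := by
        obtain ⟨x, hxp, hx⟩ := hfix v
        obtain ⟨y, hyp, hy⟩ := hfix w
        have hx1 : x ≠ 1 := by
          rintro rfl
          rw [orderOf_one] at hxp
          exact hp.one_lt.ne hxp
        have hA := hadj v w hvw
        by_cases hr : ∃ r : Γ, r • v = w ∧ r • w = v
        · obtain ⟨r, hr1, hr2⟩ := hr
          refine (cov_orbit_self (fun g => hfree g v w hA) haut hA hr1 hr2 hx hx1).congr ?_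
          intro a b
          constructor
          · rintro (h | ⟨g, ⟨rfl, -⟩, rfl⟩)
            · exact h
            · exact ⟨g * r, ⟨by rw [mul_smul, hr1], trivial⟩, by rw [mul_smul, hr2]⟩
          · exact Or.inl
        · refine cov_orbit_pair (fun g => hfree g v w hA) haut hA hr hx hy ?_
          intro hyK
          have hxK : x ∈ Subgroup.zpowers (y * x) := by
            have := mul_mem (inv_mem hyK) (Subgroup.mem_zpowers (y * x))
            rwa [inv_mul_cancel_left] at this
          have hxy := mem_zpowers_of_cyclic hp hxp hyp hxK hyK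
          apply hx1
          refine hfree x v w hA hx ?_
          obtain ⟨k, rfl⟩ := Subgroup.mem_zpowers_iff.1 hxy
          have : y ∈ MulAction.stabilizer Γ w := hy
          exact zpow_mem this k
      let R' : V → V → Prop := fun a b => R a b ∧ ¬ O a b
      have hR' : Cov G R' := by
        refine ih _ ?_ R' rfl (fun a b h => hadj a b h.1)
          (fun a b h => ⟨hsymm a b h.1, fun h' => h.2 (hOs _ _ h')⟩) ?_
        · rw [← hcard]
          have hle : ∀ a b, ind (R' a b) ≤ ind (R a b) := by
            intro a b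
            by_cases h : R' a b
            · rw [ind_pos h, ind_pos h.1]
            · rw [ind_neg h]; exact Nat.zero_le _
          apply Finset.sum_lt_sum
          · intro a _
            exact Finset.sum_le_sum (fun b _ => hle a b)
          · refine ⟨v, mem_univ _, Finset.sum_lt_sum (fun b _ => hle v b) ⟨w, mem_univ _, ?_⟩⟩
            rw [ind_neg (fun h : R' v w => h.2 hO1), ind_pos hvw]
            exact Nat.one_pos
        · intro g a b h
          refine ⟨hinv g a b h.1, fun h' => h.2 ?_⟩
          have := hOi g⁻¹ _ _ h'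
          rwa [inv_smul_smul, inv_smul_smul] at this
      refine hOc.union hR' ?_
      intro a b
      by_cases h : R a b
      · by_cases h' : O a b
        · rw [ind_pos h, ind_pos h', ind_neg (fun h'' : R' a b => h''.2 h')]
        · rw [ind_pos h, ind_neg h', ind_pos (p := R' a b) ⟨h, h'⟩]
      · rw [ind_neg h, ind_neg (fun h' => h (hOR a b h')), ind_neg (fun h' : R' a b => h h'.1)]
    · refine ⟨[], by simp, ?_⟩
      intro u v
      rw [tot_nil, ind_neg]
      exact fun h => hne ⟨u, v, h⟩

end free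

/-- `G` has an oriented cycle double cover -/
def HasOC {V : Type} (G : SimpleGraph V) : Prop :=
  ∃ C : List (Σ v : V, G.Walk v v), (∀ c ∈ C, c.2.IsCycle) ∧
    ∀ u v : V, G.Adj u v → tot C u v = 1

lemma Cov.has {V : Type} {G : SimpleGraph V} (h : Cov G G.Adj) : HasOC G := by
  obtain ⟨C, h1, h2⟩ := h
  exact ⟨C, h1, fun u v huv => by rw [h2, ind_pos huv]⟩

lemma finite_of_free {V : Type} [Finite V] {G : SimpleGraph V} {Γ : Type} [Group Γ]
    [MulAction Γ V] (hfree : ∀ (g : Γ) (v w : V), G.Adj v w → g • v = v → g • w = w → g = 1)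
    {v w : V} (h : G.Adj v w) : Finite Γ := by
  refine Finite.of_injective (fun g : Γ => (g • v, g • w)) ?_
  intro g g' hg
  have h1 : g • v = g' • v := congrArg Prod.fst hg
  have h2 : g • w = g' • w := congrArg Prod.snd hg
  have := hfree (g'⁻¹ * g) v w h (by rw [mul_smul, h1, inv_smul_smul])
    (by rw [mul_smul, h2, inv_smul_smul])
  rw [inv_mul_eq_one] at this
  exact this.symm

/-- every vertex is fixed by an element of order `p` -/
theorem has_of_fixed {V : Type} [Fintype V] (G : SimpleGraph V) (Γ : Type) [Group Γ]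
    [MulAction Γ V] {p : ℕ} (hp : p.Prime)
    (haut : ∀ (g : Γ) (u u' : V), G.Adj u u' → G.Adj (g • u) (g • u'))
    (hfree : ∀ (g : Γ) (v w : V), G.Adj v w → g • v = v → g • w = w → g = 1)
    (hfix : ∀ v : V, ∃ x : Γ, orderOf x = p ∧ x • v = v) : HasOC G := by
  classical
  by_cases hne : ∃ v w, G.Adj v w
  · obtain ⟨v, w, h⟩ := hne
    haveI := finite_of_free hfree h
    haveI : Fintype Γ := Fintype.ofFinite Γ
    exact (cov_invariant hp hfree haut hfix _ G.Adj rfl (fun _ _ h => h) (fun _ _ h => h.symm)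
      haut).has
  · exact ⟨[], by simp, fun u v h => absurd ⟨u, v, h⟩ hne⟩

/-- a transitive group -/
theorem has_of_transitive {V : Type} [Fintype V] (G : SimpleGraph V) (Γ : Type) [Group Γ]
    [MulAction Γ V] (haut : ∀ (g : Γ) (u u' : V), G.Adj u u' → G.Adj (g • u) (g • u'))
    (hfree : ∀ (g : Γ) (v w : V), G.Adj v w → g • v = v → g • w = w → g = 1)
    (htrans : ∀ u v : V, ∃ g : Γ, g • u = v) (hdeg : ∀ v, (G.neighborSet v).ncard ≠ 1) :
    HasOC G := by
  classical
  by_cases hne : ∃ v w, G.Adj v w
  · obtain ⟨v, w, h⟩ := hne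
    haveI := finite_of_free hfree h
    by_cases hst : ∃ x : Γ, x ≠ 1 ∧ x • v = v
    · obtain ⟨x, hx1, hx⟩ := hst
      have hn : orderOf x ≠ 1 := fun h => hx1 (orderOf_eq_one_iff.1 h)
      have hn0 : orderOf x ≠ 0 := (isOfFinOrder_of_finite x).orderOf_pos.ne'
      obtain ⟨p, hp, hpd⟩ := Nat.exists_prime_and_dvd hn
      have hz := orderOf_pow_orderOf_div hn0 hpd
      have hzv : x ^ (orderOf x / p) • v = v := by
        have : x ∈ MulAction.stabilizer Γ v := hx
        exact pow_mem this _
      refine has_of_fixed G Γ hp haut hfree ?_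
      intro u
      obtain ⟨g, rfl⟩ := htrans v u
      refine ⟨g * x ^ (orderOf x / p) * g⁻¹, ?_, ?_⟩
      · have := orderOf_injective (MulAut.conj g).toMonoidHom (MulAut.conj g).injective
          (x ^ (orderOf x / p))
        exact this.trans hz
      · rw [mul_smul, inv_smul_smul, mul_smul, hzv]
    · have htriv : ∀ (g : Γ) (u : V), g • u = u → g = 1 := by
        intro g u hg
        obtain ⟨k, rfl⟩ := htrans v u
        by_contra hg1
        apply hst
        refine ⟨k⁻¹ * g * k, ?_, by rw [mul_smul, mul_smul, hg, inv_smul_smul]⟩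
        intro h'
        apply hg1
        have : g = k * (k⁻¹ * g * k) * k⁻¹ := by group
        rw [this, h', mul_one, mul_inv_cancel]
      refine main V G Γ haut ?_ hdeg
      intro a b
      obtain ⟨g, hg⟩ := htrans a b
      refine ⟨g, hg, ?_⟩
      intro g' hg'
      have hg'' : g' • a = b := hg'
      have : (g⁻¹ * g') • a = a := by rw [mul_smul, hg'', ← hg, inv_smul_smul]
      have := htriv _ _ this
      rw [inv_mul_eq_one] at this
      exact this.symm
  · exact ⟨[], by simp, fun u v h => absurd ⟨u, v, h⟩ hne⟩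

/-- Covers. -/
theorem HasOC.cover {V W : Type} [Fintype V] [Fintype W] {G : SimpleGraph V} {B : SimpleGraph W}
    (f : V → W) (h1 : ∀ u v, G.Adj u v → B.Adj (f u) (f v))
    (h2 : ∀ u x, B.Adj (f u) x → ∃! v, G.Adj u v ∧ f v = x) (hB : HasOC B) : HasOC G := by
  classical
  obtain ⟨C, hC1, hC2⟩ := hB
  have key : ∀ C : List (Σ v : W, B.Walk v v), (∀ c ∈ C, c.2.IsCycle) →
      ∃ D : List (Σ v : V, G.Walk v v), (∀ c ∈ D, c.2.IsCycle) ∧
        ∀ u v, G.Adj u v → tot D u v = tot C (f u) (f v) := by
    intro C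
    induction C with
    | nil => intro _; exact ⟨[], by simp, fun u v _ => rfl⟩
    | cons c C ih =>
      intro hC
      obtain ⟨D, hD1, hD2⟩ := ih (fun d hd => hC d (List.mem_cons_of_mem _ hd))
      have hc := hC c List.mem_cons_self
      have hle : ∀ x y, x ≠ y → dc c.2 x y + dc c.2 y x ≤ 1 := fun x y hxy =>
        dc_le_one hc.isCircuit.isTrail hxy
      have hval : ∀ x y, dc c.2 x y = ind (0 < dc c.2 x y) := by
        intro x y
        rcases Nat.eq_zero_or_pos (dc c.2 x y) with h | h
        · rw [ind_neg (by omega), h]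
        · rw [ind_pos h]
          have := hle x y (dc_adj c.2 h).ne
          omega
      let A : V → V → Prop := fun u v => G.Adj u v ∧ 0 < dc c.2 (f u) (f v)
      have hsum1 : ∀ (F : W → Prop) (u : V), (∀ x, F x → B.Adj (f u) x) →
          ∑ v, ind (G.Adj u v ∧ F (f v)) = ∑ x, ind (F x) := by
        intro F u hF
        have e1 : ∀ v, ind (G.Adj u v ∧ F (f v)) = ∑ x, ind ((G.Adj u v ∧ f v = x) ∧ F x) := by
          intro v
          rw [Finset.sum_eq_single (f v)]
          · exact ind_congr ⟨fun h => ⟨⟨h.1, rfl⟩, h.2⟩, fun h => ⟨h.1.1, h.2⟩⟩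
          · intro x _ hx
            exact ind_neg (fun h => hx h.1.2.symm)
          · intro h; exact absurd (mem_univ _) h
        rw [Finset.sum_congr rfl (fun v _ => e1 v), Finset.sum_comm]
        apply Finset.sum_congr rfl
        intro x _
        by_cases hx : F x
        · obtain ⟨v, hv, hv'⟩ := h2 u x (hF x hx)
          rw [Finset.sum_eq_single v, ind_pos ⟨hv, hx⟩, ind_pos hx]
          · intro v' _ hne
            exact ind_neg (fun h => hne (hv' v' h.1))
          · intro h; exact absurd (mem_univ _) h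
        · rw [ind_neg hx]
          exact Finset.sum_eq_zero (fun v _ => ind_neg (fun h => hx h.2))
      obtain ⟨E, hE1, hE2⟩ := directed_decomp (G := G) _ A rfl (fun u v h => h.1) (by
        intro u v h h'
        have := hle (f u) (f v) (h1 u v h.1).ne
        have := h.2
        have := h'.2
        omega) (by
        intro u
        have e1 := hsum1 (fun x => 0 < dc c.2 (f u) x) u (fun x hx => dc_adj c.2 hx)
        have e2 := hsum1 (fun x => 0 < dc c.2 x (f u)) u (fun x hx => (dc_adj c.2 hx).symm)
        have e3 := dc_closed c.2 (f u)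
        rw [Finset.sum_congr rfl (fun x _ => hval (f u) x),
          Finset.sum_congr rfl (fun x _ => hval x (f u))] at e3
        have e4 : ∑ w, ind (A w u) = ∑ v, ind (G.Adj u v ∧ 0 < dc c.2 (f v) (f u)) := by
          apply Finset.sum_congr rfl
          intro v _
          exact ind_congr ⟨fun h => ⟨h.1.symm, h.2⟩, fun h => ⟨h.1.symm, h.2⟩⟩
        rw [e4, e2, ← e3]
        exact e1)
      refine ⟨E ++ D, ?_, ?_⟩
      · intro d hd
        rw [List.mem_append] at hd
        rcases hd with hd | hd
        · exact hE1 d hd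
        · exact hD1 d hd
      · intro u v huv
        rw [tot_append, tot_cons, hD2 u v huv, hE2, hval (f u) (f v)]
        congr 1
        exact ind_congr ⟨fun h => h.2, fun h => ⟨huv, h⟩⟩
  obtain ⟨D, hD1, hD2⟩ := key C hC1
  exact ⟨D, hD1, fun u v h => by rw [hD2 u v h]; exact hC2 _ _ (h1 u v h)⟩

end Q116.CayO
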