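import Mathlib

set_option autoImplicit false

namespace Q116.Close

open Finset

/-- `x` and `y` are close: their degrees differ by less than `k`. -/
def IsClose {n : ℕ} (G : SimpleGraph (Fin n)) (k : ℕ) (x y : Fin n) : Prop :=
  |((G.neighborSet x).ncard : ℤ) - ((G.neighborSet y).ncard : ℤ)| < k

/-- `h_k(G)`: the number of close unordered pairs `{x, y}` of distinct vertices. -/
noncomputable def h {n : ℕ} (k : ℕ) (G : SimpleGraph (Fin n)) : ℕ :=
  {p : Fin n × Fin n | p.1 < p.2 ∧ IsClose G k p.1 p.2}.ncard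

/-- `t = n - k (⌈n / k⌉ - 1)` -/
def t (n k : ℕ) : ℕ := n - k * (⌈(n : ℚ) / k⌉₊ - 1)

/-- `f₀(n, k)` -/
def f0 (n k : ℕ) : ℕ :=
  (⌈(n : ℚ) / k⌉₊ - 2) * k.choose 2 + (k + 1).choose 2 + (t n k - 1).choose 2

/-! ### the counting lemma for the two ends -/

lemma nested {V : Type} [DecidableEq V] (r : ℕ) (T : ℕ → Finset V) (hT : ∀ i, T i ⊆ T (i + 1)) :
    ∀ j, ∃ A ⊆ T j, A.card = min r (T j).card ∧ ∀ i ≤ j, min r (T i).card ≤ (A ∩ T i).card := by
  intro j
  induction j with
  | zero =>
    obtain ⟨A, hA, hc⟩ := Finset.exists_subset_card_eq (min_le_right r (T 0).card)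
    refine ⟨A, hA, hc, ?_⟩
    intro i hi
    obtain rfl : i = 0 := by omega
    rw [Finset.inter_eq_left.mpr hA, hc]
  | succ j ih =>
    obtain ⟨A, hA, hc, h⟩ := ih
    have hsub : T j ⊆ T (j + 1) := hT j
    have hle : (T j).card ≤ (T (j + 1)).card := Finset.card_le_card hsub
    obtain ⟨A', h1, h2, h3⟩ := Finset.exists_subsuperset_card_eq (hA.trans hsub)
      (n := min r (T (j + 1)).card) (by rw [hc]; exact min_le_min_left r hle) (min_le_right _ _)
    refine ⟨A', h2, h3, ?_⟩
    intro i hi
    rcases Nat.lt_or_ge j i with hji | hji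
    · obtain rfl : i = j + 1 := by omega
      rw [Finset.inter_eq_left.mpr h2, h3]
    · exact (h i hji).trans (Finset.card_le_card (Finset.inter_subset_inter h1 (le_refl _)))

lemma cover {V : Type} [Fintype V] [DecidableEq V] (d : V → ℕ) (n r : ℕ) (hr : 1 ≤ r)
    (h2r : 2 * r ≤ n) (hd : ∀ v, d v < n)
    (hAC : ∀ A C : Finset V, Disjoint A C → A.card * C.card ≤ ∑ a ∈ A, (n - 1 - d a) + ∑ c ∈ C, d c) :
    ∃ j ≤ r, (univ.filter (fun v => n ≤ d v + j)).card +
      (univ.filter (fun v => d v + j < r)).card < r := by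
  by_contra hcon
  push Not at hcon
  set T : ℕ → Finset V := fun j => univ.filter (fun v => n ≤ d v + j) with hTdef
  set B : ℕ → Finset V := fun j => univ.filter (fun v => d v + j < r) with hBdef
  have hTm : ∀ i, T i ⊆ T (i + 1) := by
    intro i v hv
    simp only [hTdef, Finset.mem_filter] at hv ⊢
    exact ⟨hv.1, by omega⟩
  have hBm : ∀ i, B (r - i) ⊆ B (r - (i + 1)) := by
    intro i v hv
    simp only [hBdef, Finset.mem_filter] at hv ⊢
    exact ⟨hv.1, by omega⟩
  obtain ⟨A, hA, hAc, hAi⟩ := nested r T hTm r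
  obtain ⟨C, hC, hCc, hCi⟩ := nested r (fun i => B (r - i)) hBm r
  have hC' : C ⊆ B 0 := by simpa using hC
  have hBr : B r = ∅ := by
    simp only [hBdef]
    rw [Finset.filter_eq_empty_iff]
    intro v _; omega
  have hT0 : T 0 = ∅ := by
    simp only [hTdef]
    rw [Finset.filter_eq_empty_iff]
    intro v _
    have := hd v; omega
  have hAr : A.card = r := by
    have h1 := hcon r le_rfl
    have h2 : (B r).card = 0 := by rw [hBr]; rfl
    have h3 : r ≤ (T r).card + (B r).card := h1
    rw [hAc]; omega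
  have hCr : C.card = r := by
    have h1 := hcon 0 (Nat.zero_le _)
    have h2 : (T 0).card = 0 := by rw [hT0]; rfl
    have h3 : r ≤ (T 0).card + (B 0).card := h1
    have h4 : C.card = min r (B 0).card := by simpa using hCc
    rw [h4]; omega
  have hdisj : Disjoint A C := by
    rw [Finset.disjoint_left]
    intro v h1 h2
    have h3 := hA h1
    have h4 := hC' h2
    simp only [hTdef, hBdef, Finset.mem_filter] at h3 h4
    omega
  have hsumA : ∑ a ∈ A, (n - 1 - d a) = ∑ i ∈ Ico 1 r, (A.filter (fun a => a ∉ T i)).card := by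
    have : ∀ a ∈ A, n - 1 - d a = ∑ i ∈ Ico 1 r, if a ∉ T i then 1 else 0 := by
      intro a ha
      have h3 := hA ha
      simp only [hTdef, Finset.mem_filter, Finset.mem_univ, true_and] at h3
      rw [← Finset.card_filter]
      have : (Ico 1 r).filter (fun i => a ∉ T i) = Ico 1 (n - d a) := by
        ext i
        simp only [hTdef, Finset.mem_filter, Finset.mem_univ, true_and, Finset.mem_Ico, not_le]
        constructor
        · rintro ⟨⟨h5, h6⟩, h7⟩; omega
        · rintro ⟨h5, h6⟩; omega
      rw [this, Nat.card_Ico]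
      omega
    rw [Finset.sum_congr rfl this, Finset.sum_comm]
    apply Finset.sum_congr rfl
    intro i _
    rw [Finset.card_filter]
  have hsumC : ∑ c ∈ C, d c = ∑ i ∈ Ico 1 r, (C.filter (fun a => a ∉ B i)).card := by
    have : ∀ c ∈ C, d c = ∑ i ∈ Ico 1 r, if c ∉ B i then 1 else 0 := by
      intro a ha
      have h3 := hC' ha
      simp only [hBdef, Finset.mem_filter, Finset.mem_univ, true_and] at h3
      rw [← Finset.card_filter]
      have : (Ico 1 r).filter (fun i => a ∉ B i) = Ico (r - d a) r := by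
        ext i
        simp only [hBdef, Finset.mem_filter, Finset.mem_univ, true_and, Finset.mem_Ico, not_lt]
        constructor
        · rintro ⟨⟨h5, h6⟩, h7⟩; omega
        · rintro ⟨h5, h6⟩; omega
      rw [this, Nat.card_Ico]
      omega
    rw [Finset.sum_congr rfl this, Finset.sum_comm]
    apply Finset.sum_congr rfl
    intro i _
    rw [Finset.card_filter]
  have hmain := hAC A C hdisj
  rw [hAr, hCr, hsumA, hsumC, ← Finset.sum_add_distrib] at hmain
  have hle : ∑ i ∈ Ico 1 r, ((A.filter (fun a => a ∉ T i)).card +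
      (C.filter (fun a => a ∉ B i)).card) ≤ ∑ i ∈ Ico 1 r, r := by
    apply Finset.sum_le_sum
    intro i hi
    rw [Finset.mem_Ico] at hi
    have e1 : (A.filter (fun a => a ∉ T i)).card + (A ∩ T i).card = r := by
      rw [← hAr, ← Finset.filter_mem_eq_inter, add_comm]
      exact Finset.card_filter_add_card_filter_not (s := A) (fun a => a ∈ T i)
    have e2 : (C.filter (fun a => a ∉ B i)).card + (C ∩ B i).card = r := by
      rw [← hCr, ← Finset.filter_mem_eq_inter, add_comm]
      exact Finset.card_filter_add_card_filter_not (s := C) (fun a => a ∈ B i)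
    have e3 := hAi i (by omega)
    have e4 := hCi (r - i) (by omega)
    have e5 : r - (r - i) = i := by omega
    simp only [e5] at e4
    have e6 : r ≤ (T i).card + (B i).card := hcon i (by omega)
    omega
  rw [Finset.sum_const, Nat.card_Ico, smul_eq_mul] at hle
  have : r * r ≤ (r - 1) * r := hmain.trans hle
  have h5 : (r - 1) * r < r * r := Nat.mul_lt_mul_of_pos_right (by omega) (by omega)
  omega

/-! ### merging two consecutive classes -/

lemma lam (p L : ℕ → ℕ) (q : ℕ) (hL : ∀ i, L i ≤ p i) (h0 : L 0 = 0) (hq : L (q + 1) = p (q + 1)) :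
    ∃ l ≤ q, p l * p (l + 1) ≤ ∑ i ∈ range (q + 1), L (i + 1) * (p i - L i) := by
  by_cases hz : ∃ l ≤ q, p l * p (l + 1) = 0
  · obtain ⟨l, hl, h⟩ := hz
    exact ⟨l, hl, by rw [h]; exact Nat.zero_le _⟩
  push Not at hz
  obtain ⟨l, hl, hmin⟩ := Finset.exists_min_image (range (q + 1)) (fun l => p l * p (l + 1))
    ⟨0, by simp⟩
  rw [Finset.mem_range] at hl
  refine ⟨l, by omega, ?_⟩
  have hpos : ∀ i ≤ q + 1, 0 < p i := by
    intro i hi
    rcases Nat.eq_zero_or_pos i with h | h
    · subst h
      have := hz 0 (by omega)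
      exact Nat.pos_of_ne_zero (fun h => this (by rw [h, zero_mul]))
    · have := hz (i - 1) (by omega)
      rw [show i - 1 + 1 = i by omega] at this
      exact Nat.pos_of_ne_zero (fun h => this (by rw [h, mul_zero]))
  let lm : ℕ → ℚ := fun i => (L i : ℚ) / p i
  have hlm0 : ∀ i, 0 ≤ lm i := fun i => by positivity
  have hlm1 : ∀ i ≤ q + 1, lm i ≤ 1 := by
    intro i hi
    have : (0 : ℚ) < p i := by exact_mod_cast hpos i hi
    rw [div_le_one this]
    exact_mod_cast hL i
  have hind : ∀ m ≤ q, lm (m + 1) ≤ ∑ i ∈ range (m + 1), lm (i + 1) * (1 - lm i) := by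
    intro m
    induction m with
    | zero =>
      intro _
      have : lm 0 = 0 := by simp [lm, h0]
      simp [this]
    | succ m ih =>
      intro hm
      rw [Finset.sum_range_succ]
      have h1 := ih (by omega)
      have h2 := hlm1 (m + 1 + 1) (by omega)
      have h3 := hlm0 (m + 1)
      nlinarith
  have hone : lm (q + 1) = 1 := by
    have : (p (q + 1) : ℚ) ≠ 0 := by
      have := hpos (q + 1) le_rfl
      positivity
    simp only [lm, hq]
    exact div_self this
  have h1 := hind q le_rfl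
  rw [hone] at h1
  have h2 : ((p l * p (l + 1) : ℕ) : ℚ) ≤ ∑ i ∈ range (q + 1), ((L (i + 1) * (p i - L i) : ℕ) : ℚ) := by
    calc ((p l * p (l + 1) : ℕ) : ℚ) ≤ (p l * p (l + 1) : ℕ) *
          ∑ i ∈ range (q + 1), lm (i + 1) * (1 - lm i) := by
          apply le_mul_of_one_le_right (Nat.cast_nonneg _) h1
      _ = ∑ i ∈ range (q + 1), ((p l * p (l + 1) : ℕ) : ℚ) * (lm (i + 1) * (1 - lm i)) := by
          rw [Finset.mul_sum]
      _ ≤ ∑ i ∈ range (q + 1), ((L (i + 1) * (p i - L i) : ℕ) : ℚ) := by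
          apply Finset.sum_le_sum
          intro i hi
          have hi' := Finset.mem_range.mp hi
          have h3 : ((p l * p (l + 1) : ℕ) : ℚ) ≤ ((p i * p (i + 1) : ℕ) : ℚ) := by
            exact_mod_cast hmin i hi
          have h4 : 0 ≤ lm (i + 1) * (1 - lm i) :=
            mul_nonneg (hlm0 _) (by have := hlm1 i (by omega); linarith)
          refine (mul_le_mul_of_nonneg_right h3 h4).trans (le_of_eq ?_)
          have h5 : (p i : ℚ) ≠ 0 := by have := hpos i (by omega); positivity
          have h6 : (p (i + 1) : ℚ) ≠ 0 := by have := hpos (i + 1) (by omega); positivity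
          simp only [lm]
          rw [Nat.cast_mul, Nat.cast_mul, Nat.cast_sub (hL i)]
          field_simp
  exact_mod_cast h2

/-- the convexity estimate -/
lemma convex (p : ℕ → ℕ) (q k r l e s : ℕ) (hq : 1 ≤ q) (hrk : r ≤ k) (hl : l ≤ q)
    (he : e ≤ q + 1) (hel : e ≠ l) (hel' : e ≠ l + 1) (hs : p e = s) (hsr : s < r)
    (hsum : ∑ i ∈ range (q + 2), p i = q * k + r) :
    ((q : ℤ) * (k * (k - 1)) + 2 * k + (r - 1) * (r - 2)) ≤
      ∑ i ∈ range (q + 2), (p i : ℤ) * (p i - 1) + 2 * (p l * p (l + 1)) := by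
  have hsumZ : ∑ i ∈ range (q + 2), (p i : ℤ) = q * k + r := by exact_mod_cast hsum
  set F : ℕ → ℤ := fun i => (p i : ℤ) * (p i - 1) - 2 * k * p i with hF
  have key : ∀ x : ℤ, -(k * (k + 1) : ℤ) ≤ x * (x - 1) - 2 * k * x := by
    intro x
    have : 0 ≤ (x - k) * (x - k - 1) := by
      rcases le_or_gt x (k : ℤ) with h | h
      · nlinarith
      · have : (k : ℤ) + 1 ≤ x := by omega
        nlinarith
    nlinarith
  have hFsum : ∑ i ∈ range (q + 2), F i =
      ∑ i ∈ range (q + 2), (p i : ℤ) * (p i - 1) - 2 * k * (q * k + r) := by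
    rw [hF, Finset.sum_sub_distrib, ← Finset.mul_sum, hsumZ]
  have hm1 : l ∈ range (q + 2) := by rw [Finset.mem_range]; omega
  have hm2 : l + 1 ∈ (range (q + 2)).erase l := by
    rw [Finset.mem_erase, Finset.mem_range]; omega
  have hm3 : e ∈ ((range (q + 2)).erase l).erase (l + 1) := by
    rw [Finset.mem_erase, Finset.mem_erase, Finset.mem_range]; omega
  have hdec : ∑ i ∈ range (q + 2), F i = F l + (F (l + 1) + (F e +
      ∑ i ∈ (((range (q + 2)).erase l).erase (l + 1)).erase e, F i)) := by
    rw [Finset.add_sum_erase _ _ hm3, Finset.add_sum_erase _ _ hm2, Finset.add_sum_erase _ _ hm1]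
  have hcard : (((((range (q + 2)).erase l).erase (l + 1)).erase e).card : ℤ) = q - 1 := by
    rw [Finset.card_erase_of_mem hm3, Finset.card_erase_of_mem hm2, Finset.card_erase_of_mem hm1,
      Finset.card_range]
    omega
  have hrest : -((q - 1 : ℤ) * (k * (k + 1))) ≤
      ∑ i ∈ (((range (q + 2)).erase l).erase (l + 1)).erase e, F i := by
    have : ∑ i ∈ (((range (q + 2)).erase l).erase (l + 1)).erase e, (-(k * (k + 1) : ℤ)) ≤
        ∑ i ∈ (((range (q + 2)).erase l).erase (l + 1)).erase e, F i :=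
      Finset.sum_le_sum (fun i _ => key (p i))
    rw [Finset.sum_const, nsmul_eq_mul, hcard] at this
    linarith
  have hpair : -(k * (k + 1) : ℤ) ≤ F l + F (l + 1) + 2 * (p l * p (l + 1)) := by
    have := key ((p l : ℤ) + p (l + 1))
    simp only [hF]
    nlinarith
  have hFe : F e = (s : ℤ) * (s - 1) - 2 * k * s := by simp only [hF, hs]
  have htot : ∑ i ∈ range (q + 2), (p i : ℤ) * (p i - 1) =
      2 * k * (q * k + r) + (F l + (F (l + 1) + (F e +
      ∑ i ∈ (((range (q + 2)).erase l).erase (l + 1)).erase e, F i))) := by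
    rw [← hdec, hFsum]; ring
  rw [htot, hFe]
  have hfin : ((r : ℤ) - 1) * (r - 2) + 2 * k ≤ 2 * k * (r - s) + s * (s - 1) := by
    have h1 : (s : ℤ) + 1 ≤ r := by omega
    have h2 : (r : ℤ) ≤ k := by omega
    have h3 : (0 : ℤ) ≤ s := by omega
    have h4 : 0 ≤ ((r : ℤ) - 1 - s) * (2 * k - (r + s - 2)) := by
      apply mul_nonneg <;> linarith
    nlinarith
  nlinarith

/-! ### the classes -/

section classes
variable {V : Type} [Fintype V] [DecidableEq V]

/-- ordered close pairs -/
def cp (d : V → ℕ) (k : ℕ) : Finset (V × V) :=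
  univ.filter (fun p => p.1 ≠ p.2 ∧ |(d p.1 : ℤ) - d p.2| < k)

lemma card_cp_ge (d : V → ℕ) (k e j q : ℕ) (hk : 1 ≤ k) (hcls : ∀ v, (d v + e) / k < q + 2) :
    ∑ i ∈ range (q + 2), ((univ.filter (fun v => (d v + e) / k = i)).card *
        ((univ.filter (fun v => (d v + e) / k = i)).card - 1)) +
      2 * ∑ i ∈ range (q + 1),
        (univ.filter (fun v => (d v + e) / k = i + 1 ∧ (d v + e) % k < j)).card *
        (univ.filter (fun v => (d v + e) / k = i ∧ ¬ (d v + e) % k < j)).card ≤ (cp d k).card := by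
  set S1 := (univ : Finset (V × V)).filter (fun p => p.1 ≠ p.2 ∧ (d p.1 + e) / k = (d p.2 + e) / k)
    with hS1
  set S2 := (univ : Finset (V × V)).filter (fun p => (d p.1 + e) / k = (d p.2 + e) / k + 1 ∧
    (d p.1 + e) % k < j ∧ ¬ (d p.2 + e) % k < j) with hS2
  set S3 := (univ : Finset (V × V)).filter (fun p => (d p.2 + e) / k = (d p.1 + e) / k + 1 ∧
    (d p.2 + e) % k < j ∧ ¬ (d p.1 + e) % k < j) with hS3
  have hdm : ∀ v, k * ((d v + e) / k) + (d v + e) % k = d v + e := fun v => Nat.div_add_mod _ _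
  have hml : ∀ v, (d v + e) % k < k := fun v => Nat.mod_lt _ (by omega)
  have hsub : S1 ∪ (S2 ∪ S3) ⊆ cp d k := by
    rintro ⟨x, y⟩ hp
    unfold cp
    rw [Finset.mem_filter]
    refine ⟨Finset.mem_univ _, ?_⟩
    show x ≠ y ∧ |(d x : ℤ) - d y| < k
    have hx := hdm x
    have hy := hdm y
    have hx' := hml x
    have hy' := hml y
    rw [Finset.mem_union, Finset.mem_union, hS1, hS2, hS3] at hp
    simp only [Finset.mem_filter, Finset.mem_univ, true_and] at hp
    rw [abs_lt]
    rcases hp with ⟨h1, h2⟩ | ⟨h1, h2, h3⟩ | ⟨h1, h2, h3⟩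
    · rw [h2] at hx
      exact ⟨h1, by omega, by omega⟩
    · rw [h1, mul_add] at hx
      refine ⟨?_, by push_cast; omega, by push_cast; omega⟩
      rintro rfl
      omega
    · rw [h1, mul_add] at hy
      refine ⟨?_, by push_cast; omega, by push_cast; omega⟩
      rintro rfl
      omega
  have hd12 : Disjoint S1 (S2 ∪ S3) := by
    rw [Finset.disjoint_left]
    rintro ⟨x, y⟩ h1 h2
    rw [Finset.mem_union] at h2
    simp only [hS1, hS2, hS3, Finset.mem_filter, Finset.mem_univ, true_and] at h1 h2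
    omega
  have hd23 : Disjoint S2 S3 := by
    rw [Finset.disjoint_left]
    rintro ⟨x, y⟩ h1 h2
    simp only [hS2, hS3, Finset.mem_filter, Finset.mem_univ, true_and] at h1 h2
    omega
  have hc1 : S1.card = ∑ i ∈ range (q + 2), ((univ.filter (fun v => (d v + e) / k = i)).card *
        ((univ.filter (fun v => (d v + e) / k = i)).card - 1)) := by
    rw [Finset.card_eq_sum_card_fiberwise (f := fun p : V × V => (d p.1 + e) / k)
      (t := range (q + 2)) (fun p _ => by rw [Finset.mem_coe, Finset.mem_range]; exact hcls _)]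
    apply Finset.sum_congr rfl
    intro i _
    have : S1.filter (fun p => (d p.1 + e) / k = i) =
        (univ.filter (fun v => (d v + e) / k = i)).offDiag := by
      ext ⟨x, y⟩
      simp only [hS1, Finset.mem_filter, Finset.mem_univ, true_and, Finset.mem_offDiag]
      constructor
      · rintro ⟨⟨h1, h2⟩, h3⟩
        exact ⟨h3, by rw [← h2]; exact h3, h1⟩
      · rintro ⟨h1, h2, h3⟩
        exact ⟨⟨h3, by rw [h1, h2]⟩, h1⟩
    rw [this, Finset.offDiag_card, Nat.mul_sub_one]
  have hc2 : S2.card = ∑ i ∈ range (q + 1),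
        (univ.filter (fun v => (d v + e) / k = i + 1 ∧ (d v + e) % k < j)).card *
        (univ.filter (fun v => (d v + e) / k = i ∧ ¬ (d v + e) % k < j)).card := by
    rw [Finset.card_eq_sum_card_fiberwise (f := fun p : V × V => (d p.2 + e) / k)
      (t := range (q + 1)) (fun p hp => by
        rw [Finset.mem_coe, hS2, Finset.mem_filter] at hp
        rw [Finset.mem_coe, Finset.mem_range]
        have := hcls p.1
        show (d p.2 + e) / k < q + 1
        omega)]
    apply Finset.sum_congr rfl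
    intro i _
    rw [← Finset.card_product]
    congr 1
    ext ⟨x, y⟩
    simp only [hS2, Finset.mem_filter, Finset.mem_univ, true_and, Finset.mem_product]
    constructor
    · rintro ⟨⟨h1, h2, h3⟩, h4⟩
      exact ⟨⟨by rw [h1, h4], h2⟩, h4, h3⟩
    · rintro ⟨⟨h1, h2⟩, h3, h4⟩
      exact ⟨⟨by rw [h1, h3], h2, h4⟩, h3⟩
  have hc3 : S3.card = S2.card := by
    apply Finset.card_bij (fun p _ => (p.2, p.1))
    · rintro ⟨x, y⟩ h
      simp only [hS2, hS3, Finset.mem_filter, Finset.mem_univ, true_and] at h ⊢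
      exact h
    · rintro ⟨x, y⟩ _ ⟨x', y'⟩ _ h
      simp only [Prod.mk.injEq] at h ⊢
      exact ⟨h.2, h.1⟩
    · rintro ⟨x, y⟩ h
      refine ⟨(y, x), ?_, rfl⟩
      simp only [hS2, hS3, Finset.mem_filter, Finset.mem_univ, true_and] at h ⊢
      exact h
  have := Finset.card_le_card hsub
  rw [Finset.card_union_of_disjoint hd12, Finset.card_union_of_disjoint hd23, hc3, hc1, hc2] at this
  omega

/-- the abstract theorem -/
theorem abstract_bound (d : V → ℕ) (n k q r : ℕ) (hk : 1 ≤ k) (hq : 1 ≤ q) (hr : 1 ≤ r)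
    (hrk : r ≤ k) (hn : n = q * k + r) (hV : Fintype.card V = n) (hd : ∀ v, d v < n)
    (hAC : ∀ A C : Finset V, Disjoint A C → A.card * C.card ≤ ∑ a ∈ A, (n - 1 - d a) + ∑ c ∈ C, d c) :
    ((q : ℤ) * (k * (k - 1)) + 2 * k + (r - 1) * (r - 2)) ≤ (cp d k).card := by
  have hqk : k ≤ q * k := Nat.le_mul_of_pos_left k hq
  obtain ⟨j, hj, hcov⟩ := cover d n r hr (by omega) hd hAC
  set e := k + j - r with he
  have hek : e + r = k + j := by omega
  set p : ℕ → ℕ := fun i => (univ.filter (fun v => (d v + e) / k = i)).card with hp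
  set L : ℕ → ℕ := fun i => (univ.filter (fun v => (d v + e) / k = i ∧ (d v + e) % k < j)).card
    with hL
  have hcls : ∀ v, (d v + e) / k < q + 2 := by
    intro v
    rw [Nat.div_lt_iff_lt_mul (by omega)]
    have := hd v
    nlinarith
  have hb := card_cp_ge d k e j q hk hcls
  have hLp : ∀ i, L i ≤ p i := by
    intro i
    apply Finset.card_le_card
    intro v hv
    rw [Finset.mem_filter] at hv ⊢
    exact ⟨hv.1, hv.2.1⟩
  have hU : ∀ i, (univ.filter (fun v => (d v + e) / k = i ∧ ¬ (d v + e) % k < j)).card =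
      p i - L i := by
    intro i
    have := Finset.card_filter_add_card_filter_not (s := univ.filter (fun v => (d v + e) / k = i))
      (fun v => (d v + e) % k < j)
    rw [Finset.filter_filter, Finset.filter_filter] at this
    simp only [hp, hL]
    omega
  have hL0 : L 0 = 0 := by
    simp only [hL]
    rw [Finset.card_eq_zero, Finset.filter_eq_empty_iff]
    rintro v - ⟨h1, h2⟩
    have h3 : d v + e < k := by
      rw [Nat.div_eq_zero_iff] at h1
      omega
    rw [Nat.mod_eq_of_lt h3] at h2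
    omega
  have hLq : L (q + 1) = p (q + 1) := by
    simp only [hp, hL]
    congr 1
    ext v
    simp only [Finset.mem_filter, Finset.mem_univ, true_and, and_iff_left_iff_imp]
    intro h1
    have h2 := Nat.div_add_mod (d v + e) k
    rw [h1] at h2
    have h3 := hd v
    nlinarith
  obtain ⟨l, hl, hlam⟩ := lam p L q hLp hL0 hLq
  have hb' : ∑ i ∈ range (q + 2), (p i * (p i - 1)) + 2 * (p l * p (l + 1)) ≤ (cp d k).card := by
    refine le_trans ?_ hb
    simp only [hU]
    exact Nat.add_le_add_left (Nat.mul_le_mul_left 2 hlam) _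
  have hsum : ∑ i ∈ range (q + 2), p i = q * k + r := by
    rw [← hn, ← hV, ← Finset.card_univ,
      Finset.card_eq_sum_card_fiberwise (f := fun v : V => (d v + e) / k)
      (t := range (q + 2)) (fun v _ => by rw [Finset.mem_coe, Finset.mem_range]; exact hcls _)]
  have hp0 : p 0 < r := by
    have : p 0 = (univ.filter (fun v => d v + j < r)).card := by
      simp only [hp]
      congr 1
      ext v
      simp only [Finset.mem_filter, Finset.mem_univ, true_and, Nat.div_eq_zero_iff]
      omega
    omega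
  have hpq : p (q + 1) < r := by
    have : p (q + 1) = (univ.filter (fun v => n ≤ d v + j)).card := by
      simp only [hp]
      congr 1
      ext v
      simp only [Finset.mem_filter, Finset.mem_univ, true_and]
      have h3 := hcls v
      constructor
      · intro h1
        have h2 := Nat.div_add_mod (d v + e) k
        rw [h1] at h2
        have h4 : k * (q + 1) = q * k + k := by ring
        omega
      · intro h1
        have : q + 1 ≤ (d v + e) / k := by
          rw [Nat.le_div_iff_mul_le (by omega)]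
          nlinarith
        omega
    omega
  have hZ : (∑ i ∈ range (q + 2), (p i : ℤ) * (p i - 1)) + 2 * (p l * p (l + 1)) ≤
      ((cp d k).card : ℤ) := by
    have h1 : ((∑ i ∈ range (q + 2), (p i * (p i - 1)) + 2 * (p l * p (l + 1)) : ℕ) : ℤ) ≤
      ((cp d k).card : ℤ) := by exact_mod_cast hb'
    refine le_trans (le_of_eq ?_) h1
    push_cast
    congr 1
    apply Finset.sum_congr rfl
    intro i _
    rcases Nat.eq_zero_or_pos (p i) with h | h
    · rw [h]; simp
    · rw [Nat.cast_sub h]; simp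
  refine le_trans ?_ hZ
  by_cases hl0 : l = 0
  · subst hl0
    exact convex p q k r 0 (q + 1) (p (q + 1)) hq hrk (by omega) le_rfl (by omega) (by omega) rfl
      hpq hsum
  · exact convex p q k r l 0 (p 0) hq hrk hl (by omega) (by omega) (by omega) rfl hp0 hsum

end classes

/-! ### graphs -/

section graph
variable {n : ℕ} (G : SimpleGraph (Fin n))

/-- the degree -/
noncomputable def dg (v : Fin n) : ℕ := (G.neighborSet v).ncard

lemma dg_lt (v : Fin n) : dg G v < n := by
  unfold dg
  have h1 : (G.neighborSet v).ncard < (Set.univ : Set (Fin n)).ncard := by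
    apply Set.ncard_lt_ncard _ (Set.toFinite _)
    rw [Set.ssubset_univ_iff]
    intro h
    have : v ∈ G.neighborSet v := by rw [h]; trivial
    exact G.loopless.irrefl v this
  rwa [Set.ncard_univ, Nat.card_eq_fintype_card, Fintype.card_fin] at h1

lemma dg_AC (A C : Finset (Fin n)) (h : Disjoint A C) :
    A.card * C.card ≤ ∑ a ∈ A, (n - 1 - dg G a) + ∑ c ∈ C, dg G c := by
  classical
  have h1 : A.card * C.card = ∑ a ∈ A, (C.filter (fun c => ¬ G.Adj a c)).card +
      ∑ c ∈ C, (A.filter (fun a => G.Adj a c)).card := by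
    have e1 : ∑ c ∈ C, (A.filter (fun a => G.Adj a c)).card =
        ∑ a ∈ A, (C.filter (fun c => G.Adj a c)).card := by
      simp only [Finset.card_filter]
      exact Finset.sum_comm
    rw [e1, ← Finset.sum_add_distrib, Finset.sum_const_nat (m := C.card)]
    intro a _
    rw [add_comm]
    exact Finset.card_filter_add_card_filter_not (s := C) (fun c => G.Adj a c)
  rw [h1]
  apply Nat.add_le_add
  · apply Finset.sum_le_sum
    intro a ha
    have h2 : ((C.filter (fun c => ¬ G.Adj a c)) ∪ (insert a (univ.filter (fun c => G.Adj a c)))).card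
        ≤ n := by
      have := Finset.card_le_univ
        ((C.filter (fun c => ¬ G.Adj a c)) ∪ (insert a (univ.filter (fun c => G.Adj a c))))
      rwa [Fintype.card_fin] at this
    rw [Finset.card_union_of_disjoint, Finset.card_insert_of_notMem (by simp)] at h2
    · have h3 : (univ.filter (fun c => G.Adj a c)).card = dg G a := by
        unfold dg
        rw [Set.ncard_eq_toFinset_card']
        congr 1
        ext x; simp
      omega
    · rw [Finset.disjoint_left]
      intro x hx hx'
      rw [Finset.mem_filter] at hx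
      rw [Finset.mem_insert, Finset.mem_filter] at hx'
      rcases hx' with rfl | hx'
      · exact (Finset.disjoint_left.mp h) ha hx.1
      · exact hx.2 hx'.2
  · apply Finset.sum_le_sum
    intro c _
    unfold dg
    rw [Set.ncard_eq_toFinset_card']
    apply Finset.card_le_card
    intro a ha
    rw [Finset.mem_filter] at ha
    simp only [Set.mem_toFinset, SimpleGraph.mem_neighborSet]
    exact ha.2.symm

lemma two_h (k : ℕ) : (cp (dg G) k).card = 2 * h k G := by
  classical
  set S := (univ : Finset (Fin n × Fin n)).filter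
    (fun p => p.1 < p.2 ∧ |(dg G p.1 : ℤ) - dg G p.2| < k) with hS
  set S' := (univ : Finset (Fin n × Fin n)).filter
    (fun p => p.2 < p.1 ∧ |(dg G p.1 : ℤ) - dg G p.2| < k) with hS'
  have h1 : h k G = S.card := by
    unfold h
    rw [Set.ncard_eq_toFinset_card', hS]
    congr 1
    ext p
    simp only [Set.mem_toFinset, Set.mem_setOf_eq, Finset.mem_filter, Finset.mem_univ, true_and]
    rfl
  have h2 : S'.card = S.card := by
    apply Finset.card_bij (fun p _ => (p.2, p.1))
    · rintro ⟨x, y⟩ hxy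
      simp only [hS, hS', Finset.mem_filter, Finset.mem_univ, true_and] at hxy ⊢
      exact ⟨hxy.1, by rw [abs_sub_comm]; exact hxy.2⟩
    · rintro ⟨x, y⟩ _ ⟨x', y'⟩ _ hh
      simp only [Prod.mk.injEq] at hh ⊢
      exact ⟨hh.2, hh.1⟩
    · rintro ⟨x, y⟩ hxy
      refine ⟨(y, x), ?_, rfl⟩
      simp only [hS, hS', Finset.mem_filter, Finset.mem_univ, true_and] at hxy ⊢
      exact ⟨hxy.1, by rw [abs_sub_comm]; exact hxy.2⟩
  have h3 : cp (dg G) k = S ∪ S' := by
    ext ⟨x, y⟩
    simp only [cp, hS, hS', Finset.mem_union, Finset.mem_filter, Finset.mem_univ, true_and]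
    constructor
    · rintro ⟨hne, hc⟩
      rcases lt_or_gt_of_ne hne with hlt | hgt
      · exact Or.inl ⟨hlt, hc⟩
      · exact Or.inr ⟨hgt, hc⟩
    · rintro (⟨hlt, hc⟩ | ⟨hgt, hc⟩)
      · exact ⟨ne_of_lt hlt, hc⟩
      · exact ⟨(ne_of_lt hgt).symm, hc⟩
  rw [h3, Finset.card_union_of_disjoint, h2, h1]
  · ring
  · rw [Finset.disjoint_left]
    intro p hp hp'
    rw [hS, Finset.mem_filter] at hp
    rw [hS', Finset.mem_filter] at hp'
    exact absurd (hp.2.1.trans hp'.2.1) (lt_irrefl _)

end graph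

lemma ceil_data (n k : ℕ) (hk : 1 ≤ k) (hn : k < n) : 2 ≤ ⌈(n : ℚ) / k⌉₊ ∧
    n = (⌈(n : ℚ) / k⌉₊ - 1) * k + t n k ∧ 1 ≤ t n k ∧ t n k ≤ k := by
  have hk' : (0 : ℚ) < k := by exact_mod_cast hk
  set c := ⌈(n : ℚ) / k⌉₊ with hc
  have h1 : (n : ℚ) / k ≤ c := Nat.le_ceil _
  have h2 : (n : ℕ) ≤ c * k := by
    rw [div_le_iff₀ hk'] at h1
    exact_mod_cast h1
  have h3 : 2 ≤ c := by
    by_contra hlt
    have : c ≤ 1 := by omega
    have : c * k ≤ 1 * k := Nat.mul_le_mul_right k this
    omega
  have h4 : (c - 1) * k < n := by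
    have h5 : ((c - 1 : ℕ) : ℚ) < (n : ℚ) / k := by
      apply Nat.lt_ceil.mp
      omega
    rw [lt_div_iff₀ hk'] at h5
    exact_mod_cast h5
  have h6 : (c - 1) * k + k = c * k := by
    rw [← Nat.succ_mul]; congr 1; omega
  have h7 : k * (c - 1) = (c - 1) * k := by ring
  unfold t
  rw [← hc, h7]
  refine ⟨h3, by omega, by omega, by omega⟩

/-- the answer to Q1 -/
theorem main (n k : ℕ) (hk : 1 ≤ k) (hn : k < n) (G : SimpleGraph (Fin n)) : f0 n k ≤ h k G := by
  obtain ⟨h1, h2, h3, h4⟩ := ceil_data n k hk hn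
  set c := ⌈(n : ℚ) / k⌉₊ with hc
  have key := abstract_bound (dg G) n k (c - 1) (t n k) hk (by omega) h3 h4 h2
    (Fintype.card_fin n) (dg_lt G) (dg_AC G)
  rw [two_h G k] at key
  unfold f0
  rw [← hc]
  obtain ⟨c', hc'⟩ := Nat.exists_eq_add_of_le h1
  obtain ⟨r', hr'⟩ := Nat.exists_eq_add_of_le h3
  obtain ⟨k', hk'⟩ := Nat.exists_eq_add_of_le hk
  rw [hc', hr'] at key ⊢
  rw [show 2 + c' - 2 = c' by omega, show 1 + r' - 1 = r' by omega]
  rw [show 2 + c' - 1 = c' + 1 by omega] at key
  have e1 : 2 * k.choose 2 = k * (k - 1) := by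
    rw [Nat.choose_two_right, Nat.mul_div_cancel' (Nat.even_mul_pred_self k).two_dvd]
  have e2 : 2 * (k + 1).choose 2 = (k + 1) * k := by
    rw [Nat.choose_two_right, Nat.mul_div_cancel' (Nat.even_mul_pred_self (k + 1)).two_dvd]
    rfl
  have e3 : 2 * r'.choose 2 = r' * (r' - 1) := by
    rw [Nat.choose_two_right, Nat.mul_div_cancel' (Nat.even_mul_pred_self r').two_dvd]
  have e1' : (2 * k.choose 2 : ℤ) = k * (k - 1) := by
    have : ((2 * k.choose 2 : ℕ) : ℤ) = ((k * (k - 1) : ℕ) : ℤ) := by rw [e1]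
    push_cast at this
    rw [this, Nat.cast_sub hk]; simp
  have e2' : (2 * (k + 1).choose 2 : ℤ) = (k + 1) * k := by exact_mod_cast e2
  have e3' : (2 * r'.choose 2 : ℤ) = r' * (r' - 1) := by
    have : ((2 * r'.choose 2 : ℕ) : ℤ) = ((r' * (r' - 1) : ℕ) : ℤ) := by rw [e3]
    push_cast at this
    rw [this]
    rcases Nat.eq_zero_or_pos r' with h | h
    · rw [h]; simp
    · rw [Nat.cast_sub h]; simp
  have : (2 * (c' * k.choose 2 + (k + 1).choose 2 + r'.choose 2) : ℤ) ≤ 2 * h k G := by
    push_cast at key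
    nlinarith
  have h9 : 2 * (c' * k.choose 2 + (k + 1).choose 2 + r'.choose 2) ≤ 2 * h k G := by
    exact_mod_cast this
  omega

end Q116.Close
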