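import Mathlib

open Module Matrix

attribute [local instance 100] LieRing.ofAssociativeRing

namespace Q116.Leonard

section rep
variable {K V : Type} [Field K] [CharZero K] [AddCommGroup V] [Module K V]

lemma comm_pow (H E : Module.End K V) (c : K) (h : H * E - E * H = c • E) (n : ℕ) :
    H * E ^ n - E ^ n * H = ((n : K) * c) • E ^ n := by
  induction n with
  | zero => simp
  | succ n ih =>
    have h1 : H * E = E * H + c • E := by rw [← h]; abel
    have h2 : H * E ^ n = E ^ n * H + ((n : K) * c) • E ^ n := by rw [← ih]; abel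
    rw [pow_succ, ← mul_assoc, h2, add_mul, mul_assoc, h1]
    simp only [mul_add, smul_mul_assoc, mul_smul_comm, mul_assoc]
    push_cast
    module

lemma nilp [FiniteDimensional K V] (H E : Module.End K V) (c : K) (hc : c ≠ 0)
    (h : H * E - E * H = c • E) : ∃ n : ℕ, E ^ n = 0 := by
  by_contra hcon
  push Not at hcon
  let T : Module.End K (Module.End K V) := LinearMap.mulLeft K H - LinearMap.mulRight K H
  have hev : ∀ n : ℕ, T.HasEigenvalue ((n : K) * c) := by
    intro n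
    apply Module.End.hasEigenvalue_of_hasEigenvector (x := E ^ n)
    rw [Module.End.hasEigenvector_iff, Module.End.mem_eigenspace_iff]
    refine ⟨?_, hcon n⟩
    simpa [T] using comm_pow H E c h n
  have hfin : Set.Finite {μ : K | T.HasEigenvalue μ} := Module.End.finite_hasEigenvalue T
  have hinj : Function.Injective (fun n : ℕ => (n : K) * c) := by
    intro a b hab
    exact_mod_cast mul_right_cancel₀ hc hab
  exact Set.infinite_of_injective_forall_mem hinj hev hfin

lemma EF_pow (H E F : Module.End K V) (h1 : E * F - F * E = H)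
    (h2 : H * F - F * H = (-2 : K) • F) (k : ℕ) :
    E * F ^ (k + 1) = F ^ (k + 1) * E + ((k : K) + 1) • (F ^ k * (H - (k : K) • 1)) := by
  have e1 : E * F = F * E + H := by rw [← h1]; abel
  have e2 : H * F = F * H + (-2 : K) • F := by rw [← h2]; abel
  induction k with
  | zero => simp [e1]
  | succ k ih =>
    rw [pow_succ, ← mul_assoc, ih, add_mul, mul_assoc, e1]
    simp only [mul_add, smul_mul_assoc, mul_smul_comm, mul_assoc, sub_mul, e2, mul_sub, mul_one,
      one_mul, ← pow_succ]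
    rw [show F ^ k * (F * H) = F ^ (k + 1) * H by rw [← mul_assoc, ← pow_succ]]
    rw [show F ^ (k + 1) * (F * E) = F ^ (k + 1 + 1) * E by rw [← mul_assoc, ← pow_succ]]
    push_cast
    module

lemma exists_prim [FiniteDimensional K V] [Nontrivial V] (H E F : Module.End K V)
    (h0 : H * E - E * H = (2 : K) • E)
    (h1 : E * F - F * E = H) (h2 : H * F - F * H = (-2 : K) • F) :
    ∃ w : V, w ≠ 0 ∧ E w = 0 ∧ ∃ μ : K, H w = μ • w := by
  classical
  obtain ⟨nE, hE⟩ := nilp H E 2 two_ne_zero h0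
  obtain ⟨nF, hF⟩ := nilp H F (-2) (by norm_num) h2
  -- kernel of E is nonzero
  have hker : LinearMap.ker E ≠ ⊥ := by
    intro hb
    have hinj : Function.Injective E := LinearMap.ker_eq_bot.mp hb
    have : Function.Injective ((E ^ nE : Module.End K V)) := by
      rw [Module.End.coe_pow]; exact hinj.iterate nE
    rw [hE] at this
    obtain ⟨a, b, hab⟩ := exists_pair_ne V
    exact hab (this (by simp))
  -- H preserves ker E
  have hpres : ∀ v ∈ LinearMap.ker E, H v ∈ LinearMap.ker E := by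
    intro v hv
    rw [LinearMap.mem_ker] at hv ⊢
    have := congrArg (fun T : Module.End K V => T v) h0
    simp only [LinearMap.sub_apply, Module.End.mul_apply, LinearMap.smul_apply, hv, map_zero,
      smul_zero, zero_sub, neg_eq_zero] at this
    exact this
  have hP : ∃ k, ∀ v ∈ LinearMap.ker E, (F ^ k) v = 0 := ⟨nF, fun v _ => by simp [hF]⟩
  let k := Nat.find hP
  have hk : ∀ v ∈ LinearMap.ker E, (F ^ k) v = 0 := Nat.find_spec hP
  have hk0 : k ≠ 0 := by
    intro h
    apply hker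
    rw [Submodule.eq_bot_iff]
    intro v hv
    have := hk v hv
    simpa [h] using this
  obtain ⟨j, hj⟩ := Nat.exists_eq_succ_of_ne_zero hk0
  have hmin : ¬ ∀ v ∈ LinearMap.ker E, (F ^ j) v = 0 := Nat.find_min hP (by omega)
  -- the map H - j on ker E
  let S := LinearMap.ker E
  let T : S →ₗ[K] S := (H - (j : K) • 1 : Module.End K V).restrict (p := S) (q := S) (by
    intro v hv
    simp only [LinearMap.sub_apply, LinearMap.smul_apply, Module.End.one_apply]
    exact S.sub_mem (hpres v hv) (S.smul_mem _ hv))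
  have hns : ¬ Function.Surjective T := by
    intro hs
    apply hmin
    intro v hv
    obtain ⟨u, hu⟩ := hs ⟨v, hv⟩
    have hu' : H (u : V) - (j : K) • (u : V) = v := by
      have := congrArg Subtype.val hu
      simpa [T] using this
    have e := EF_pow H E F h1 h2 j
    have e' := congrArg (fun T : Module.End K V => T (u : V)) e
    have hu0 : E (u : V) = 0 := u.2
    have hku : (F ^ (j + 1)) (u : V) = 0 := by
      have := hk u u.2
      rwa [hj] at this
    simp only [Module.End.mul_apply, LinearMap.add_apply, LinearMap.smul_apply, LinearMap.sub_apply,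
      Module.End.one_apply, hu0, hku, map_zero, zero_add, hu'] at e'
    have hne : ((j : K) + 1) ≠ 0 := by exact_mod_cast Nat.succ_ne_zero j
    exact (smul_eq_zero.mp e'.symm).resolve_left hne
  have hni : ¬ Function.Injective T := fun hi => hns (LinearMap.injective_iff_surjective.mp hi)
  rw [← LinearMap.ker_eq_bot, Submodule.eq_bot_iff] at hni
  push Not at hni
  obtain ⟨w, hw, hw0⟩ := hni
  refine ⟨w, by simpa using hw0, w.2, (j : K), ?_⟩
  have := congrArg Subtype.val (LinearMap.mem_ker.mp hw)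
  simpa [T, sub_eq_zero] using this

end rep


section struct
variable {K V : Type} [Field K] [CharZero K] [AddCommGroup V] [Module K V]

/-- In a four dimensional irreducible situation there is a basis of weight vectors. -/
lemma exists_basis [FiniteDimensional K V] (hdim : finrank K V = 4) (H E F : Module.End K V)
    (h0 : H * E - E * H = (2 : K) • E)
    (h1 : E * F - F * E = H) (h2 : H * F - F * H = (-2 : K) • F)
    (hirr : ∀ W : Submodule K V, (∀ v ∈ W, H v ∈ W) → (∀ v ∈ W, E v ∈ W) → (∀ v ∈ W, F v ∈ W) →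
      W = ⊥ ∨ W = ⊤) :
    ∃ b : Basis (Fin 4) K V,
      (H (b 0) = (3 : K) • b 0 ∧ H (b 1) = (1 : K) • b 1 ∧ H (b 2) = (-1 : K) • b 2 ∧
        H (b 3) = (-3 : K) • b 3) ∧
      (F (b 0) = b 1 ∧ F (b 1) = b 2 ∧ F (b 2) = b 3 ∧ F (b 3) = 0) ∧
      (E (b 0) = 0 ∧ E (b 1) = (3 : K) • b 0 ∧ E (b 2) = (4 : K) • b 1 ∧
        E (b 3) = (3 : K) • b 2) := by
  classical
  have hnt : Nontrivial V := by
    apply Module.nontrivial_of_finrank_pos (R := K); omega
  obtain ⟨w, hw0, hwE, μ, hwH⟩ := exists_prim H E F h0 h1 h2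
  have hH0 : H ≠ 0 := by
    intro hH
    have hE : E = 0 := by
      have : (2 : K) • E = 0 := by rw [← h0, hH]; simp
      exact (smul_eq_zero.mp this).resolve_left two_ne_zero
    have hF : F = 0 := by
      have : (-2 : K) • F = 0 := by rw [← h2, hH]; simp
      exact (smul_eq_zero.mp this).resolve_left (by norm_num)
    have := hirr (Submodule.span K {w}) (fun v _ => by simp [hH]) (fun v _ => by simp [hE])
      (fun v _ => by simp [hF])
    rcases this with h | h
    · rw [Submodule.span_singleton_eq_bot] at h; exact hw0 h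
    · have h3 : finrank K (Submodule.span K {w}) = 4 := by rw [h, finrank_top, hdim]
      rw [finrank_span_singleton hw0] at h3
      omega
  have t : IsSl2Triple H E F := by
    refine ⟨hH0, ?_, ?_, ?_⟩
    · rw [Ring.lie_def, h1]
    · rw [Ring.lie_def, h0, ← Nat.cast_smul_eq_nsmul K]; norm_num
    · rw [Ring.lie_def, h2, ← Nat.cast_smul_eq_nsmul K]; norm_num
  have P : t.HasPrimitiveVectorWith (R := K) w μ := ⟨hw0, hwH, hwE⟩
  obtain ⟨n, hn⟩ := P.exists_nat
  let f : ℕ → V := fun i => (F ^ i) w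
  have hf : ∀ i, f i = ((LieModule.toEnd K (Module.End K V) V F) ^ i) w := by
    intro i
    have : (LieModule.toEnd K (Module.End K V) V F) = F := by ext v; simp
    simp only [f, this]
  have fH : ∀ i, H (f i) = (μ - 2 * i) • f i := by
    intro i
    have := P.lie_h_pow_toEnd_f i
    rw [← hf] at this; exact this
  have fF : ∀ i, F (f i) = f (i + 1) := by
    intro i; simp [f, pow_succ']
  have fE0 : E (f 0) = 0 := by simpa [f] using hwE
  have fE : ∀ i, E (f (i + 1)) = (((i : K) + 1) * (μ - i)) • f i := by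
    intro i
    have := P.lie_e_pow_succ_toEnd_f i
    rw [← hf, ← hf] at this; exact this
  have fne : ∀ i, i ≤ n → f i ≠ 0 := by
    intro i hi
    have := P.pow_toEnd_f_ne_zero_of_eq_nat hn hi
    rwa [← hf] at this
  have fz : f (n + 1) = 0 := by
    have := P.pow_toEnd_f_eq_zero_of_eq_nat hn
    rwa [← hf] at this
  -- the span is everything
  let W : Submodule K V := Submodule.span K (Set.range (fun i : Fin (n + 1) => f i))
  have hmem : ∀ i, f i ∈ W := by
    intro i
    by_cases hi : i < n + 1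
    · exact Submodule.subset_span ⟨⟨i, hi⟩, rfl⟩
    · have : f i = 0 := by
        obtain ⟨d, rfl⟩ := Nat.exists_eq_add_of_le (not_lt.mp hi)
        induction d with
        | zero => exact fz
        | succ d ih =>
          rw [← add_assoc, ← fF, ih (by omega), map_zero]
      rw [this]; exact W.zero_mem
  have hWtop : W = ⊤ := by
    have key : ∀ T : Module.End K V, (∀ i, T (f i) ∈ W) → ∀ v ∈ W, T v ∈ W := by
      intro T hT v hv
      induction hv using Submodule.span_induction with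
      | mem x hx => obtain ⟨i, rfl⟩ := hx; exact hT _
      | zero => rw [map_zero]; exact W.zero_mem
      | add x y _ _ hx hy => rw [map_add]; exact W.add_mem hx hy
      | smul a x _ hx => rw [map_smul]; exact W.smul_mem _ hx
    rcases hirr W (key H (fun i => by rw [fH]; exact W.smul_mem _ (hmem i)))
      (key E (fun i => by
        cases i with
        | zero => rw [fE0]; exact W.zero_mem
        | succ i => rw [fE]; exact W.smul_mem _ (hmem i)))
      (key F (fun i => by rw [fF]; exact hmem _)) with h | h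
    · exfalso
      have := hmem 0
      rw [h, Submodule.mem_bot] at this
      exact fne 0 (Nat.zero_le _) this
    · exact h
  have hli : LinearIndependent K (fun i : Fin (n + 1) => f i) := by
    apply Module.End.eigenvectors_linearIndependent' H (fun i : Fin (n + 1) => μ - 2 * ((i : ℕ) : K))
    · intro i j hij
      have : ((i : ℕ) : K) = ((j : ℕ) : K) := by
        have h3 : (2 : K) * ((i : ℕ) : K) = 2 * ((j : ℕ) : K) := by
          simp only at hij; linear_combination -hij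
        exact mul_left_cancel₀ two_ne_zero h3
      exact Fin.ext (by exact_mod_cast this)
    · intro i
      rw [Module.End.hasEigenvector_iff, Module.End.mem_eigenspace_iff]
      exact ⟨fH i, fne i (by omega)⟩
  let b0 : Basis (Fin (n + 1)) K V := Basis.mk hli (by rw [← hWtop])
  have hn3 : n = 3 := by
    have := finrank_eq_card_basis b0
    rw [hdim, Fintype.card_fin] at this; omega
  subst hn3
  have hb : ∀ i : Fin 4, b0 i = f i := fun i => by simp [b0]
  refine ⟨b0, ⟨?_, ?_, ?_, ?_⟩, ⟨?_, ?_, ?_, ?_⟩, ⟨?_, ?_, ?_, ?_⟩⟩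
  · rw [hb, fH, hn]; norm_num
  · rw [hb, fH, hn]; norm_num
  · rw [hb, fH, hn]; norm_num
  · rw [hb, fH, hn]; norm_num
  · rw [hb, hb]; exact fF 0
  · rw [hb, hb]; exact fF 1
  · rw [hb, hb]; exact fF 2
  · rw [hb]; exact (fF 3).trans fz
  · rw [hb]; exact fE0
  · rw [hb, hb]; have := fE 0; rw [hn] at this; norm_num at this; exact this
  · rw [hb, hb]; have := fE 1; rw [hn] at this; norm_num at this; exact this
  · rw [hb, hb]; have := fE 2; rw [hn] at this; norm_num at this; exact this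

end struct


section core
variable {K : Type} [Field K] [LinearOrder K] [IsStrictOrderedRing K]

lemma fin_core (u s w t Q1 Q2 Q3 : K) (h1 : (u - s) * (w - t) = Q1) (h2 : u * w = Q2)
    (h3 : (u + s) * (w + t) = Q3)
    (hneg : ((Q3 - Q1) / 2) ^ 2 - 4 * Q2 * ((Q1 + Q3) / 2 - Q2) < 0) : False := by
  have e : ((Q3 - Q1) / 2) ^ 2 - 4 * Q2 * ((Q1 + Q3) / 2 - Q2) = (u * t - s * w) ^ 2 := by
    rw [← h1, ← h2, ← h3]; ring
  rw [e] at hneg
  exact absurd hneg (not_lt.mpr (sq_nonneg _))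

lemma orderA (x0 x1 x2 x3 : K) (hs : x0 + x1 + x2 + x3 = 26) (hq : x0 - 3 * x1 + 3 * x2 - x3 = 0)
    (h0 : (x0 - 0) * (x0 - 3) * (x0 - 8) * (x0 - 15) = 0)
    (h1 : (x1 - 0) * (x1 - 3) * (x1 - 8) * (x1 - 15) = 0)
    (h2 : (x2 - 0) * (x2 - 3) * (x2 - 8) * (x2 - 15) = 0) :
    (x0 = 0 ∧ x1 = 3 ∧ x2 = 8 ∧ x3 = 15) ∨ (x0 = 15 ∧ x1 = 8 ∧ x2 = 3 ∧ x3 = 0) := by
  have e0 : x0 = 13 + x1 - 2 * x2 := by linarith
  have e3 : x3 = 13 - 2 * x1 + x2 := by linarith
  subst e0 e3
  simp only [mul_eq_zero, or_assoc, sub_eq_zero] at h1 h2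
  rcases h1 with rfl | rfl | rfl | rfl <;> rcases h2 with rfl | rfl | rfl | rfl <;>
    first | (exfalso; norm_num at h0; done) | norm_num

lemma orderB (x0 x1 x2 x3 : K) (hs : x0 + x1 + x2 + x3 = 32) (hq : x0 - 3 * x1 + 3 * x2 - x3 = 0)
    (h0 : (x0 - 0) * (x0 - 4) * (x0 - 10) * (x0 - 18) = 0)
    (h1 : (x1 - 0) * (x1 - 4) * (x1 - 10) * (x1 - 18) = 0)
    (h2 : (x2 - 0) * (x2 - 4) * (x2 - 10) * (x2 - 18) = 0) :
    (x0 = 0 ∧ x1 = 4 ∧ x2 = 10 ∧ x3 = 18) ∨ (x0 = 18 ∧ x1 = 10 ∧ x2 = 4 ∧ x3 = 0) := by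
  have e0 : x0 = 16 + x1 - 2 * x2 := by linarith
  have e3 : x3 = 16 - 2 * x1 + x2 := by linarith
  subst e0 e3
  simp only [mul_eq_zero, or_assoc, sub_eq_zero] at h1 h2
  rcases h1 with rfl | rfl | rfl | rfl <;> rcases h2 with rfl | rfl | rfl | rfl <;>
    first | (exfalso; norm_num at h0; done) | norm_num

lemma core (x0 x1 x2 x3 y0 y1 y2 y3 u s w t : K)
    (hs : x0 + x1 + x2 + x3 = 26) (hq : x0 - 3 * x1 + 3 * x2 - x3 = 0)
    (h0 : (x0 - 0) * (x0 - 3) * (x0 - 8) * (x0 - 15) = 0)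
    (h1 : (x1 - 0) * (x1 - 3) * (x1 - 8) * (x1 - 15) = 0)
    (h2 : (x2 - 0) * (x2 - 3) * (x2 - 8) * (x2 - 15) = 0)
    (ks : y0 + y1 + y2 + y3 = 32) (kq : y0 - 3 * y1 + 3 * y2 - y3 = 0)
    (k0 : (y0 - 0) * (y0 - 4) * (y0 - 10) * (y0 - 18) = 0)
    (k1 : (y1 - 0) * (y1 - 4) * (y1 - 10) * (y1 - 18) = 0)
    (k2 : (y2 - 0) * (y2 - 4) * (y2 - 10) * (y2 - 18) = 0)
    (t1 : x0 * y0 + x1 * y1 + x2 * y2 + x3 * y3 + 3 * ((u - s) * (w - t)) + 4 * (u * w) +
      3 * ((u + s) * (w + t)) = 46)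
    (t2 : x0 ^ 2 * y0 + x1 ^ 2 * y1 + x2 ^ 2 * y2 + x3 ^ 2 * y3 +
      3 * ((u - s) * (w - t)) * (x0 + x1) + 4 * (u * w) * (x1 + x2) +
      3 * ((u + s) * (w + t)) * (x2 + x3) = 206)
    (t3 : x0 * y0 ^ 2 + x1 * y1 ^ 2 + x2 * y2 ^ 2 + x3 * y3 ^ 2 +
      3 * ((u - s) * (w - t)) * (y0 + y1) + 4 * (u * w) * (y1 + y2) +
      3 * ((u + s) * (w + t)) * (y2 + y3) = 108) : False := by
  generalize hf1 : (u - s) * (w - t) = f1 at *
  generalize hf2 : u * w = f2 at *
  generalize hf3 : (u + s) * (w + t) = f3 at *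
  rcases orderA x0 x1 x2 x3 hs hq h0 h1 h2 with ⟨rfl, rfl, rfl, rfl⟩ | ⟨rfl, rfl, rfl, rfl⟩ <;>
  rcases orderB y0 y1 y2 y3 ks kq k0 k1 k2 with ⟨rfl, rfl, rfl, rfl⟩ | ⟨rfl, rfl, rfl, rfl⟩
  · have g1 : f1 = -21 := by linarith
    have g2 : f2 = -31 := by linarith
    have g3 : f3 = -43 := by linarith
    exact fin_core u s w t f1 f2 f3 hf1 hf2 hf3 (by rw [g1, g2, g3]; norm_num)
  · have g1 : f1 = -3 := by linarith
    have g2 : f2 = -1 := by linarith
    have g3 : f3 = -1 := by linarith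
    exact fin_core u s w t f1 f2 f3 hf1 hf2 hf3 (by rw [g1, g2, g3]; norm_num)
  · have g1 : f1 = -1 := by linarith
    have g2 : f2 = -1 := by linarith
    have g3 : f3 = -3 := by linarith
    exact fin_core u s w t f1 f2 f3 hf1 hf2 hf3 (by rw [g1, g2, g3]; norm_num)
  · have g1 : f1 = -43 := by linarith
    have g2 : f2 = -31 := by linarith
    have g3 : f3 = -21 := by linarith
    exact fin_core u s w t f1 f2 f3 hf1 hf2 hf3 (by rw [g1, g2, g3]; norm_num)

end core

section mats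
variable {K : Type} [Field K]

/-- The matrix of `A`. -/
def MA (K : Type) [Field K] : Matrix (Fin 4) (Fin 4) K :=
  !![0, 0, 0, 0; 1, 3, 0, 0; 0, 1, 8, 0; 0, 0, 1, 15]

/-- The matrix of `A*`. -/
def MB (K : Type) [Field K] : Matrix (Fin 4) (Fin 4) K :=
  !![0, -63, 0, 0; 0, 4, -124, 0; 0, 0, 10, -129; 0, 0, 0, 18]

lemma trMA : Matrix.trace (MA K) = 26 := by
  simp [MA, Matrix.trace, Fin.sum_univ_four]; norm_num

lemma trMB : Matrix.trace (MB K) = 32 := by
  simp [MB, Matrix.trace, Fin.sum_univ_four]; norm_num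

lemma trAB : Matrix.trace (MA K * MB K) = 46 := by
  simp [MA, MB, Matrix.trace, Fin.sum_univ_four, Matrix.mul_apply]; norm_num

lemma trAAB : Matrix.trace (MA K * (MA K * MB K)) = 206 := by
  simp [MA, MB, Matrix.trace, Fin.sum_univ_four, Matrix.mul_apply]; norm_num

lemma trABB : Matrix.trace (MA K * (MB K * MB K)) = 108 := by
  simp [MA, MB, Matrix.trace, Fin.sum_univ_four, Matrix.mul_apply]; norm_num

/-- lower bidiagonal form -/
def LA (x0 x1 x2 x3 p0 p1 p2 : K) : Matrix (Fin 4) (Fin 4) K :=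
  !![x0, 0, 0, 0; p0, x1, 0, 0; 0, p1, x2, 0; 0, 0, p2, x3]

/-- upper bidiagonal form -/
def UB (y0 y1 y2 y3 r0 r1 r2 : K) : Matrix (Fin 4) (Fin 4) K :=
  !![y0, r0, 0, 0; 0, y1, r1, 0; 0, 0, y2, r2; 0, 0, 0, y3]

lemma detLA (c x0 x1 x2 x3 p0 p1 p2 : K) :
    (LA x0 x1 x2 x3 p0 p1 p2 - c • (1 : Matrix (Fin 4) (Fin 4) K)).det =
      (x0 - c) * (x1 - c) * (x2 - c) * (x3 - c) := by
  have : LA x0 x1 x2 x3 p0 p1 p2 - c • (1 : Matrix (Fin 4) (Fin 4) K) =
      LA (x0 - c) (x1 - c) (x2 - c) (x3 - c) p0 p1 p2 := by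
    ext i j; fin_cases i <;> fin_cases j <;> simp [LA]
  rw [this]
  simp [LA, Matrix.det_succ_row_zero, Fin.sum_univ_succ, Fin.succAbove]
  try ring

lemma detUB (c y0 y1 y2 y3 r0 r1 r2 : K) :
    (UB y0 y1 y2 y3 r0 r1 r2 - c • (1 : Matrix (Fin 4) (Fin 4) K)).det =
      (y0 - c) * (y1 - c) * (y2 - c) * (y3 - c) := by
  have : UB y0 y1 y2 y3 r0 r1 r2 - c • (1 : Matrix (Fin 4) (Fin 4) K) =
      UB (y0 - c) (y1 - c) (y2 - c) (y3 - c) r0 r1 r2 := by
    ext i j; fin_cases i <;> fin_cases j <;> simp [UB]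
  rw [this]
  simp [UB, Matrix.det_succ_row_zero, Fin.sum_univ_succ, Fin.succAbove]
  try ring

end mats


section assemble
variable {K V : Type} [Field K] [LinearOrder K] [IsStrictOrderedRing K] [AddCommGroup V]
  [Module K V]

lemma toMat_A (b : Basis (Fin 4) K V) (A : Module.End K V) (x0 x1 x2 x3 p0 p1 p2 : K)
    (h0 : A (b 0) = x0 • b 0 + p0 • b 1) (h1 : A (b 1) = x1 • b 1 + p1 • b 2)
    (h2 : A (b 2) = x2 • b 2 + p2 • b 3) (h3 : A (b 3) = x3 • b 3) :
    LinearMap.toMatrix b b A = LA x0 x1 x2 x3 p0 p1 p2 := by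
  ext i j
  fin_cases j
  · fin_cases i <;> simp [LinearMap.toMatrix_apply, LA, h0, Finsupp.single_apply]
  · fin_cases i <;> simp [LinearMap.toMatrix_apply, LA, h1, Finsupp.single_apply]
  · fin_cases i <;> simp [LinearMap.toMatrix_apply, LA, h2, Finsupp.single_apply]
  · fin_cases i <;> simp [LinearMap.toMatrix_apply, LA, h3, Finsupp.single_apply]

lemma toMat_B (b : Basis (Fin 4) K V) (B : Module.End K V) (y0 y1 y2 y3 r0 r1 r2 : K)
    (h0 : B (b 0) = y0 • b 0) (h1 : B (b 1) = y1 • b 1 + r0 • b 0)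
    (h2 : B (b 2) = y2 • b 2 + r1 • b 1) (h3 : B (b 3) = y3 • b 3 + r2 • b 2) :
    LinearMap.toMatrix b b B = UB y0 y1 y2 y3 r0 r1 r2 := by
  ext i j
  fin_cases j
  · fin_cases i <;> simp [LinearMap.toMatrix_apply, UB, h0, Finsupp.single_apply]
  · fin_cases i <;> simp [LinearMap.toMatrix_apply, UB, h1, Finsupp.single_apply]
  · fin_cases i <;> simp [LinearMap.toMatrix_apply, UB, h2, Finsupp.single_apply]
  · fin_cases i <;> simp [LinearMap.toMatrix_apply, UB, h3, Finsupp.single_apply]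

lemma toMat_sub (b : Basis (Fin 4) K V) (A : Module.End K V) (c : K) :
    LinearMap.det (A - c • 1) = (LinearMap.toMatrix b b A - c • (1 : Matrix (Fin 4) (Fin 4) K)).det := by
  rw [← LinearMap.det_toMatrix b]
  congr 1
  rw [map_sub, map_smul, LinearMap.toMatrix_one]

theorem no_module (hdim : finrank K V = 4) (X Y Z : Module.End K V)
    (hXY : X * Y - Y * X = (2 : K) • X + (2 : K) • Y)
    (hYZ : Y * Z - Z * Y = (2 : K) • Y + (2 : K) • Z)
    (hZX : Z * X - X * Z = (2 : K) • Z + (2 : K) • X)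
    (hirr : ∀ W : Submodule K V, (∀ v ∈ W, X v ∈ W) → (∀ v ∈ W, Y v ∈ W) → (∀ v ∈ W, Z v ∈ W) →
      W = ⊥ ∨ W = ⊤)
    (A B : Module.End K V)
    (trA : LinearMap.trace K V A = 26) (trB : LinearMap.trace K V B = 32)
    (tr1 : LinearMap.trace K V (A * B) = 46)
    (tr2 : LinearMap.trace K V (A * (A * B)) = 206)
    (tr3 : LinearMap.trace K V (A * (B * B)) = 108)
    (dA : ∀ c : K, LinearMap.det (A - c • 1) = (0 - c) * (3 - c) * (8 - c) * (15 - c))
    (dB : ∀ c : K, LinearMap.det (B - c • 1) = (0 - c) * (4 - c) * (10 - c) * (18 - c))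
    (a0 a1 a2 a3 b0 b1 b2 b3 : K)
    (hA : A = a0 • 1 + a1 • X + a2 • Y + a3 • (X * Y))
    (hB : B = b0 • 1 + b1 • Y + b2 • Z + b3 • (Y * Z)) : False := by
  haveI : FiniteDimensional K V := Module.finite_of_finrank_pos (by omega)
  let E : Module.End K V := (1 / 2 : K) • (Y + Z)
  let F : Module.End K V := (-1 / 2 : K) • (X + Y)
  have hX : X = - Y - (2 : K) • F := by
    simp only [F]; module
  have hZ : Z = - Y + (2 : K) • E := by
    simp only [E]; module
  have h0 : Y * E - E * Y = (2 : K) • E := by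
    simp only [E, mul_smul_comm, smul_mul_assoc, mul_add, add_mul]
    have : (1 / 2 : K) • (Y * Y + Y * Z) - (1 / 2 : K) • (Y * Y + Z * Y) =
        (1 / 2 : K) • (Y * Z - Z * Y) := by module
    rw [this, hYZ]; module
  have h2 : Y * F - F * Y = (-2 : K) • F := by
    simp only [F, mul_smul_comm, smul_mul_assoc, mul_add, add_mul]
    have : (-1 / 2 : K) • (Y * X + Y * Y) - (-1 / 2 : K) • (X * Y + Y * Y) =
        (1 / 2 : K) • (X * Y - Y * X) := by module
    rw [this, hXY]; module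
  have h1 : E * F - F * E = Y := by
    simp only [E, F, mul_smul_comm, smul_mul_assoc, mul_add, add_mul]
    trans (-1 / 4 : K) • ((Z * X - X * Z) - (X * Y - Y * X) - (Y * Z - Z * Y))
    · module
    · rw [hZX, hXY, hYZ]; module
  have hirr' : ∀ W : Submodule K V, (∀ v ∈ W, Y v ∈ W) → (∀ v ∈ W, E v ∈ W) →
      (∀ v ∈ W, F v ∈ W) → W = ⊥ ∨ W = ⊤ := by
    intro W hY hE hF
    refine hirr W ?_ hY ?_
    · intro v hv
      rw [hX]
      simp only [LinearMap.sub_apply, LinearMap.neg_apply, LinearMap.smul_apply]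
      exact W.sub_mem (W.neg_mem (hY v hv)) (W.smul_mem _ (hF v hv))
    · intro v hv
      rw [hZ]
      simp only [LinearMap.add_apply, LinearMap.neg_apply, LinearMap.smul_apply]
      exact W.add_mem (W.neg_mem (hY v hv)) (W.smul_mem _ (hE v hv))
  obtain ⟨b, ⟨H0, H1, H2, H3⟩, ⟨F0, F1, F2, F3⟩, ⟨E0, E1, E2, E3⟩⟩ :=
    exists_basis hdim Y E F h0 h1 h2 hirr'
  have X0 : X (b 0) = (-3 : K) • b 0 - (2 : K) • b 1 := by rw [hX]; simp [H0, F0]
  have X1 : X (b 1) = (-1 : K) • b 1 - (2 : K) • b 2 := by rw [hX]; simp [H1, F1]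
  have X2 : X (b 2) = (1 : K) • b 2 - (2 : K) • b 3 := by rw [hX]; simp [H2, F2]
  have X3 : X (b 3) = (3 : K) • b 3 := by rw [hX]; simp [H3, F3]
  have Z0 : Z (b 0) = (-3 : K) • b 0 := by rw [hZ]; simp [H0, E0]
  have Z1 : Z (b 1) = (-1 : K) • b 1 + (6 : K) • b 0 := by
    rw [hZ]; simp [H1, E1]; module
  have Z2 : Z (b 2) = (1 : K) • b 2 + (8 : K) • b 1 := by
    rw [hZ]; simp [H2, E2]; module
  have Z3 : Z (b 3) = (3 : K) • b 3 + (6 : K) • b 2 := by
    rw [hZ]; simp [H3, E3]; module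
  have mA : LinearMap.toMatrix b b A = LA (a0 - a1 * 3 + a2 * 3 - a3 * 9) (a0 - a1 + a2 - a3)
      (a0 + a1 - a2 - a3) (a0 + a1 * 3 - a2 * 3 - a3 * 9)
      (-2 * a1 - 6 * a3) (-2 * a1 - 2 * a3) (-2 * a1 + 2 * a3) := by
    apply toMat_A
    · rw [hA]; simp only [LinearMap.add_apply, LinearMap.smul_apply, Module.End.one_apply,
        Module.End.mul_apply, H0, X0, map_smul]; module
    · rw [hA]; simp only [LinearMap.add_apply, LinearMap.smul_apply, Module.End.one_apply,
        Module.End.mul_apply, H1, X1, map_smul]; module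
    · rw [hA]; simp only [LinearMap.add_apply, LinearMap.smul_apply, Module.End.one_apply,
        Module.End.mul_apply, H2, X2, map_smul]; module
    · rw [hA]; simp only [LinearMap.add_apply, LinearMap.smul_apply, Module.End.one_apply,
        Module.End.mul_apply, H3, X3, map_smul]; module
  have mB : LinearMap.toMatrix b b B = UB (b0 + b1 * 3 - b2 * 3 - b3 * 9) (b0 + b1 - b2 - b3)
      (b0 - b1 + b2 - b3) (b0 - b1 * 3 + b2 * 3 - b3 * 9)
      (3 * (2 * b2 + 6 * b3)) (4 * (2 * b2 + 2 * b3)) (3 * (2 * b2 - 2 * b3)) := by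
    apply toMat_B
    · rw [hB]; simp only [LinearMap.add_apply, LinearMap.smul_apply, Module.End.one_apply,
        Module.End.mul_apply, H0, Z0, map_smul]; module
    · rw [hB]; simp only [LinearMap.add_apply, LinearMap.smul_apply, Module.End.one_apply,
        Module.End.mul_apply, H0, H1, Z1, map_smul, map_add]; module
    · rw [hB]; simp only [LinearMap.add_apply, LinearMap.smul_apply, Module.End.one_apply,
        Module.End.mul_apply, H1, H2, Z2, map_smul, map_add]; module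
    · rw [hB]; simp only [LinearMap.add_apply, LinearMap.smul_apply, Module.End.one_apply,
        Module.End.mul_apply, H2, H3, Z3, map_smul, map_add]; module
  have cA : ∀ c : K, (0 - c) * (3 - c) * (8 - c) * (15 - c) =
      ((a0 - a1 * 3 + a2 * 3 - a3 * 9) - c) * ((a0 - a1 + a2 - a3) - c) *
      ((a0 + a1 - a2 - a3) - c) * ((a0 + a1 * 3 - a2 * 3 - a3 * 9) - c) := by
    intro c; rw [← dA c, toMat_sub b, mA, detLA]
  have cB : ∀ c : K, (0 - c) * (4 - c) * (10 - c) * (18 - c) =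
      ((b0 + b1 * 3 - b2 * 3 - b3 * 9) - c) * ((b0 + b1 - b2 - b3) - c) *
      ((b0 - b1 + b2 - b3) - c) * ((b0 - b1 * 3 + b2 * 3 - b3 * 9) - c) := by
    intro c; rw [← dB c, toMat_sub b, mB, detUB]
  rw [LinearMap.trace_eq_matrix_trace K b] at trA trB tr1 tr2 tr3
  rw [mA] at trA
  rw [mB] at trB
  rw [LinearMap.toMatrix_mul, mA, mB] at tr1
  rw [LinearMap.toMatrix_mul, LinearMap.toMatrix_mul, mA, mB] at tr2 tr3
  simp [LA, UB, Matrix.trace, Fin.sum_univ_four, Matrix.mul_apply] at trA trB tr1 tr2 tr3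
  refine core (a0 - a1 * 3 + a2 * 3 - a3 * 9) (a0 - a1 + a2 - a3)
      (a0 + a1 - a2 - a3) (a0 + a1 * 3 - a2 * 3 - a3 * 9)
      (b0 + b1 * 3 - b2 * 3 - b3 * 9) (b0 + b1 - b2 - b3)
      (b0 - b1 + b2 - b3) (b0 - b1 * 3 + b2 * 3 - b3 * 9)
      (-2 * a1 - 2 * a3) (4 * a3) (2 * b2 + 2 * b3) (-4 * b3)
      (by linear_combination trA) (by ring) ?_ ?_ ?_ (by linear_combination trB) (by ring) ?_ ?_ ?_
      (by linear_combination tr1) (by linear_combination tr2) (by linear_combination tr3)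
  · have := cA (a0 - a1 * 3 + a2 * 3 - a3 * 9)
    linear_combination this
  · have := cA (a0 - a1 + a2 - a3)
    linear_combination this
  · have := cA (a0 + a1 - a2 - a3)
    linear_combination this
  · have := cB (b0 + b1 * 3 - b2 * 3 - b3 * 9)
    linear_combination this
  · have := cB (b0 + b1 - b2 - b3)
    linear_combination this
  · have := cB (b0 - b1 + b2 - b3)
    linear_combination this

end assemble


section statement
variable {K V : Type} [Field K] [AddCommGroup V] [Module K V]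

/-- A square matrix is irreducible tridiagonal if it is tridiagonal and every entry on the
sub- and superdiagonal is nonzero. -/
def IrredTridiag {n : ℕ} (M : Matrix (Fin n) (Fin n) K) : Prop :=
  (∀ i j : Fin n, (i : ℕ) + 1 < j ∨ (j : ℕ) + 1 < i → M i j = 0) ∧
  (∀ i j : Fin n, (i : ℕ) + 1 = j ∨ (j : ℕ) + 1 = i → M i j ≠ 0)

/-- In the basis `b` the map `A` is irreducible tridiagonal and the map `B` is diagonal. -/
def TriDiagBasis {d : ℕ} (b : Basis (Fin (d + 1)) K V) (A B : Module.End K V) : Prop :=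
  IrredTridiag (LinearMap.toMatrix b b A) ∧ (LinearMap.toMatrix b b B).IsDiag

/-- `A, B` is a Leonard pair on `V`, where `dim V = d + 1`. -/
def LeonardPair (d : ℕ) (A B : Module.End K V) : Prop :=
  (∃ b : Basis (Fin (d + 1)) K V, TriDiagBasis b A B) ∧
  (∃ b : Basis (Fin (d + 1)) K V, TriDiagBasis b B A)

/-- The `i`-th diagonal entry of `A` in the basis `b`. -/
noncomputable def diagEntry {d : ℕ} (b : Basis (Fin (d + 1)) K V) (A : Module.End K V)
    (i : Fin (d + 1)) : K := LinearMap.toMatrix b b A i i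

/-- `β = 2`: for a basis as in (ii), with `θ i` the diagonal entries of `A`, one has
`θ (i-2) - θ (i+1) = 3 (θ (i-1) - θ i)` whenever `2 ≤ i ≤ d - 1` (below `i = k + 2`). -/
def BetaTwo (d : ℕ) (A B : Module.End K V) : Prop :=
  ∃ b : Basis (Fin (d + 1)) K V, TriDiagBasis b B A ∧
    ∀ (k : ℕ) (hk : k + 3 < d + 1),
      diagEntry b A ⟨k, by omega⟩ - diagEntry b A ⟨k + 3, hk⟩ =
        3 * (diagEntry b A ⟨k + 1, by omega⟩ - diagEntry b A ⟨k + 2, by omega⟩)

/-- The Lie algebra `sl₂` over `K`. -/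
abbrev sl2 (K : Type) [Field K] := LieAlgebra.SpecialLinear.sl (Fin 2) K

/-- The bracket relation `[x, y] = 2 x + 2 y`. -/
def EqRel (x y : sl2 K) : Prop := ⁅x, y⁆ = (2 : K) • x + (2 : K) • y

/-- `x, y, z` is an equitable basis of `sl₂`: a basis with `[x,y] = 2x+2y`, `[y,z] = 2y+2z`,
`[z,x] = 2z+2x`. -/
def IsEquitable (x y z : sl2 K) : Prop :=
  (∃ b : Basis (Fin 3) K (sl2 K), b 0 = x ∧ b 1 = y ∧ b 2 = z) ∧
    EqRel x y ∧ EqRel y z ∧ EqRel z x

/-- An `sl₂`-module structure on `V`. -/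
abbrev Rep (K V : Type) [Field K] [AddCommGroup V] [Module K V] := sl2 K →ₗ⁅K⁆ Module.End K V

/-- The `sl₂`-module structure on `V` given by `ρ` is irreducible. -/
def IsIrred (ρ : Rep K V) : Prop :=
  (∃ v : V, v ≠ 0) ∧
  ∀ W : Submodule K V, (∀ g : sl2 K, ∀ v ∈ W, ρ g v ∈ W) → W = ⊥ ∨ W = ⊤

/-- `A` is a linear combination of `I, X, Y, XY`. -/
def Comb (X Y A : Module.End K V) : Prop :=
  ∃ a b c e : K, A = a • 1 + b • X + c • Y + e • (X * Y)

/-- There are an irreducible `sl₂`-module structure on `V` and an equitable basis `x, y, z` such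
that `A` acts as a combination of `I, x, y, xy` and `B` as a combination of `I, y, z, yz`. -/
def HasModule (A B : Module.End K V) : Prop :=
  ∃ ρ : Rep K V, IsIrred ρ ∧
    ∃ x y z : sl2 K, IsEquitable x y z ∧ Comb (ρ x) (ρ y) A ∧ Comb (ρ y) (ρ z) B

/-- The statement Q1 over the field `K`. -/
def EquitableStatement (K : Type) [Field K] : Prop :=
  ∀ (V : Type) [AddCommGroup V] [Module K V] (d : ℕ) (A B : Module.End K V),
    LeonardPair d A B → BetaTwo d A B → HasModule A B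

end statement

section bases
variable {K : Type} [Field K]

/-- The basis of `K⁴` given by the columns of an invertible matrix. -/
noncomputable def bas (P Q : Matrix (Fin 4) (Fin 4) K) (h1 : P * Q = 1) (h2 : Q * P = 1) :
    Basis (Fin 4) K (Fin 4 → K) :=
  (Pi.basisFun K (Fin 4)).map (Matrix.toLin'OfInv h2 h1)

lemma toMatrix_bas (P Q : Matrix (Fin 4) (Fin 4) K) (h1 : P * Q = 1) (h2 : Q * P = 1)
    (M : Matrix (Fin 4) (Fin 4) K) :
    LinearMap.toMatrix (bas P Q h1 h2) (bas P Q h1 h2) (Matrix.toLin' M) = Q * (M * P) := by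
  ext i j
  rw [LinearMap.toMatrix_apply]
  have key : Q *ᵥ (M *ᵥ P.col j) = (Q * (M * P)).col j := by
    rw [← Matrix.mulVec_single_one P, ← Matrix.mulVec_single_one (Q * (M * P)),
      Matrix.mulVec_mulVec, Matrix.mulVec_mulVec, Matrix.mul_assoc]
  have key2 := congrFun key i
  simpa [bas, Matrix.toLin'OfInv, Matrix.toLin'_apply] using key2

/-- eigenbasis of `B` -/
def P1 (K : Type) [Field K] : Matrix (Fin 4) (Fin 4) K :=
  !![1, -63, 1953, -27993; 0, 4, -310, 7998; 0, 0, 15, -903; 0, 0, 0, 56]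

def Q1 (K : Type) [Field K] : Matrix (Fin 4) (Fin 4) K :=
  !![1, 63/4, 1953/10, 27993/20; 0, 1/4, 31/6, 1333/28; 0, 0, 1/15, 43/40; 0, 0, 0, 1/56]

def P2 (K : Type) [Field K] : Matrix (Fin 4) (Fin 4) K :=
  !![360, 0, 0, 0; -120, 60, 0, 0; 15, -12, 7, 0; -1, 1, -1, 1]

def Q2 (K : Type) [Field K] : Matrix (Fin 4) (Fin 4) K :=
  !![1/360, 0, 0, 0; 1/180, 1/60, 0, 0; 1/280, 1/35, 1/7, 0; 1/1260, 1/84, 1/7, 1]

variable [CharZero K]

lemma P1Q1 : P1 K * Q1 K = 1 := by
  ext i j; fin_cases i <;> fin_cases j <;>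
    simp [P1, Q1, Matrix.mul_apply, Fin.sum_univ_four] <;> norm_num
lemma Q1P1 : Q1 K * P1 K = 1 := by
  ext i j; fin_cases i <;> fin_cases j <;>
    simp [P1, Q1, Matrix.mul_apply, Fin.sum_univ_four] <;> norm_num
lemma P2Q2 : P2 K * Q2 K = 1 := by
  ext i j; fin_cases i <;> fin_cases j <;>
    simp [P2, Q2, Matrix.mul_apply, Fin.sum_univ_four] <;> norm_num
lemma Q2P2 : Q2 K * P2 K = 1 := by
  ext i j; fin_cases i <;> fin_cases j <;>
    simp [P2, Q2, Matrix.mul_apply, Fin.sum_univ_four] <;> norm_num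

lemma T1A : Q1 K * (MA K * P1 K) =
    !![63/4, -441/20, 0, 0; 1/4, 95/12, -248/21, 0; 0, 4/15, 83/24, -129/8;
       0, 0, 15/56, -9/8] := by
  ext i j; fin_cases i <;> fin_cases j <;>
    simp [P1, Q1, MA, Matrix.mul_apply, Fin.sum_univ_four] <;> norm_num

lemma T1B : Q1 K * (MB K * P1 K) = !![0, 0, 0, 0; 0, 4, 0, 0; 0, 0, 10, 0; 0, 0, 0, 18] := by
  ext i j; fin_cases i <;> fin_cases j <;>
    simp [P1, Q1, MB, Matrix.mul_apply, Fin.sum_univ_four] <;> norm_num

lemma T2A : Q2 K * (MA K * P2 K) = !![0, 0, 0, 0; 0, 3, 0, 0; 0, 0, 8, 0; 0, 0, 0, 15] := by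
  ext i j; fin_cases i <;> fin_cases j <;>
    simp [P2, Q2, MA, Matrix.mul_apply, Fin.sum_univ_four] <;> norm_num

lemma T2B : Q2 K * (MB K * P2 K) =
    !![21, -21/2, 0, 0; 3, 39/5, -217/15, 0; 0, 3/10, 127/35, -129/7; 0, 0, 2/21, -3/7] := by
  ext i j; fin_cases i <;> fin_cases j <;>
    simp [P2, Q2, MB, Matrix.mul_apply, Fin.sum_univ_four] <;> norm_num

lemma irred1 : IrredTridiag (!![63/4, -441/20, 0, 0; 1/4, 95/12, -248/21, 0; 0, 4/15, 83/24, -129/8;
       0, 0, 15/56, -9/8] : Matrix (Fin 4) (Fin 4) K) := by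
  constructor <;> intro i j <;> fin_cases i <;> fin_cases j <;> simp

lemma irred2 : IrredTridiag (!![21, -21/2, 0, 0; 3, 39/5, -217/15, 0; 0, 3/10, 127/35, -129/7;
    0, 0, 2/21, -3/7] : Matrix (Fin 4) (Fin 4) K) := by
  constructor <;> intro i j <;> fin_cases i <;> fin_cases j <;> simp

lemma diag1 : (!![0, 0, 0, 0; 0, 4, 0, 0; 0, 0, 10, 0; 0, 0, 0, 18] :
    Matrix (Fin 4) (Fin 4) K).IsDiag := by
  intro i j; fin_cases i <;> fin_cases j <;> simp

lemma diag2 : (!![0, 0, 0, 0; 0, 3, 0, 0; 0, 0, 8, 0; 0, 0, 0, 15] :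
    Matrix (Fin 4) (Fin 4) K).IsDiag := by
  intro i j; fin_cases i <;> fin_cases j <;> simp

lemma example_leonard : LeonardPair 3 (Matrix.toLin' (MA K)) (Matrix.toLin' (MB K)) := by
  refine ⟨⟨bas _ _ P1Q1 Q1P1, ?_, ?_⟩, ⟨bas _ _ P2Q2 Q2P2, ?_, ?_⟩⟩
  · rw [toMatrix_bas, T1A]; exact irred1
  · rw [toMatrix_bas, T1B]; exact diag1
  · rw [toMatrix_bas, T2B]; exact irred2
  · rw [toMatrix_bas, T2A]; exact diag2

lemma example_beta : BetaTwo 3 (Matrix.toLin' (MA K)) (Matrix.toLin' (MB K)) := by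
  refine ⟨bas _ _ P2Q2 Q2P2, ⟨?_, ?_⟩, ?_⟩
  · rw [toMatrix_bas, T2B]; exact irred2
  · rw [toMatrix_bas, T2A]; exact diag2
  · intro k hk
    have hk0 : k = 0 := by omega
    subst hk0
    have hd : ∀ i : Fin 4, diagEntry (bas _ _ P2Q2 Q2P2) (Matrix.toLin' (MA K)) i =
        (!![0, 0, 0, 0; 0, 3, 0, 0; 0, 0, 8, 0; 0, 0, 0, 15] : Matrix (Fin 4) (Fin 4) K) i i := by
      intro i
      rw [← T2A, ← toMatrix_bas _ _ P2Q2 Q2P2]
      rfl
    rw [hd, hd, hd, hd]
    simp
    norm_num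

end bases

theorem main (K : Type) [Field K] [LinearOrder K] [IsStrictOrderedRing K] :
    ¬ EquitableStatement K := by
  intro hS
  obtain ⟨ρ, ⟨_, hirr⟩, x, y, z, ⟨⟨b, rfl, rfl, rfl⟩, hxy, hyz, hzx⟩, ⟨a0, a1, a2, a3, hA⟩,
    ⟨b0, b1, b2, b3, hB⟩⟩ := hS (Fin 4 → K) 3 _ _ (example_leonard (K := K))
    (example_beta (K := K))
  unfold EqRel at hxy hyz hzx
  refine no_module (K := K) (V := Fin 4 → K) (by simp) (ρ (b 0)) (ρ (b 1)) (ρ (b 2)) ?_ ?_ ?_ ?_
    (Matrix.toLin' (MA K)) (Matrix.toLin' (MB K)) ?_ ?_ ?_ ?_ ?_ ?_ ?_ a0 a1 a2 a3 b0 b1 b2 b3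
    hA hB
  · rw [← LieRing.of_associative_ring_bracket, ← LieHom.map_lie, hxy]; simp
  · rw [← LieRing.of_associative_ring_bracket, ← LieHom.map_lie, hyz]; simp
  · rw [← LieRing.of_associative_ring_bracket, ← LieHom.map_lie, hzx]; simp
  · intro W hx hy hz
    apply hirr W
    intro g v hv
    have hg : g ∈ Submodule.span K (Set.range b) := by rw [b.span_eq]; trivial
    induction hg using Submodule.span_induction with
    | mem u hu =>
      obtain ⟨i, rfl⟩ := hu
      fin_cases i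
      · exact hx v hv
      · exact hy v hv
      · exact hz v hv
    | zero => simp
    | add u w _ _ hu hw => rw [map_add]; exact W.add_mem hu hw
    | smul a u _ hu => rw [map_smul]; exact W.smul_mem _ hu
  · rw [LinearMap.trace_eq_matrix_trace K (Pi.basisFun K (Fin 4)),
      LinearMap.toMatrix_eq_toMatrix', LinearMap.toMatrix'_toLin', trMA]
  · rw [LinearMap.trace_eq_matrix_trace K (Pi.basisFun K (Fin 4)),
      LinearMap.toMatrix_eq_toMatrix', LinearMap.toMatrix'_toLin', trMB]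
  · rw [LinearMap.trace_eq_matrix_trace K (Pi.basisFun K (Fin 4)),
      LinearMap.toMatrix_eq_toMatrix', LinearMap.toMatrix'_mul, LinearMap.toMatrix'_toLin',
      LinearMap.toMatrix'_toLin', trAB]
  · rw [LinearMap.trace_eq_matrix_trace K (Pi.basisFun K (Fin 4)),
      LinearMap.toMatrix_eq_toMatrix', LinearMap.toMatrix'_mul, LinearMap.toMatrix'_mul,
      LinearMap.toMatrix'_toLin', LinearMap.toMatrix'_toLin', trAAB]
  · rw [LinearMap.trace_eq_matrix_trace K (Pi.basisFun K (Fin 4)),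
      LinearMap.toMatrix_eq_toMatrix', LinearMap.toMatrix'_mul, LinearMap.toMatrix'_mul,
      LinearMap.toMatrix'_toLin', LinearMap.toMatrix'_toLin', trABB]
  · intro c
    rw [toMat_sub (Pi.basisFun K (Fin 4)), LinearMap.toMatrix_eq_toMatrix',
      LinearMap.toMatrix'_toLin', show MA K = LA 0 3 8 15 1 1 1 from rfl, detLA]
  · intro c
    rw [toMat_sub (Pi.basisFun K (Fin 4)), LinearMap.toMatrix_eq_toMatrix',
      LinearMap.toMatrix'_toLin', show MB K = UB 0 4 10 18 (-63) (-124) (-129) from rfl, detUB]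

end Q116.Leonard
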