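import Mathlib

set_option autoImplicit false

namespace Q116.Mad

/-- the (real valued) function maximised by the clique-type graphs, times `n` -/
noncomputable def g (n x : ℕ) : ℝ := ((x : ℝ) - 1) * ((n : ℝ) * ((n : ℝ) - 1) - (x : ℝ) * ((x : ℝ) - 1))

lemma gbig (n : ℕ) (hn : 8 ≤ n) :
    10 * ((n : ℝ) * ((n : ℝ) - 1)) ^ 2 ≤ 28 * (n : ℝ) * g n ((4 * n + 6) / 7) := by
  rcases lt_or_ge n 28 with h | h
  · interval_cases n <;> norm_num [g]
  · obtain ⟨x, hx⟩ : ∃ x, x = (4 * n + 6) / 7 := ⟨_, rfl⟩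
    rw [← hx]
    have h1 : 4 * n ≤ 7 * x := by omega
    have h2 : 7 * x ≤ 4 * n + 6 := by omega
    have h1' : 4 * (n : ℝ) ≤ 7 * x := by exact_mod_cast h1
    have h2' : 7 * (x : ℝ) ≤ 4 * n + 6 := by exact_mod_cast h2
    have hn' : (28 : ℝ) ≤ n := by exact_mod_cast h
    have k1 : (4 * (n : ℝ) - 7) / 7 ≤ (x : ℝ) - 1 := by linarith
    have k2 : (33 * (n : ℝ) ^ 2 - 69 * n + 6) / 49 ≤
        (n : ℝ) * ((n : ℝ) - 1) - (x : ℝ) * ((x : ℝ) - 1) := by
      have : (x : ℝ) * ((x : ℝ) - 1) ≤ ((4 * (n : ℝ) + 6) / 7) * ((4 * (n : ℝ) + 6) / 7 - 1) := by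
        apply mul_le_mul <;> nlinarith
      nlinarith
    have k3 : 0 ≤ (33 * (n : ℝ) ^ 2 - 69 * n + 6) / 49 := by nlinarith
    have k4 : 0 ≤ (4 * (n : ℝ) - 7) / 7 := by linarith
    have k5 : ((4 * (n : ℝ) - 7) / 7) * ((33 * (n : ℝ) ^ 2 - 69 * n + 6) / 49) ≤ g n x := by
      unfold g
      exact mul_le_mul k1 k2 k3 (by linarith)
    have k6 : 10 * ((n : ℝ) * ((n : ℝ) - 1)) ^ 2 ≤
        28 * (n : ℝ) * (((4 * (n : ℝ) - 7) / 7) * ((33 * (n : ℝ) ^ 2 - 69 * n + 6) / 49)) := by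
      have : 0 ≤ (n : ℝ) * ((n : ℝ) * ((38 / 49 : ℝ) * (n : ℝ) * ((n : ℝ) - 28) + (16 / 49) * (n : ℝ)
          + 2004 / 49 * n - 10 * n) ) := by nlinarith
      nlinarith
    nlinarith

/-- second step: the bound from one inequality -/
lemma fin1 (n X : ℕ) (hn : 8 ≤ n) (hX1 : 1 ≤ X) (hXn : X ≤ n) (y s : ℝ) (hy0 : 0 ≤ y)
    (hyX : y ≤ (X : ℝ) - 1) (h : (n : ℝ) * s ≤ n * ((n : ℝ) - 1) - X * y) :
    ∃ x : ℕ, 1 ≤ x ∧ x ≤ n ∧ (n : ℝ) * (y * s) ≤ g n x := by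
  have hX1' : (1 : ℝ) ≤ X := by exact_mod_cast hX1
  have hn' : (8 : ℝ) ≤ n := by exact_mod_cast hn
  have h0 : (n : ℝ) * (y * s) ≤ y * (n * ((n : ℝ) - 1) - X * y) := by
    have := mul_le_mul_of_nonneg_left h hy0
    linarith [this, mul_comm y ((n : ℝ) * s), mul_assoc (n : ℝ) s y, mul_comm s y,
      mul_assoc (n : ℝ) y s]
  by_cases hc : 2 * (X : ℝ) * (X - 1) ≤ n * ((n : ℝ) - 1)
  · refine ⟨X, hX1, hXn, h0.trans ?_⟩
    unfold g
    have e : ((X : ℝ) - 1) * (n * ((n : ℝ) - 1) - X * ((X : ℝ) - 1)) - y * (n * ((n : ℝ) - 1) - X * y)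
        = (X - 1 - y) * (n * ((n : ℝ) - 1) - X * (X - 1 + y)) := by ring
    have : 0 ≤ ((X : ℝ) - 1 - y) * (n * ((n : ℝ) - 1) - X * (X - 1 + y)) := by
      apply mul_nonneg (by linarith)
      nlinarith
    linarith
  · push Not at hc
    refine ⟨(4 * n + 6) / 7, by omega, by omega, h0.trans ?_⟩
    have hb := gbig n hn
    have hX7 : 7 * (n : ℝ) < 10 * X := by
      by_contra hcon
      push Not at hcon
      nlinarith
    have h4 : 4 * (X : ℝ) * (y * (n * ((n : ℝ) - 1) - X * y)) ≤ (n * ((n : ℝ) - 1)) ^ 2 := by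
      nlinarith [sq_nonneg (n * ((n : ℝ) - 1) - 2 * X * y)]
    by_contra hcon
    push Not at hcon
    have hgpos : 0 ≤ g n ((4 * n + 6) / 7) := by
      by_contra hneg
      push Not at hneg
      nlinarith [sq_nonneg ((n : ℝ) * ((n : ℝ) - 1))]
    have h5 : 28 * (n : ℝ) * g n ((4 * n + 6) / 7) ≤ 40 * X * g n ((4 * n + 6) / 7) := by
      nlinarith
    have h6 : 40 * (X : ℝ) * g n ((4 * n + 6) / 7) < 40 * X * (y * (n * ((n : ℝ) - 1) - X * y)) := by
      apply mul_lt_mul_of_pos_left hcon; positivity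
    linarith

lemma lin_neg (α β l r t : ℝ) (hl : l ≤ t) (hr : t ≤ r) (h1 : α * l + β < 0) (h2 : α * r + β < 0) :
    α * t + β < 0 := by
  rcases le_total 0 α with h | h
  · nlinarith
  · nlinarith

lemma corner1 (n X Y ε δ : ℝ) (hn : 8 ≤ n) (hX1 : 1 ≤ X) (hY1 : 1 ≤ Y) (hε1 : ε < 1) (hδ1 : δ < 1)
    (h1 : 2 * n + 2 ≤ X + 2 * Y) (h2 : 2 * n + 2 ≤ 2 * X + Y) :
    -((X + Y - n) * (X + Y - n - 1)) + (ε * X + δ * Y) < 0 := by
  have hK : n + 4 ≤ 3 * (X + Y - n) := by linarith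
  obtain ⟨K, hKd⟩ : ∃ K, K = X + Y - n := ⟨_, rfl⟩
  rw [← hKd] at hK ⊢
  have hKK : n ≤ K * (K - 2) := by nlinarith
  have e1 : ε * X < X := by nlinarith
  have e2 : δ * Y < Y := by nlinarith
  have e3 : K * (K - 1) = K * (K - 2) + K := by ring
  linarith

lemma corner2 (n X Y ε δ : ℝ) (hYn : Y ≤ n) (hδ0 : 0 ≤ δ)
    (h2 : 2 * X + Y ≤ 2 * n + 1) (hi : n * (n - 1) - X * (X - 1 - ε) < n * (Y - 1 - δ)) :
    -((X + Y - n) * (X + Y - n - 1)) + (ε * X + δ * Y) < 0 := by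
  have e1 : 0 ≤ (n - Y) * (2 * n + 1 - (2 * X + Y)) :=
    mul_nonneg (by linarith) (by linarith)
  have e2 : (X + Y - n) * (X + Y - n - 1) =
      (n * (Y - 1) + X * (X - 1) - n * (n - 1)) + (n - Y) * (2 * n + 1 - (2 * X + Y)) := by ring
  have e3 : δ * Y ≤ δ * n := mul_le_mul_of_nonneg_left hYn hδ0
  have e4 : n * (Y - 1 - δ) = n * (Y - 1) - δ * n := by ring
  have e5 : X * (X - 1 - ε) = X * (X - 1) - ε * X := by ring
  rw [e4, e5] at hi
  rw [e2]
  linarith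

lemma dich (n a b X Y : ℕ) (hn : 8 ≤ n) (hXa : X ≤ a) (ha : a ≤ n) (hYb : Y ≤ b) (hb : b ≤ n)
    (hX1 : 1 ≤ X) (hY1 : 1 ≤ Y)
    (y s : ℝ) (hy1 : (X : ℝ) - 2 < y) (hy2 : y ≤ (X : ℝ) - 1) (hs1 : (Y : ℝ) - 2 < s)
    (hs2 : s ≤ (Y : ℝ) - 1) (hy0 : 0 ≤ y) (hs0 : 0 ≤ s)
    (hT : (a : ℝ) * y + b * s ≤ n * ((n : ℝ) - 1) - 2 * ((n : ℝ) - a) * ((n : ℝ) - b)) :
    (n : ℝ) * s ≤ n * ((n : ℝ) - 1) - X * y ∨ (n : ℝ) * y ≤ n * ((n : ℝ) - 1) - Y * s := by
  by_contra hcon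
  push Not at hcon
  obtain ⟨hi, hii⟩ := hcon
  have hXn : (X : ℝ) ≤ n := by exact_mod_cast hXa.trans ha
  have hYn : (Y : ℝ) ≤ n := by exact_mod_cast hYb.trans hb
  have hXa' : (X : ℝ) ≤ a := by exact_mod_cast hXa
  have hYb' : (Y : ℝ) ≤ b := by exact_mod_cast hYb
  have ha' : (a : ℝ) ≤ n := by exact_mod_cast ha
  have hb' : (b : ℝ) ≤ n := by exact_mod_cast hb
  have hn' : (8 : ℝ) ≤ n := by exact_mod_cast hn
  have hX1' : (1 : ℝ) ≤ X := by exact_mod_cast hX1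
  have hY1' : (1 : ℝ) ≤ Y := by exact_mod_cast hY1
  -- the four corners
  have c1 : n * ((n : ℝ) - 1) - 2 * ((n : ℝ) - X) * ((n : ℝ) - n) - X * y - n * s < 0 := by
    nlinarith
  have c2 : n * ((n : ℝ) - 1) - 2 * ((n : ℝ) - n) * ((n : ℝ) - Y) - n * y - Y * s < 0 := by
    nlinarith
  have c3 : n * ((n : ℝ) - 1) - 2 * ((n : ℝ) - n) * ((n : ℝ) - n) - n * y - n * s < 0 := by
    nlinarith
  have c4 : n * ((n : ℝ) - 1) - 2 * ((n : ℝ) - X) * ((n : ℝ) - Y) - X * y - Y * s < 0 := by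
    obtain ⟨ε, hε⟩ : ∃ ε, ε = (X : ℝ) - 1 - y := ⟨_, rfl⟩
    obtain ⟨δ, hδ⟩ : ∃ δ, δ = (Y : ℝ) - 1 - s := ⟨_, rfl⟩
    have hε0 : 0 ≤ ε := by linarith
    have hε1 : ε < 1 := by linarith
    have hδ0 : 0 ≤ δ := by linarith
    have hδ1 : δ < 1 := by linarith
    have hy : y = X - 1 - ε := by linarith
    have hs : s = Y - 1 - δ := by linarith
    have key : n * ((n : ℝ) - 1) - 2 * ((n : ℝ) - X) * ((n : ℝ) - Y) - X * y - Y * s =
        -((X + Y - n) * (X + Y - n - 1)) + (ε * X + δ * Y) := by rw [hy, hs]; ring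
    rw [key]
    rcases Nat.lt_or_ge (2 * n + 1) (X + 2 * Y) with h1 | h1
    · rcases Nat.lt_or_ge (2 * n + 1) (2 * X + Y) with h2 | h2
      · have h1' : 2 * (n : ℝ) + 2 ≤ X + 2 * Y := by exact_mod_cast h1
        have h2' : 2 * (n : ℝ) + 2 ≤ 2 * X + Y := by exact_mod_cast h2
        exact corner1 n X Y ε δ hn' hX1' hY1' hε1 hδ1 h1' h2'
      · have h2' : 2 * (X : ℝ) + Y ≤ 2 * n + 1 := by exact_mod_cast h2
        exact corner2 n X Y ε δ hYn hδ0 h2' (by rw [← hy, ← hs]; linarith)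
    · have h1' : (X : ℝ) + 2 * Y ≤ 2 * n + 1 := by exact_mod_cast h1
      have := corner2 n Y X δ ε hXn hε0 (by linarith) (by rw [← hy, ← hs]; linarith)
      have e : ((Y : ℝ) + X - n) * (Y + X - n - 1) = (X + Y - n) * (X + Y - n - 1) := by ring
      rw [e] at this
      linarith
  -- bilinear interpolation
  have d1 : n * ((n : ℝ) - 1) - 2 * ((n : ℝ) - X) * ((n : ℝ) - b) - X * y - b * s < 0 := by
    have := lin_neg (2 * ((n : ℝ) - X) - s) (n * ((n : ℝ) - 1) - 2 * ((n : ℝ) - X) * n - X * y)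
      Y n b hYb' hb' (by linarith) (by linarith)
    linarith
  have d2 : n * ((n : ℝ) - 1) - 2 * ((n : ℝ) - n) * ((n : ℝ) - b) - n * y - b * s < 0 := by
    have := lin_neg (2 * ((n : ℝ) - n) - s) (n * ((n : ℝ) - 1) - 2 * ((n : ℝ) - n) * n - n * y)
      Y n b hYb' hb' (by linarith) (by linarith)
    linarith
  have d3 : n * ((n : ℝ) - 1) - 2 * ((n : ℝ) - a) * ((n : ℝ) - b) - a * y - b * s < 0 := by
    have := lin_neg (2 * ((n : ℝ) - b) - y) (n * ((n : ℝ) - 1) - 2 * n * ((n : ℝ) - b) - b * s)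
      X n a hXa' ha' (by linarith) (by linarith)
    linarith
  linarith

theorem num_big (n : ℕ) (hn : 8 ≤ n) (a b : ℕ) (ha1 : 1 ≤ a) (ha : a ≤ n) (hb1 : 1 ≤ b)
    (hb : b ≤ n) (y s : ℝ) (hy0 : 0 ≤ y) (hs0 : 0 ≤ s) (hya : y ≤ (a : ℝ) - 1)
    (hsb : s ≤ (b : ℝ) - 1)
    (hT : (a : ℝ) * y + b * s ≤ n * ((n : ℝ) - 1) - 2 * ((n : ℝ) - a) * ((n : ℝ) - b)) :
    ∃ x : ℕ, 1 ≤ x ∧ x ≤ n ∧ (n : ℝ) * (y * s) ≤ g n x := by
  obtain ⟨X, hX⟩ : ∃ X, X = ⌈y⌉₊ + 1 := ⟨_, rfl⟩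
  obtain ⟨Y, hY⟩ : ∃ Y, Y = ⌈s⌉₊ + 1 := ⟨_, rfl⟩
  have hXa : X ≤ a := by
    have : ⌈y⌉₊ ≤ a - 1 := Nat.ceil_le.mpr (by rw [Nat.cast_sub ha1]; simpa using hya)
    omega
  have hYb : Y ≤ b := by
    have : ⌈s⌉₊ ≤ b - 1 := Nat.ceil_le.mpr (by rw [Nat.cast_sub hb1]; simpa using hsb)
    omega
  have hX2 : y ≤ (X : ℝ) - 1 := by rw [hX]; push_cast; linarith [Nat.le_ceil y]
  have hX1 : (X : ℝ) - 2 < y := by rw [hX]; push_cast; linarith [Nat.ceil_lt_add_one hy0]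
  have hY2 : s ≤ (Y : ℝ) - 1 := by rw [hY]; push_cast; linarith [Nat.le_ceil s]
  have hY1 : (Y : ℝ) - 2 < s := by rw [hY]; push_cast; linarith [Nat.ceil_lt_add_one hs0]
  rcases dich n a b X Y hn hXa ha hYb hb (by omega) (by omega) y s hX1 hX2 hY1 hY2 hy0 hs0 hT with
    h | h
  · exact fin1 n X hn (by omega) (by omega) y s hy0 hX2 h
  · obtain ⟨x, h1, h2, h3⟩ := fin1 n Y hn (by omega) (by omega) s y hs0 hY2 h
    exact ⟨x, h1, h2, by rw [mul_comm y s]; exact h3⟩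


/-! ### small `n` -/

lemma small : ∀ n ∈ Finset.range 8, ∀ a ∈ Finset.range (n + 1), ∀ b ∈ Finset.range (n + 1),
    1 ≤ a → 1 ≤ b → ∀ e ∈ Finset.range (a.choose 2 + 1),
    ∃ x ∈ Finset.range (n + 1), 1 ≤ x ∧
    n * (4 * (e * min (b.choose 2) (a.choose 2 + b.choose 2 - (a + b - n).choose 2 - e))) ≤
      a * b * ((x - 1) * (n * (n - 1) - x * (x - 1))) := by
  decide +kernel

lemma gcast (n x : ℕ) (hx : 1 ≤ x) (hxn : x ≤ n) :
    (((x - 1) * (n * (n - 1) - x * (x - 1)) : ℕ) : ℝ) = g n x := by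
  have h : x * (x - 1) ≤ n * (n - 1) := Nat.mul_le_mul hxn (by omega)
  have hn : 1 ≤ n := hx.trans hxn
  unfold g
  rw [Nat.cast_mul, Nat.cast_sub h, Nat.cast_mul, Nat.cast_mul, Nat.cast_sub hx, Nat.cast_sub hn]
  simp

lemma choose_real (k : ℕ) : 2 * ((k.choose 2 : ℕ) : ℝ) = (k : ℝ) * ((k : ℝ) - 1) := by
  rw [Nat.cast_choose_two]; ring

/-- The numerical bound for all `n`. -/
theorem num (n a b c e1 e2 : ℕ) (ha1 : 1 ≤ a) (ha : a ≤ n) (hb1 : 1 ≤ b) (hb : b ≤ n)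
    (hc : a + b ≤ c + n) (h1 : e1 ≤ a.choose 2) (h2 : e2 ≤ b.choose 2)
    (h3 : e1 + e2 + c.choose 2 ≤ a.choose 2 + b.choose 2) :
    ∃ x : ℕ, 1 ≤ x ∧ x ≤ n ∧ (n : ℝ) * ((2 * e1 / a) * (2 * e2 / b)) ≤ g n x := by
  have hapos : (0 : ℝ) < a := by exact_mod_cast ha1
  have hbpos : (0 : ℝ) < b := by exact_mod_cast hb1
  have h1' : (e1 : ℝ) ≤ (a.choose 2 : ℕ) := by exact_mod_cast h1
  have h2' : (e2 : ℝ) ≤ (b.choose 2 : ℕ) := by exact_mod_cast h2
  have h3' : (e1 : ℝ) + e2 + (c.choose 2 : ℕ) ≤ (a.choose 2 : ℕ) + (b.choose 2 : ℕ) := by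
    exact_mod_cast h3
  have ca := choose_real a
  have cb := choose_real b
  have cc := choose_real c
  have hy : (2 * (e1 : ℝ) / a) ≤ (a : ℝ) - 1 := by
    rw [div_le_iff₀ hapos]; linarith
  have hs : (2 * (e2 : ℝ) / b) ≤ (b : ℝ) - 1 := by
    rw [div_le_iff₀ hbpos]; linarith
  rcases Nat.lt_or_ge n 8 with hn | hn
  · -- small n
    obtain ⟨x, hx1, hx2, hx3⟩ := small n (Finset.mem_range.mpr hn) a
      (Finset.mem_range.mpr (by omega)) b (Finset.mem_range.mpr (by omega)) ha1 hb1 e1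
      (Finset.mem_range.mpr (by omega))
    rw [Finset.mem_range] at hx1
    refine ⟨x, hx2, by omega, ?_⟩
    have hmono : (a + b - n).choose 2 ≤ c.choose 2 := Nat.choose_le_choose 2 (by omega)
    have he2 : e2 ≤ min (b.choose 2) (a.choose 2 + b.choose 2 - (a + b - n).choose 2 - e1) := by
      apply le_min h2; omega
    have h5 : n * (4 * (e1 * e2)) ≤ a * b * ((x - 1) * (n * (n - 1) - x * (x - 1))) := by
      refine le_trans ?_ hx3
      gcongr
    have h6 : (n : ℝ) * (4 * (e1 * e2)) ≤ a * b * g n x := by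
      rw [← gcast n x hx2 (by omega)]; exact_mod_cast h5
    have h7 : (n : ℝ) * ((2 * e1 / a) * (2 * e2 / b)) = (n : ℝ) * (4 * (e1 * e2)) / (a * b) := by
      field_simp; ring
    rw [h7, div_le_iff₀ (by positivity)]
    linarith
  · rcases Nat.lt_or_ge (a + b) (n + 1) with hab | hab
    · refine ⟨a, ha1, ha, ?_⟩
      have ha1' : (1 : ℝ) ≤ a := by exact_mod_cast ha1
      have hb1' : (1 : ℝ) ≤ b := by exact_mod_cast hb1
      have hab' : (a : ℝ) + b ≤ n := by exact_mod_cast (Nat.lt_succ_iff.mp hab)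
      have hy0 : 0 ≤ (2 * (e1 : ℝ) / a) := by positivity
      have hs0 : 0 ≤ (2 * (e2 : ℝ) / b) := by positivity
      have k1 : (2 * (e1 : ℝ) / a) * (2 * e2 / b) ≤ ((a : ℝ) - 1) * ((b : ℝ) - 1) :=
        mul_le_mul hy hs hs0 (by linarith)
      have k2 : (n : ℝ) * (((a : ℝ) - 1) * ((b : ℝ) - 1)) ≤ g n a := by
        unfold g
        have e : (n : ℝ) * ((n : ℝ) - 1) - a * ((a : ℝ) - 1) = ((n : ℝ) - a) * (n + a - 1) := by ring
        rw [e]
        have k3 : (n : ℝ) * ((b : ℝ) - 1) ≤ ((n : ℝ) - a) * (n + a - 1) := by nlinarith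
        nlinarith
      have hn0 : (0 : ℝ) ≤ n := Nat.cast_nonneg n
      exact (mul_le_mul_of_nonneg_left k1 hn0).trans k2
    · refine num_big n hn a b ha1 ha hb1 hb _ _ (by positivity) (by positivity) hy hs ?_
      have e1' : (a : ℝ) * (2 * e1 / a) = 2 * e1 := by field_simp
      have e2' : (b : ℝ) * (2 * e2 / b) = 2 * e2 := by field_simp
      rw [e1', e2']
      have hK : ((a + b - n : ℕ) : ℝ) = (a : ℝ) + b - n := by
        rw [Nat.cast_sub (by omega)]; push_cast; ring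
      have hmono : (a + b - n).choose 2 ≤ c.choose 2 := Nat.choose_le_choose 2 (by omega)
      have hmono' : (((a + b - n).choose 2 : ℕ) : ℝ) ≤ (c.choose 2 : ℕ) := by exact_mod_cast hmono
      have cK := choose_real (a + b - n)
      rw [hK] at cK
      nlinarith

/-! ### graphs -/

open Finset

/-- average degree of a subgraph -/
noncomputable def avgDeg {V : Type} {G : SimpleGraph V} (H : G.Subgraph) : ℝ :=
  2 * (H.edgeSet.ncard : ℝ) / (H.verts.ncard : ℝ)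

/-- maximum average degree -/
noncomputable def Mad {V : Type} (G : SimpleGraph V) : ℝ :=
  sSup {d : ℝ | ∃ H : G.Subgraph, H.verts.Nonempty ∧ d = avgDeg H}

/-- `f(n)` -/
noncomputable def f (n : ℕ) : ℝ :=
  sSup {p : ℝ | ∃ G : SimpleGraph (Fin n), p = Mad G * Mad Gᶜ}

/-- the graph `G_{n,x}`: a clique on the first `x` vertices and `n - x` isolated vertices -/
def cliqueType (n x : ℕ) : SimpleGraph (Fin n) where
  Adj i j := i ≠ j ∧ (i : ℕ) < x ∧ (j : ℕ) < x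
  symm := ⟨fun _ _ h => ⟨h.1.symm, h.2.2, h.2.1⟩⟩
  loopless := ⟨fun _ h => h.1 rfl⟩

/-- the optimal clique size -/
noncomputable def bestX (n : ℕ) : ℕ := sInf {x : ℕ | 1 ≤ x ∧ n * (n - 1) ≤ x * (3 * x - 1)}

variable {n : ℕ}

/-- all pairs inside `A` -/
noncomputable def P (A : Finset (Fin n)) : Finset (Sym2 (Fin n)) := A.offDiag.image (Function.uncurry Sym2.mk)

lemma mem_P (A : Finset (Fin n)) (x y : Fin n) : s(x, y) ∈ P A ↔ x ∈ A ∧ y ∈ A ∧ x ≠ y := by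
  unfold P
  rw [Finset.mem_image]
  constructor
  · rintro ⟨⟨a, b⟩, h, e⟩
    rw [Finset.mem_offDiag] at h
    rw [Function.uncurry_apply_pair, Sym2.eq_iff] at e
    rcases e with ⟨rfl, rfl⟩ | ⟨rfl, rfl⟩
    · exact h
    · exact ⟨h.2.1, h.1, h.2.2.symm⟩
  · rintro ⟨h1, h2, h3⟩
    exact ⟨(x, y), Finset.mem_offDiag.mpr ⟨h1, h2, h3⟩, rfl⟩

lemma card_P (A : Finset (Fin n)) : (P A).card = A.card.choose 2 := Sym2.card_image_offDiag A

lemma P_inter (A B : Finset (Fin n)) : P A ∩ P B = P (A ∩ B) := by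
  ext e
  induction e using Sym2.ind with
  | _ x y =>
    rw [Finset.mem_inter, mem_P, mem_P, mem_P]
    simp only [Finset.mem_inter]
    tauto

/-- edges of a subgraph are pairs in the vertex set -/
lemma edges_subset {G : SimpleGraph (Fin n)} (H : G.Subgraph) :
    ∃ (A : Finset (Fin n)) (E : Finset (Sym2 (Fin n))), (A : Set (Fin n)) = H.verts ∧
      (E : Set (Sym2 (Fin n))) = H.edgeSet ∧ E ⊆ P A ∧ (∀ e ∈ E, e ∈ G.edgeSet) := by
  classical
  refine ⟨(Set.toFinite H.verts).toFinset, (Set.toFinite H.edgeSet).toFinset,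
    Set.Finite.coe_toFinset _, Set.Finite.coe_toFinset _,
    ?_, ?_⟩
  · intro e he
    rw [Set.Finite.mem_toFinset] at he
    induction e using Sym2.ind with
    | _ x y =>
      rw [SimpleGraph.Subgraph.mem_edgeSet] at he
      rw [mem_P]
      simp only [Set.Finite.mem_toFinset]
      exact ⟨he.fst_mem, he.snd_mem, he.ne⟩
  · intro e he
    rw [Set.Finite.mem_toFinset] at he
    exact H.edgeSet_subset he

/-- the counting inequality -/
lemma count {G : SimpleGraph (Fin n)} (H : G.Subgraph) (H' : Gᶜ.Subgraph)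
    (hH : H.verts.Nonempty) (hH' : H'.verts.Nonempty) :
    ∃ x : ℕ, 1 ≤ x ∧ x ≤ n ∧ (n : ℝ) * (avgDeg H * avgDeg H') ≤ g n x := by
  classical
  obtain ⟨A, E, hA, hE, hEP, hEG⟩ := edges_subset H
  obtain ⟨B, F, hB, hF, hFP, hFG⟩ := edges_subset H'
  have hdisj : Disjoint E F := by
    rw [Finset.disjoint_left]
    intro e he hf
    have h1 := hEG e he
    have h2 := hFG e hf
    induction e using Sym2.ind with
    | _ x y =>
      rw [SimpleGraph.mem_edgeSet] at h1 h2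
      exact ((SimpleGraph.compl_adj G x y).mp h2).2 h1
  have hcard : E.card + F.card + ((A ∩ B).card.choose 2) ≤ A.card.choose 2 + B.card.choose 2 := by
    have h1 : E ∪ F ⊆ P A ∪ P B := Finset.union_subset_union hEP hFP
    have h2 := Finset.card_le_card h1
    rw [Finset.card_union_of_disjoint hdisj] at h2
    have h3 := Finset.card_union_add_card_inter (P A) (P B)
    rw [P_inter, card_P, card_P, card_P] at h3
    omega
  have hAn : A.Nonempty := by rw [← Finset.coe_nonempty, hA]; exact hH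
  have hBn : B.Nonempty := by rw [← Finset.coe_nonempty, hB]; exact hH'
  have hc : A.card + B.card ≤ (A ∩ B).card + n := by
    have h1 := Finset.card_union_add_card_inter A B
    have h2 : (A ∪ B).card ≤ n := by simpa using Finset.card_le_univ (A ∪ B)
    omega
  have hAle : A.card ≤ n := by simpa using Finset.card_le_univ A
  have hBle : B.card ≤ n := by simpa using Finset.card_le_univ B
  have e1 : avgDeg H = 2 * (E.card : ℝ) / A.card := by
    unfold avgDeg; rw [← hA, ← hE, Set.ncard_coe_finset, Set.ncard_coe_finset]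
  have e2 : avgDeg H' = 2 * (F.card : ℝ) / B.card := by
    unfold avgDeg; rw [← hB, ← hF, Set.ncard_coe_finset, Set.ncard_coe_finset]
  rw [e1, e2]
  exact num n A.card B.card (A ∩ B).card E.card F.card hAn.card_pos hAle hBn.card_pos hBle hc
    ((Finset.card_le_card hEP).trans_eq (card_P A)) ((Finset.card_le_card hFP).trans_eq (card_P B))
    hcard

lemma avgDeg_nonneg {V : Type} {G : SimpleGraph V} (H : G.Subgraph) : 0 ≤ avgDeg H := by
  unfold avgDeg; positivity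

lemma set_finite (G : SimpleGraph (Fin n)) :
    {d : ℝ | ∃ H : G.Subgraph, H.verts.Nonempty ∧ d = avgDeg H}.Finite := by
  apply (Set.finite_range (fun H : G.Subgraph => avgDeg H)).subset
  rintro d ⟨H, -, rfl⟩
  exact ⟨H, rfl⟩

lemma exists_Mad (hn : 1 ≤ n) (G : SimpleGraph (Fin n)) :
    ∃ H : G.Subgraph, H.verts.Nonempty ∧ Mad G = avgDeg H := by
  have hne : {d : ℝ | ∃ H : G.Subgraph, H.verts.Nonempty ∧ d = avgDeg H}.Nonempty :=
    ⟨_, ⊤, ⟨⟨0, hn⟩, trivial⟩, rfl⟩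
  exact hne.csSup_mem (set_finite G)

lemma le_Mad (G : SimpleGraph (Fin n)) (H : G.Subgraph) (hH : H.verts.Nonempty) :
    avgDeg H ≤ Mad G :=
  le_csSup (set_finite G).bddAbove ⟨H, hH, rfl⟩

lemma upper (hn : 1 ≤ n) (G : SimpleGraph (Fin n)) :
    ∃ x : ℕ, 1 ≤ x ∧ x ≤ n ∧ (n : ℝ) * (Mad G * Mad Gᶜ) ≤ g n x := by
  obtain ⟨H, h1, h2⟩ := exists_Mad hn G
  obtain ⟨H', h1', h2'⟩ := exists_Mad hn Gᶜ
  rw [h2, h2']
  exact count H H' h1 h1'

/-- average degree of the subgraph induced on `A` -/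
lemma induce_le (G : SimpleGraph (Fin n)) (A : Finset (Fin n)) (hA : A.Nonempty)
    (E : Finset (Sym2 (Fin n))) (hE : ∀ x y, s(x, y) ∈ E → x ∈ A ∧ y ∈ A ∧ G.Adj x y) :
    2 * (E.card : ℝ) / A.card ≤ Mad G := by
  classical
  let H : G.Subgraph := (⊤ : G.Subgraph).induce (A : Set (Fin n))
  refine le_trans ?_ (le_Mad G H hA)
  unfold avgDeg
  have h1 : H.verts.ncard = A.card := by
    change (A : Set (Fin n)).ncard = _
    rw [Set.ncard_coe_finset]
  have h2 : E.card ≤ H.edgeSet.ncard := by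
    rw [← Set.ncard_coe_finset]
    apply Set.ncard_le_ncard _ (Set.toFinite _)
    intro e he
    induction e using Sym2.ind with
    | _ x y =>
      obtain ⟨hx, hy, hadj⟩ := hE x y he
      rw [SimpleGraph.Subgraph.mem_edgeSet]
      exact ⟨hx, hy, hadj⟩
  rw [h1]
  have h3 : (E.card : ℝ) ≤ H.edgeSet.ncard := by exact_mod_cast h2
  have h4 : (0 : ℝ) < A.card := by exact_mod_cast hA.card_pos
  gcongr

/-- the first `x` vertices -/
def firstX (n x : ℕ) : Finset (Fin n) := Finset.univ.filter (fun i => (i : ℕ) < x)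

lemma card_firstX (x : ℕ) (hx : x ≤ n) : (firstX n x).card = x := by
  unfold firstX
  rw [Fin.card_filter_val_lt]
  exact min_eq_right hx

lemma Mad_clique (x : ℕ) (hx1 : 1 ≤ x) (hx : x ≤ n) : (x : ℝ) - 1 ≤ Mad (cliqueType n x) := by
  have hne : (firstX n x).Nonempty := by
    rw [← Finset.card_pos, card_firstX x hx]; omega
  have := induce_le (cliqueType n x) (firstX n x) hne (P (firstX n x)) (by
    intro a b h
    rw [mem_P] at h
    refine ⟨h.1, h.2.1, h.2.2, ?_, ?_⟩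
    · simpa [firstX] using h.1
    · simpa [firstX] using h.2.1)
  rw [card_P, card_firstX x hx, choose_real] at this
  have hx0 : (x : ℝ) ≠ 0 := by positivity
  have e : (x : ℝ) * ((x : ℝ) - 1) / x = (x : ℝ) - 1 := by field_simp
  rwa [e] at this

lemma Mad_cliqueCompl (x : ℕ) (hx1 : 1 ≤ x) (hx : x ≤ n) :
    ((n : ℝ) * (n - 1) - x * (x - 1)) / n ≤ Mad (cliqueType n x)ᶜ := by
  have hne : (Finset.univ : Finset (Fin n)).Nonempty := ⟨⟨0, by omega⟩, Finset.mem_univ _⟩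
  have := induce_le (cliqueType n x)ᶜ Finset.univ hne (P Finset.univ \ P (firstX n x)) (by
    intro a b h
    rw [Finset.mem_sdiff, mem_P, mem_P] at h
    refine ⟨Finset.mem_univ _, Finset.mem_univ _, ?_⟩
    rw [SimpleGraph.compl_adj]
    refine ⟨h.1.2.2, fun hadj => h.2 ⟨?_, ?_, h.1.2.2⟩⟩
    · simpa [firstX] using hadj.2.1
    · simpa [firstX] using hadj.2.2)
  rw [Finset.card_univ, Fintype.card_fin] at this
  refine le_trans (le_of_eq ?_) this
  have hsub : P (firstX n x) ⊆ P Finset.univ := by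
    intro e
    induction e using Sym2.ind with
    | _ a b => rw [mem_P, mem_P]; exact fun h => ⟨Finset.mem_univ _, Finset.mem_univ _, h.2.2⟩
  rw [Finset.card_sdiff_of_subset hsub, card_P, card_P, Finset.card_univ, Fintype.card_fin,
    card_firstX x hx, Nat.cast_sub (Nat.choose_le_choose 2 hx)]
  congr 1
  have k1 := choose_real n
  have k2 := choose_real x
  linarith

lemma lower (x : ℕ) (hx1 : 1 ≤ x) (hx : x ≤ n) :
    g n x ≤ (n : ℝ) * (Mad (cliqueType n x) * Mad (cliqueType n x)ᶜ) := by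
  have h1 := Mad_clique x hx1 hx
  have h2 := Mad_cliqueCompl x hx1 hx
  have hn0 : (0 : ℝ) < n := by exact_mod_cast (hx1.trans hx)
  have hx1' : (1 : ℝ) ≤ x := by exact_mod_cast hx1
  have hx' : (x : ℝ) ≤ n := by exact_mod_cast hx
  have h3 : 0 ≤ ((n : ℝ) * (n - 1) - x * (x - 1)) / n := by
    apply div_nonneg _ hn0.le
    nlinarith
  have h4 := mul_le_mul h1 h2 h3 (by linarith)
  have h5 : g n x = (n : ℝ) * (((x : ℝ) - 1) * (((n : ℝ) * (n - 1) - x * (x - 1)) / n)) := by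
    unfold g; field_simp
  rw [h5]
  exact mul_le_mul_of_nonneg_left h4 hn0.le

lemma bestX_spec (hn : 1 ≤ n) : 1 ≤ bestX n ∧ n * (n - 1) ≤ bestX n * (3 * bestX n - 1) := by
  have : (bestX n) ∈ {x : ℕ | 1 ≤ x ∧ n * (n - 1) ≤ x * (3 * x - 1)} :=
    Nat.sInf_mem ⟨n, hn, Nat.mul_le_mul le_rfl (by omega)⟩
  exact this

lemma bestX_le (hn : 1 ≤ n) : bestX n ≤ n := Nat.sInf_le ⟨hn, Nat.mul_le_mul le_rfl (by omega)⟩

lemma g_step (x : ℕ) : g n (x + 1) - g n x = (n : ℝ) * (n - 1) - x * (3 * x - 1) := by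
  unfold g; push_cast; ring

lemma g_up (hn : 1 ≤ n) (x : ℕ) (hx1 : 1 ≤ x) (hx : x < bestX n) : g n x ≤ g n (x + 1) := by
  have h1 : ¬ (1 ≤ x ∧ n * (n - 1) ≤ x * (3 * x - 1)) := Nat.notMem_of_lt_sInf hx
  have h2 : x * (3 * x - 1) < n * (n - 1) := by
    by_contra hcon
    exact h1 ⟨hx1, not_lt.mp hcon⟩
  have h3 : (x : ℝ) * (3 * x - 1) < n * (n - 1) := by
    have : ((x * (3 * x - 1) : ℕ) : ℝ) < ((n * (n - 1) : ℕ) : ℝ) := by exact_mod_cast h2
    rw [Nat.cast_mul, Nat.cast_mul, Nat.cast_sub (by omega), Nat.cast_sub hn] at this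
    push_cast at this; exact this
  have := g_step (n := n) x
  linarith

lemma g_down (hn : 1 ≤ n) (x : ℕ) (hx : bestX n ≤ x) : g n (x + 1) ≤ g n x := by
  obtain ⟨h0, h1⟩ := bestX_spec hn
  have h2 : n * (n - 1) ≤ x * (3 * x - 1) := h1.trans (Nat.mul_le_mul hx (by omega))
  have h3 : (n : ℝ) * (n - 1) ≤ x * (3 * x - 1) := by
    have : ((n * (n - 1) : ℕ) : ℝ) ≤ ((x * (3 * x - 1) : ℕ) : ℝ) := by exact_mod_cast h2
    rw [Nat.cast_mul, Nat.cast_mul, Nat.cast_sub (by omega), Nat.cast_sub (show 1 ≤ 3 * x by omega)]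
      at this
    push_cast at this; exact this
  have := g_step (n := n) x
  linarith

lemma g_le_best (hn : 1 ≤ n) (x : ℕ) (hx1 : 1 ≤ x) : g n x ≤ g n (bestX n) := by
  rcases le_total x (bestX n) with h | h
  · obtain ⟨d, hd⟩ := Nat.exists_eq_add_of_le h
    have : ∀ k, x + k ≤ bestX n → g n x ≤ g n (x + k) := by
      intro k
      induction k with
      | zero => intro _; exact le_rfl
      | succ k ih =>
        intro hk
        exact (ih (by omega)).trans (g_up hn (x + k) (by omega) (by omega))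
    have := this d (by omega)
    rwa [← hd] at this
  · obtain ⟨d, rfl⟩ := Nat.exists_eq_add_of_le h
    clear h hx1
    induction d with
    | zero => exact le_rfl
    | succ d ih => exact (g_down hn (bestX n + d) (by omega)).trans ih

theorem main (n : ℕ) (hn : 1 ≤ n) :
    (1 ≤ bestX n ∧ bestX n ≤ n) ∧
    f n = ((bestX n : ℝ) - 1) * ((n : ℝ) * (n - 1) - (bestX n : ℝ) * ((bestX n : ℝ) - 1)) / n ∧
    (∀ G : SimpleGraph (Fin n), Mad G * Mad Gᶜ ≤ f n) ∧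
    Mad (cliqueType n (bestX n)) * Mad (cliqueType n (bestX n))ᶜ = f n := by
  have hn0 : (0 : ℝ) < n := by exact_mod_cast hn
  have hb1 := (bestX_spec hn).1
  have hb2 := bestX_le hn
  have hup : ∀ G : SimpleGraph (Fin n), Mad G * Mad Gᶜ ≤ g n (bestX n) / n := by
    intro G
    obtain ⟨x, hx1, hx2, hx3⟩ := upper hn G
    rw [le_div_iff₀ hn0]
    have := g_le_best hn x hx1
    linarith
  have hcl : Mad (cliqueType n (bestX n)) * Mad (cliqueType n (bestX n))ᶜ = g n (bestX n) / n := by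
    apply le_antisymm (hup _)
    rw [div_le_iff₀ hn0]
    have := lower (n := n) (bestX n) hb1 hb2
    linarith
  have hf : f n = g n (bestX n) / n := by
    have hgr : IsGreatest {p : ℝ | ∃ G : SimpleGraph (Fin n), p = Mad G * Mad Gᶜ}
        (g n (bestX n) / n) := by
      refine ⟨⟨_, hcl.symm⟩, ?_⟩
      rintro p ⟨G, rfl⟩
      exact hup G
    exact hgr.csSup_eq
  refine ⟨⟨hb1, hb2⟩, hf, ?_, ?_⟩
  · intro G; rw [hf]; exact hup G
  · rw [hf]; exact hcl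

end Q116.Mad
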