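import Mathlib

/-!
Oriented graphs of in- and outdegree at most about `K` in which any two of the about
`2 K ^ 2` vertices are joined by a directed path of length two.
-/

namespace Q116.OrL21

/-! ### an additive basis of order two up to sign for `ZMod h`, `h` odd -/

/-- the natural numbers used as shifts -/
def T (h r : ℕ) : Finset ℕ :=
  (Finset.Ico 1 r) ∪ (Finset.Icc 1 ((h - 1) / 2 / r)).image (fun i => i * r)

lemma T_card (h r : ℕ) : (T h r).card ≤ r + (h - 1) / 2 / r := by
  unfold T
  refine (Finset.card_union_le _ _).trans ?_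
  have h1 : (Finset.Ico 1 r).card ≤ r := by simp
  have h2 : ((Finset.Icc 1 ((h - 1) / 2 / r)).image (fun i => i * r)).card ≤ (h - 1) / 2 / r := by
    refine Finset.card_image_le.trans ?_
    simp
  omega

lemma T_range {h r t : ℕ} (hr : r ≤ (h - 1) / 2) (ht : t ∈ T h r) :
    1 ≤ t ∧ t ≤ (h - 1) / 2 := by
  unfold T at ht
  rw [Finset.mem_union] at ht
  rcases ht with ht | ht
  · rw [Finset.mem_Ico] at ht
    omega
  · rw [Finset.mem_image] at ht
    obtain ⟨i, hi, rfl⟩ := ht
    rw [Finset.mem_Icc] at hi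
    have hr0 : 0 < r := by
      rcases Nat.eq_zero_or_pos r with h0 | h0
      · subst h0
        simp at hi
        omega
      · exact h0
    constructor
    · exact Nat.mul_pos hi.1 hr0
    · calc i * r ≤ ((h - 1) / 2 / r) * r := Nat.mul_le_mul_right _ hi.2
        _ ≤ (h - 1) / 2 := Nat.div_mul_le_self _ _

lemma T_cover {h r j : ℕ} (hr : 1 ≤ r) (h1 : 1 ≤ j) (h2 : j ≤ (h - 1) / 2) :
    j ∈ T h r ∨ ∃ a ∈ T h r, ∃ b ∈ T h r, j = a + b := by
  have hdm := Nat.div_add_mod j r
  have hlt := Nat.mod_lt j hr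
  have hq : j / r ≤ (h - 1) / 2 / r := Nat.div_le_div_right h2
  rcases Nat.eq_zero_or_pos (j % r) with h0 | h0
  · left
    unfold T
    rw [Finset.mem_union]
    right
    rw [Finset.mem_image]
    refine ⟨j / r, ?_, ?_⟩
    · rw [Finset.mem_Icc]
      refine ⟨?_, hq⟩
      by_contra hc
      have : j / r = 0 := Nat.lt_one_iff.1 (Nat.lt_of_not_le hc)
      rw [this, h0] at hdm
      omega
    · rw [h0] at hdm
      rw [Nat.mul_comm]
      omega
  · rcases Nat.eq_zero_or_pos (j / r) with h3 | h3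
    · left
      unfold T
      rw [Finset.mem_union]
      left
      rw [Finset.mem_Ico]
      rw [h3] at hdm
      omega
    · right
      refine ⟨j / r * r, ?_, j % r, ?_, ?_⟩
      · unfold T
        rw [Finset.mem_union]
        right
        rw [Finset.mem_image]
        exact ⟨j / r, Finset.mem_Icc.2 ⟨h3, hq⟩, rfl⟩
      · unfold T
        rw [Finset.mem_union]
        left
        rw [Finset.mem_Ico]
        omega
      · rw [Nat.mul_comm (j / r) r]
        omega

/-- the set of shifts in `ZMod h` -/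
def S (h r : ℕ) : Finset (ZMod h) := (T h r).image (fun t : ℕ => (t : ZMod h))

lemma S_card (h r : ℕ) : (S h r).card ≤ r + (h - 1) / 2 / r :=
  Finset.card_image_le.trans (T_card h r)

lemma S_asymm {h r : ℕ} (hh : 1 ≤ h) (hr : r ≤ (h - 1) / 2) {d : ZMod h} (h1 : d ∈ S h r)
    (h2 : -d ∈ S h r) : False := by
  unfold S at h1 h2
  rw [Finset.mem_image] at h1 h2
  obtain ⟨a, ha, rfl⟩ := h1
  obtain ⟨b, hb, hab⟩ := h2
  have ha' := T_range hr ha
  have hb' := T_range hr hb
  have h3 : ((a + b : ℕ) : ZMod h) = 0 := by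
    push_cast
    rw [hab]
    ring
  rw [ZMod.natCast_eq_zero_iff] at h3
  have := Nat.le_of_dvd (by omega) h3
  omega

lemma S_cover {h r : ℕ} (hodd : h % 2 = 1) (hr : 1 ≤ r) {d : ZMod h} (hd : d ≠ 0) :
    d ∈ S h r ∨ -d ∈ S h r ∨ (∃ a ∈ S h r, ∃ b ∈ S h r, d = a + b) ∨
      (∃ a ∈ S h r, ∃ b ∈ S h r, -d = a + b) := by
  have hne : NeZero h := ⟨by omega⟩
  -- representative of absolute value at most (h-1)/2
  have key : ∀ j : ℕ, 1 ≤ j → j ≤ (h - 1) / 2 → ∀ e : ZMod h, e = (j : ZMod h) →
      e ∈ S h r ∨ (∃ a ∈ S h r, ∃ b ∈ S h r, e = a + b) := by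
    intro j h1 h2 e he
    subst he
    rcases T_cover hr h1 h2 with h3 | ⟨a, ha, b, hb, hab⟩
    · left
      exact Finset.mem_image_of_mem _ h3
    · right
      refine ⟨(a : ZMod h), Finset.mem_image_of_mem _ ha, (b : ZMod h),
        Finset.mem_image_of_mem _ hb, ?_⟩
      rw [hab]
      push_cast
      rfl
  have hval : d.val < h := ZMod.val_lt d
  have hpos : 1 ≤ d.val := by
    rw [Nat.one_le_iff_ne_zero]
    intro h0
    exact hd ((ZMod.val_eq_zero d).1 h0)
  rcases Nat.lt_or_ge ((h - 1) / 2) d.val with h1 | h1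
  · rcases key (h - d.val) (by omega) (by omega) (-d) (by
      rw [Nat.cast_sub hval.le]
      simp) with h2 | h2
    · exact Or.inr (Or.inl h2)
    · exact Or.inr (Or.inr (Or.inr h2))
  · rcases key d.val hpos h1 d (by simp) with h2 | h2
    · exact Or.inl h2
    · exact Or.inr (Or.inr (Or.inl h2))

/-! ### the squares of a prime field of order three modulo four -/

/-- the nonzero squares of `ZMod p` -/
def U (p : ℕ) [Fact p.Prime] : Type := {y : ZMod p // quadraticChar (ZMod p) y = 1}

instance (p : ℕ) [Fact p.Prime] : Fintype (U p) := by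
  unfold U
  infer_instance

section field

variable {p : ℕ} [Fact p.Prime] (hp : p % 4 = 3)

include hp

lemma char_neg_one : quadraticChar (ZMod p) (-1) = -1 := by
  have h2 : ringChar (ZMod p) ≠ 2 := by
    rw [ZMod.ringChar_zmod_n]
    omega
  rw [quadraticChar_neg_one h2, ZMod.card]
  exact ZMod.χ₄_nat_three_mod_four hp

lemma char_neg (x : ZMod p) : quadraticChar (ZMod p) (-x) = - quadraticChar (ZMod p) x := by
  rw [neg_eq_neg_one_mul, map_mul, char_neg_one hp]
  ring

omit hp in
lemma U_ne (y : U p) : y.1 ≠ 0 := by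
  intro h
  have := y.2
  rw [h, MulChar.map_zero] at this
  norm_num at this

lemma two_ne : (2 : ZMod p) ≠ 0 := by
  intro h
  have h1 : ((2 : ℕ) : ZMod p) = 0 := by exact_mod_cast h
  rw [ZMod.natCast_eq_zero_iff] at h1
  have := Nat.le_of_dvd (by norm_num) h1
  omega

lemma U_add_ne (y z : U p) : y.1 + z.1 ≠ 0 := by
  intro h
  have h1 : y.1 = - z.1 := eq_neg_of_add_eq_zero_left h
  have h2 := y.2
  rw [h1, char_neg hp, z.2] at h2
  norm_num at h2

lemma U_or {x : ZMod p} (hx : x ≠ 0) : quadraticChar (ZMod p) x = 1 ∨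
    quadraticChar (ZMod p) (-x) = 1 := by
  rw [char_neg hp]
  rcases quadraticChar_dichotomy hx with h | h
  · left; exact h
  · right; rw [h]; norm_num

lemma card_U : 2 * Fintype.card (U p) + 1 = p := by
  classical
  have h1 : Fintype.card (U p ⊕ U p ⊕ Unit) = Fintype.card (ZMod p) := by
    apply Fintype.card_of_bijective
      (f := fun x => match x with
        | Sum.inl y => y.1
        | Sum.inr (Sum.inl y) => - y.1
        | Sum.inr (Sum.inr _) => 0)
    constructor
    · rintro (a | a | a) (b | b | b) hab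
      · simp only at hab
        rw [Subtype.ext hab]
      · exfalso
        simp only at hab
        have h3 := a.2
        rw [hab, char_neg hp, b.2] at h3
        norm_num at h3
      · exact absurd hab (U_ne a)
      · exfalso
        simp only at hab
        have h3 := b.2
        rw [← hab, char_neg hp, a.2] at h3
        norm_num at h3
      · simp only [neg_inj] at hab
        rw [Subtype.ext hab]
      · simp only [neg_eq_zero] at hab
        exact absurd hab (U_ne a)
      · exact absurd hab.symm (U_ne b)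
      · simp only at hab
        exact absurd (neg_eq_zero.1 hab.symm) (U_ne b)
      · rfl
    · intro x
      by_cases hx : x = 0
      · exact ⟨Sum.inr (Sum.inr ()), hx.symm⟩
      · rcases U_or hp hx with h | h
        · exact ⟨Sum.inl ⟨x, h⟩, rfl⟩
        · exact ⟨Sum.inr (Sum.inl ⟨-x, h⟩), by simp⟩
  rw [Fintype.card_sum, Fintype.card_sum, ZMod.card, Fintype.card_unit] at h1
  omega

end field

/-! ### the digraph -/

section graph

variable {p m h r : ℕ} [Fact p.Prime]

/-- the vertices -/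
abbrev V (p m : ℕ) [Fact p.Prime] : Type := ZMod p × (U p × ZMod m × ZMod m)

/-- arcs of the main part -/
def Arc1 (u v : V p m) : Prop :=
  u.1 - v.1 = u.2.1.1 * v.2.1.1 ∧ u.2.2.1 - v.2.2.1 = u.2.2.2 + v.2.2.2

/-- arcs inside the classes -/
def Arc2 (r : ℕ) (e : (U p × ZMod m × ZMod m) ≃ ZMod h) (u v : V p m) : Prop :=
  u.1 = v.1 ∧ e v.2 - e u.2 ∈ S h r

/-- the arcs -/
def Arc (r : ℕ) (e : (U p × ZMod m × ZMod m) ≃ ZMod h) (u v : V p m) : Prop :=
  Arc1 u v ∨ Arc2 r e u v

lemma Arc1_ne {u v : V p m} (huv : Arc1 u v) : u.1 ≠ v.1 := by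
  intro h1
  have h2 := huv.1
  rw [h1, sub_self] at h2
  rcases mul_eq_zero.1 h2.symm with h3 | h3
  · exact U_ne _ h3
  · exact U_ne _ h3

lemma Arc_asymm (hp : p % 4 = 3) (hh : 1 ≤ h) (hr : r ≤ (h - 1) / 2)
    (e : (U p × ZMod m × ZMod m) ≃ ZMod h) (u v : V p m) (h1 : Arc r e u v) :
    ¬ Arc r e v u := by
  intro h2
  rcases h1 with h1 | h1
  · rcases h2 with h2 | h2
    · have h3 := h1.1
      have h4 := h2.1
      have h5 : (2 : ZMod p) * (u.2.1.1 * v.2.1.1) = 0 := by
        linear_combination (-1 : ZMod p) * h3 - h4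
      rcases mul_eq_zero.1 h5 with h6 | h6
      · exact two_ne hp h6
      · rcases mul_eq_zero.1 h6 with h7 | h7
        · exact U_ne _ h7
        · exact U_ne _ h7
    · exact Arc1_ne h1 h2.1.symm
  · rcases h2 with h2 | h2
    · exact Arc1_ne h2 h1.1.symm
    · refine S_asymm hh hr h1.2 ?_
      have h3 := h2.2
      rwa [← neg_sub] at h3

lemma Arc_cover (hp : p % 4 = 3) (hm : m % 2 = 1) (hodd : h % 2 = 1) (hr : 1 ≤ r)
    (e : (U p × ZMod m × ZMod m) ≃ ZMod h) (u v : V p m) (huv : u ≠ v) :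
    Arc r e u v ∨ Arc r e v u ∨ (∃ w, Arc r e u w ∧ Arc r e w v) ∨
      (∃ w, Arc r e v w ∧ Arc r e w u) := by
  by_cases h1 : u.1 = v.1
  · have h2 : e v.2 - e u.2 ≠ 0 := by
      intro h3
      rw [sub_eq_zero] at h3
      exact huv (Prod.ext h1 (e.injective h3).symm)
    rcases S_cover hodd hr h2 with h3 | h3 | ⟨a, ha, b, hb, hab⟩ | ⟨a, ha, b, hb, hab⟩
    · left
      exact Or.inr ⟨h1, h3⟩
    · right; left
      refine Or.inr ⟨h1.symm, ?_⟩
      rwa [neg_sub] at h3
    · right; right; left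
      refine ⟨(u.1, e.symm (e u.2 + a)), Or.inr ⟨rfl, ?_⟩, Or.inr ⟨h1, ?_⟩⟩
      · simpa using ha
      · have : e v.2 - e (e.symm (e u.2 + a)) = b := by
          rw [Equiv.apply_symm_apply]
          linear_combination hab
        simp only
        rw [this]
        exact hb
    · right; right; right
      refine ⟨(v.1, e.symm (e v.2 + a)), Or.inr ⟨rfl, ?_⟩, Or.inr ⟨h1.symm, ?_⟩⟩
      · simpa using ha
      · have : e u.2 - e (e.symm (e v.2 + a)) = b := by
          rw [Equiv.apply_symm_apply]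
          linear_combination hab
        simp only
        rw [this]
        exact hb
  · right; right
    have h2 : u.1 - v.1 ≠ 0 := sub_ne_zero.2 h1
    have h3 : u.2.1.1 + v.2.1.1 ≠ 0 := U_add_ne hp _ _
    -- halving modulo m
    have hhalf : ∀ x : ZMod m, ∃ b : ZMod m, b + b = x := by
      intro x
      refine ⟨((m + 1) / 2 : ℕ) * x, ?_⟩
      have h4 : (((m + 1) / 2 : ℕ) : ZMod m) + (((m + 1) / 2 : ℕ) : ZMod m) = 1 := by
        rw [← Nat.cast_add]
        have : (m + 1) / 2 + (m + 1) / 2 = m + 1 := by omega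
        rw [this]
        simp
      rw [← add_mul, h4, one_mul]
    have key : ∀ u v : V p m, quadraticChar (ZMod p) ((u.1 - v.1) / (u.2.1.1 + v.2.1.1)) = 1 →
        ∃ w, Arc r e u w ∧ Arc r e w v := by
      intro u v hc
      have h3 : u.2.1.1 + v.2.1.1 ≠ 0 := U_add_ne hp _ _
      obtain ⟨b, hb⟩ := hhalf (u.2.2.1 - v.2.2.1 - u.2.2.2 - v.2.2.2)
      refine ⟨(u.1 - u.2.1.1 * ((u.1 - v.1) / (u.2.1.1 + v.2.1.1)),
        (⟨(u.1 - v.1) / (u.2.1.1 + v.2.1.1), hc⟩, u.2.2.1 - u.2.2.2 - b, b)), ?_, ?_⟩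
      · left
        constructor
        · simp only
          ring
        · simp only
          ring
      · left
        constructor
        · simp only
          field_simp
          ring
        · simp only
          linear_combination (-1 : ZMod m) * hb
    rcases U_or hp (div_ne_zero h2 h3) with h4 | h4
    · left
      exact key u v h4
    · right
      apply key v u
      have : (v.1 - u.1) / (v.2.1.1 + u.2.1.1) = -((u.1 - v.1) / (u.2.1.1 + v.2.1.1)) := by
        rw [← neg_div, neg_sub, add_comm]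
      rw [this]
      exact h4

open scoped Classical in
lemma outdeg_le [NeZero m] (e : (U p × ZMod m × ZMod m) ≃ ZMod h) (u : V p m) :
    Nat.card {w // Arc r e u w} ≤ Fintype.card (U p) * m + (S h r).card := by
  have hfin : Set.Finite {w | Arc r e u w} := Set.toFinite _
  let A1 : Finset (V p m) := (Finset.univ : Finset (U p × ZMod m)).image
    (fun yb => (u.1 - u.2.1.1 * yb.1.1, (yb.1, u.2.2.1 - (u.2.2.2 + yb.2), yb.2)))
  let A2 : Finset (V p m) := (S h r).image (fun s => (u.1, e.symm (e u.2 + s)))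
  have hsub : {w | Arc r e u w} ⊆ ((A1 ∪ A2 : Finset (V p m)) : Set (V p m)) := by
    intro w hw
    rw [Finset.coe_union]
    rcases hw with hw | hw
    · left
      rw [Finset.mem_coe, Finset.mem_image]
      refine ⟨(w.2.1, w.2.2.2), Finset.mem_univ _, ?_⟩
      refine Prod.ext ?_ (Prod.ext rfl (Prod.ext ?_ rfl))
      · simp only
        linear_combination hw.1
      · simp only
        linear_combination hw.2
    · right
      rw [Finset.mem_coe, Finset.mem_image]
      refine ⟨e w.2 - e u.2, hw.2, ?_⟩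
      refine Prod.ext hw.1 ?_
      simp
  calc Nat.card {w // Arc r e u w} = Set.ncard {w | Arc r e u w} := rfl
    _ ≤ Set.ncard ((A1 ∪ A2 : Finset (V p m)) : Set (V p m)) := Set.ncard_le_ncard hsub
    _ = (A1 ∪ A2).card := Set.ncard_coe_finset _
    _ ≤ A1.card + A2.card := Finset.card_union_le _ _
    _ ≤ Fintype.card (U p) * m + (S h r).card := by
      refine Nat.add_le_add ?_ Finset.card_image_le
      refine Finset.card_image_le.trans ?_
      rw [Finset.card_univ, Fintype.card_prod, ZMod.card]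

open scoped Classical in
lemma indeg_le [NeZero m] (e : (U p × ZMod m × ZMod m) ≃ ZMod h) (u : V p m) :
    Nat.card {w // Arc r e w u} ≤ Fintype.card (U p) * m + (S h r).card := by
  let A1 : Finset (V p m) := (Finset.univ : Finset (U p × ZMod m)).image
    (fun yb => (u.1 + yb.1.1 * u.2.1.1, (yb.1, u.2.2.1 + (yb.2 + u.2.2.2), yb.2)))
  let A2 : Finset (V p m) := (S h r).image (fun s => (u.1, e.symm (e u.2 - s)))
  have hsub : {w | Arc r e w u} ⊆ ((A1 ∪ A2 : Finset (V p m)) : Set (V p m)) := by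
    intro w hw
    rw [Finset.coe_union]
    rcases hw with hw | hw
    · left
      rw [Finset.mem_coe, Finset.mem_image]
      refine ⟨(w.2.1, w.2.2.2), Finset.mem_univ _, ?_⟩
      refine Prod.ext ?_ (Prod.ext rfl (Prod.ext ?_ rfl))
      · simp only
        linear_combination (-1 : ZMod p) * hw.1
      · simp only
        linear_combination (-1 : ZMod m) * hw.2
    · right
      rw [Finset.mem_coe, Finset.mem_image]
      refine ⟨e u.2 - e w.2, hw.2, ?_⟩
      refine Prod.ext hw.1.symm ?_
      simp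
  calc Nat.card {w // Arc r e w u} = Set.ncard {w | Arc r e w u} := rfl
    _ ≤ Set.ncard ((A1 ∪ A2 : Finset (V p m)) : Set (V p m)) := Set.ncard_le_ncard hsub
    _ = (A1 ∪ A2).card := Set.ncard_coe_finset _
    _ ≤ A1.card + A2.card := Finset.card_union_le _ _
    _ ≤ Fintype.card (U p) * m + (S h r).card := by
      refine Nat.add_le_add ?_ Finset.card_image_le
      refine Finset.card_image_le.trans ?_
      rw [Finset.card_univ, Fintype.card_prod, ZMod.card]

end graph

/-- The basic construction: `a = (p - 1) / 2`, `K = a m`. -/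
theorem construct (p a m c : ℕ) (hprime : p.Prime) (hp : p = 2 * a + 1) (ha : a % 2 = 1)
    (hm : m % 2 = 1) (hc : 1 ≤ c) (hca : 2 * c + 1 ≤ a) :
    ∃ (V : Type) (_ : Fintype V) (A : V → V → Prop), (∀ u v, A u v → ¬ A v u) ∧
      (∀ v, Nat.card {w // A v w} ≤ a * m + (c * m + (a * m) / (2 * c))) ∧
      (∀ v, Nat.card {w // A w v} ≤ a * m + (c * m + (a * m) / (2 * c))) ∧
      (∀ u v, u ≠ v → A u v ∨ A v u ∨ (∃ w, A u w ∧ A w v) ∨ (∃ w, A v w ∧ A w u)) ∧
      Fintype.card V = 2 * (a * m) ^ 2 + a * m ^ 2 := by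
  haveI : Fact p.Prime := ⟨hprime⟩
  haveI : NeZero m := ⟨by omega⟩
  have hp4 : p % 4 = 3 := by omega
  have hU : Fintype.card (U p) = a := by
    have := card_U (p := p) hp4
    omega
  have hm1 : 1 ≤ m := by omega
  have hWc : Fintype.card (U p × ZMod m × ZMod m) = a * (m * m) := by
    rw [Fintype.card_prod, Fintype.card_prod, ZMod.card, hU]
  have hh1 : 1 ≤ a * (m * m) := Nat.mul_pos (by omega) (Nat.mul_pos hm1 hm1)
  haveI : NeZero (a * (m * m)) := ⟨by omega⟩
  have hodd : (a * (m * m)) % 2 = 1 := by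
    rw [Nat.mul_mod, ha, Nat.mul_mod m m, hm]
  have e : (U p × ZMod m × ZMod m) ≃ ZMod (a * (m * m)) := by
    apply Fintype.equivOfCardEq
    rw [hWc, ZMod.card]
  have hr : c * m ≤ (a * (m * m) - 1) / 2 := by
    rw [Nat.le_div_iff_mul_le (by norm_num)]
    apply Nat.le_sub_of_add_le
    nlinarith [Nat.mul_le_mul hca hm1, Nat.mul_le_mul hm1 hm1,
      Nat.mul_le_mul (Nat.mul_le_mul hca hm1) hm1]
  have hS : (S (a * (m * m)) (c * m)).card ≤ c * m + (a * m) / (2 * c) := by
    refine (S_card _ _).trans ?_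
    apply Nat.add_le_add_left
    rw [Nat.div_div_eq_div_mul]
    have h1 : (a * (m * m) - 1) / (2 * (c * m)) ≤ (a * (m * m)) / (2 * (c * m)) :=
      Nat.div_le_div_right (Nat.sub_le _ _)
    refine h1.trans ?_
    have h2 : a * (m * m) = (a * m) * m := by ring
    have h3 : 2 * (c * m) = (2 * c) * m := by ring
    rw [h2, h3, Nat.mul_div_mul_right _ _ hm1]
  refine ⟨V p m, inferInstance, Arc (c * m) e, ?_, ?_, ?_, ?_, ?_⟩
  · intro u v h1
    exact Arc_asymm hp4 hh1 hr e u v h1
  · intro v
    refine (outdeg_le e v).trans ?_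
    rw [hU]
    exact Nat.add_le_add_left hS _
  · intro v
    refine (indeg_le e v).trans ?_
    rw [hU]
    exact Nat.add_le_add_left hS _
  · intro u v huv
    exact Arc_cover hp4 hm hodd (Nat.mul_pos hc hm1) e u v huv
  · rw [Fintype.card_prod, hWc, ZMod.card, hp]
    ring

end Q116.OrL21
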