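import Pool.Agent.Q116.OrL21

/-! The asymptotic form of the construction. -/

namespace Q116.OrL21

open Filter Topology

theorem eventually_construct (η : ℝ) (h0 : 0 < η) (h1 : η ≤ 1) :
    ∀ᶠ k : ℕ in atTop, ∃ (V : Type) (_ : Fintype V) (A : V → V → Prop),
      (∀ u v, A u v → ¬ A v u) ∧
      (∀ v, (Nat.card {w // A v w} : ℝ) ≤ (1 + η) * k) ∧
      (∀ v, (Nat.card {w // A w v} : ℝ) ≤ (1 + η) * k) ∧
      (∀ u v, u ≠ v → A u v ∨ A v u ∨ (∃ w, A u w ∧ A w v) ∨ (∃ w, A v w ∧ A w u)) ∧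
      2 * k ^ 2 + 1 ≤ Fintype.card V := by
  obtain ⟨c, hc⟩ := exists_nat_ge (3 / η)
  have hc3 : 3 / η ≤ (c : ℝ) := hc
  have hcpos : (0 : ℝ) < c := lt_of_lt_of_le (by positivity) hc3
  have hc1 : 1 ≤ c := by
    rcases Nat.eq_zero_or_pos c with h | h
    · rw [h] at hcpos
      simp at hcpos
    · exact h
  obtain ⟨b, hb⟩ := exists_nat_ge (6 * c / η)
  -- a prime
  obtain ⟨p, hpb, hpp, hp3⟩ := Nat.forall_exists_prime_gt_and_eq_mod (q := 4) (a := (3 : ZMod 4))
    (by decide) (2 * (b + 2 * c + 1) + 1)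
  have hp4 : p % 4 = 3 := by
    have h2 : ((p : ℕ) : ZMod 4) = ((3 : ℕ) : ZMod 4) := by exact_mod_cast hp3
    rw [ZMod.natCast_eq_natCast_iff'] at h2
    omega
  obtain ⟨a, ha⟩ : ∃ a, p = 2 * a + 1 := ⟨p / 2, by omega⟩
  have haodd : a % 2 = 1 := by omega
  have hab : b + 2 * c + 1 ≤ a := by omega
  have hapos : (0 : ℝ) < a := by
    have : 0 < a := by omega
    exact_mod_cast this
  have hca : (c : ℝ) / a ≤ η / 6 := by
    rw [div_le_div_iff₀ hapos (by norm_num)]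
    have h2 : (b : ℝ) ≤ a := by
      have : b ≤ a := by omega
      exact_mod_cast this
    have h3 : 6 * c / η ≤ (a : ℝ) := hb.trans h2
    rw [div_le_iff₀ h0] at h3
    linarith
  have hcc : 1 / (2 * (c : ℝ)) ≤ η / 6 := by
    rw [div_le_div_iff₀ (by positivity) (by norm_num)]
    rw [div_le_iff₀ h0] at hc3
    linarith
  obtain ⟨k0, hk0⟩ := exists_nat_ge (6 * a / η)
  filter_upwards [eventually_ge_atTop k0] with k hk
  have hkk : 4 * (a : ℝ) ≤ 2 / 3 * η * k := by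
    have h2 : (k0 : ℝ) ≤ k := by exact_mod_cast hk
    have h3 : 6 * a / η ≤ (k : ℝ) := hk0.trans h2
    rw [div_le_iff₀ h0] at h3
    linarith
  set m := 2 * (k / (2 * a)) + 3 with hm
  have hmodd : m % 2 = 1 := by omega
  have h2a : 0 < 2 * a := by omega
  have hdm := Nat.div_add_mod k (2 * a)
  have hlt := Nat.mod_lt k h2a
  have ham1 : k ≤ a * m := by
    have : a * m = 2 * a * (k / (2 * a)) + 3 * a := by rw [hm]; ring
    omega
  have ham2 : a * m ≤ k + 3 * a := by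
    have : a * m = 2 * a * (k / (2 * a)) + 3 * a := by rw [hm]; ring
    omega
  obtain ⟨V, hV, A, hA1, hA2, hA3, hA4, hA5⟩ :=
    construct p a m c hpp ha haodd hmodd hc1 (by omega)
  have hdeg : ((a * m + (c * m + (a * m) / (2 * c)) : ℕ) : ℝ) ≤ (1 + η) * k := by
    have h2 : (((a * m) / (2 * c) : ℕ) : ℝ) ≤ (a * m : ℝ) * (1 / (2 * c)) := by
      have := @Nat.cast_div_le ℝ _ _ _ (a * m) (2 * c)
      push_cast at this
      rw [mul_one_div]
      exact this
    have hm0 : (0 : ℝ) ≤ a * m := by positivity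
    have h3 : (c : ℝ) * m ≤ (a * m : ℝ) * (c / a) := by
      rw [mul_div_assoc', le_div_iff₀ hapos]
      linarith [mul_comm (c : ℝ) m, mul_comm ((c : ℝ) * m) a,
        mul_assoc (a : ℝ) m c]
    have h4 : (a * m : ℝ) * (1 / (2 * c)) ≤ (a * m : ℝ) * (η / 6) :=
      mul_le_mul_of_nonneg_left hcc hm0
    have h5 : (a * m : ℝ) * (c / a) ≤ (a * m : ℝ) * (η / 6) :=
      mul_le_mul_of_nonneg_left hca hm0
    have h6 : (a * m : ℝ) ≤ k + 3 * a := by exact_mod_cast ham2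
    have h7 : (a * m : ℝ) * (1 + η / 3) ≤ (k + 3 * a) * (1 + η / 3) :=
      mul_le_mul_of_nonneg_right h6 (by linarith)
    have h8 : (a : ℝ) * η ≤ a := by
      have := mul_le_mul_of_nonneg_left h1 hapos.le
      linarith
    push_cast
    nlinarith
  refine ⟨V, hV, A, hA1, ?_, ?_, hA4, ?_⟩
  · intro v
    refine le_trans ?_ hdeg
    exact_mod_cast hA2 v
  · intro v
    refine le_trans ?_ hdeg
    exact_mod_cast hA3 v
  · rw [hA5]
    have h2 : k ^ 2 ≤ (a * m) ^ 2 := Nat.pow_le_pow_left ham1 2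
    have h3 : 1 ≤ a * m ^ 2 := Nat.mul_pos (by omega) (Nat.pow_pos (by omega))
    omega

end Q116.OrL21
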