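import Pool.Agent.Q116.OrL21Asym

/-! Oriented `L(2,1)`-labelings: definitions and the final theorem. -/

namespace Q116.OrL21

open Filter Topology

/-- An oriented graph: a set of arcs that never contains two opposite arcs
(in particular, no loops). -/
structure OrientedGraph (V : Type) where
  Arc : V → V → Prop
  asymm : ∀ u v, Arc u v → ¬ Arc v u

variable {V : Type}

/-- the outdegree `d_+(v)` -/
noncomputable def outdeg (G : OrientedGraph V) (v : V) : ℕ := Nat.card {w // G.Arc v w}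

/-- the indegree `d_-(v)` -/
noncomputable def indeg (G : OrientedGraph V) (v : V) : ℕ := Nat.card {w // G.Arc w v}

/-- `f` is an `L(2,1)`-labeling of `G` with span `m` -/
def IsL21Labeling (G : OrientedGraph V) (m : ℕ) (f : V → ℕ) : Prop :=
  (∀ v, f v ≤ m) ∧ (∀ u v, G.Arc u v → 2 ≤ |(f u : ℤ) - f v|) ∧
    ∀ u w v, G.Arc u w → G.Arc w v → 1 ≤ |(f u : ℤ) - f v|

/-- the least span of an `L(2,1)`-labeling of `G` -/
noncomputable def lambda (G : OrientedGraph V) : ℕ := sInf {m | ∃ f, IsL21Labeling G m f}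

lemma labeling_exists [Fintype V] (G : OrientedGraph V) : ∃ m f, IsL21Labeling G m f := by
  classical
  let e := Fintype.equivFin V
  have hloop : ∀ u, ¬ G.Arc u u := fun u h => G.asymm u u h h
  refine ⟨2 * Fintype.card V, fun v => 2 * (e v : ℕ), ?_, ?_, ?_⟩
  · intro v
    have := (e v).isLt
    simp only
    omega
  · intro u v huv
    have hne : (e u : ℕ) ≠ (e v : ℕ) := by
      intro h
      have : u = v := e.injective (Fin.ext h)
      rw [this] at huv
      exact hloop v huv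
    simp only
    push_cast
    rw [le_abs]
    omega
  · intro u w v huw hwv
    have hne : (e u : ℕ) ≠ (e v : ℕ) := by
      intro h
      have : u = v := e.injective (Fin.ext h)
      rw [this] at huw
      exact G.asymm _ _ huw hwv
    simp only
    push_cast
    rw [le_abs]
    omega

lemma card_le_lambda [Fintype V] (G : OrientedGraph V)
    (h : ∀ u v, u ≠ v → G.Arc u v ∨ G.Arc v u ∨ (∃ w, G.Arc u w ∧ G.Arc w v) ∨
      (∃ w, G.Arc v w ∧ G.Arc w u)) : Fintype.card V ≤ lambda G + 1 := by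
  have hne : {m | ∃ f, IsL21Labeling G m f}.Nonempty := labeling_exists G
  obtain ⟨f, hf1, hf2, hf3⟩ := Nat.sInf_mem hne
  have hinj : Function.Injective f := by
    intro u v huv
    by_contra hc
    have key : ∀ x y, f x = f y → ¬ (1 ≤ |(f x : ℤ) - f y|) := by
      intro x y hxy hle
      rw [hxy, sub_self, abs_zero] at hle
      omega
    rcases h u v hc with h1 | h1 | ⟨w, h1, h2⟩ | ⟨w, h1, h2⟩
    · exact key u v huv ((by norm_num : (1 : ℤ) ≤ 2).trans (hf2 _ _ h1))
    · exact key v u huv.symm ((by norm_num : (1 : ℤ) ≤ 2).trans (hf2 _ _ h1))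
    · exact key u v huv (hf3 _ _ _ h1 h2)
    · exact key v u huv.symm (hf3 _ _ _ h1 h2)
  have h1 : Function.Injective (fun v => (⟨f v, Nat.lt_succ_of_le (hf1 v)⟩ : Fin (lambda G + 1))) := by
    intro u v huv
    exact hinj (Fin.mk.inj huv)
  simpa using Fintype.card_le_of_injective _ h1

/-- there is an oriented graph with all degrees at most `(1 + η) k` and `lambda ≥ 2 k ^ 2` -/
def P (k : ℕ) (η : ℝ) : Prop := ∃ (V : Type) (_ : Fintype V) (G : OrientedGraph V),
  (∀ v, (outdeg G v : ℝ) ≤ (1 + η) * k) ∧ (∀ v, (indeg G v : ℝ) ≤ (1 + η) * k) ∧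
    2 * k ^ 2 ≤ lambda G

lemma P_mono {k : ℕ} {η η' : ℝ} (h : η ≤ η') (hP : P k η) : P k η' := by
  obtain ⟨V, hV, G, h1, h2, h3⟩ := hP
  have h4 : (1 + η) * (k : ℝ) ≤ (1 + η') * k :=
    mul_le_mul_of_nonneg_right (by linarith) (Nat.cast_nonneg k)
  exact ⟨V, hV, G, fun v => (h1 v).trans h4, fun v => (h2 v).trans h4, h3⟩

lemma P_eventually (η : ℝ) (h0 : 0 < η) : ∀ᶠ k : ℕ in atTop, P k η := by
  have h1 : ∀ᶠ k : ℕ in atTop, P k (min η 1) := by
    filter_upwards [eventually_construct (min η 1) (lt_min h0 one_pos) (min_le_right _ _)] with k hk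
    obtain ⟨V, hV, A, hA1, hA2, hA3, hA4, hA5⟩ := hk
    refine ⟨V, hV, ⟨A, hA1⟩, hA2, hA3, ?_⟩
    have := card_le_lambda (⟨A, hA1⟩ : OrientedGraph V) hA4
    omega
  exact h1.mono fun k hk => P_mono (min_le_left _ _) hk

theorem main : ∃ ε : ℕ → ℝ, Tendsto ε atTop (𝓝 0) ∧ ∀ᶠ k : ℕ in atTop, P k (ε k) := by
  refine ⟨fun k => sInf {η : ℝ | 0 < η ∧ P k η} + 1 / ((k : ℝ) + 1), ?_, ?_⟩
  · rw [Metric.tendsto_atTop]
    intro δ hδ
    have h1 := P_eventually (δ / 2) (by linarith)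
    have h2 : ∀ᶠ k : ℕ in atTop, 1 / ((k : ℝ) + 1) < δ / 2 := by
      have := tendsto_one_div_add_atTop_nhds_zero_nat (𝕜 := ℝ)
      exact this.eventually (gt_mem_nhds (by linarith))
    obtain ⟨N, hN⟩ := eventually_atTop.1 (h1.and h2)
    refine ⟨N, fun k hk => ?_⟩
    obtain ⟨h3, h4⟩ := hN k hk
    have hbdd : BddBelow {η : ℝ | 0 < η ∧ P k η} := ⟨0, fun x hx => hx.1.le⟩
    have h5 : sInf {η : ℝ | 0 < η ∧ P k η} ≤ δ / 2 := csInf_le hbdd ⟨by linarith, h3⟩
    have h6 : 0 ≤ sInf {η : ℝ | 0 < η ∧ P k η} := Real.sInf_nonneg fun x hx => hx.1.le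
    have h7 : (0 : ℝ) < 1 / ((k : ℝ) + 1) := by positivity
    rw [Real.dist_eq, sub_zero, abs_of_nonneg (by linarith)]
    linarith
  · filter_upwards [P_eventually 1 one_pos] with k hk
    have hne : {η : ℝ | 0 < η ∧ P k η}.Nonempty := ⟨1, one_pos, hk⟩
    have h7 : (0 : ℝ) < 1 / ((k : ℝ) + 1) := by positivity
    obtain ⟨η, hη, hlt⟩ := exists_lt_of_csInf_lt hne
      (show sInf {η : ℝ | 0 < η ∧ P k η} < sInf {η : ℝ | 0 < η ∧ P k η} + 1 / ((k : ℝ) + 1) by
        linarith)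
    exact P_mono hlt.le hη.2

end Q116.OrL21
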